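import Mathlib

set_option autoImplicit false

namespace Pool.Agent.Helper102.KappaPc

open Topology Filter Set Cardinal

/-- A linear functional on `C(X, ℝ)` that is continuous for the pointwise topology vanishes on all functions
vanishing on a suitable finite set. -/
lemma exists_finset_of_continuous {X Y : Type} [TopologicalSpace X] [TopologicalSpace Y]
    (T : C(X, ℝ) →ₗ[ℝ] C(Y, ℝ))
    (hT : @Continuous C(X, ℝ) (Y → ℝ)
            (TopologicalSpace.induced (fun g : C(X, ℝ) => (g : X → ℝ))
              (inferInstance : TopologicalSpace (X → ℝ)))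
            (inferInstance : TopologicalSpace (Y → ℝ))
            (fun g => ((T g : C(Y, ℝ)) : Y → ℝ))) (y : Y) :
    ∃ A : Finset X, ∀ f : C(X, ℝ), (∀ x ∈ A, f x = 0) → T f y = 0 := by
  let _ : TopologicalSpace C(X, ℝ) := TopologicalSpace.induced (fun g : C(X, ℝ) => (g : X → ℝ))
              (inferInstance : TopologicalSpace (X → ℝ))
  have h1 : Continuous (fun f : C(X, ℝ) => T f y) := (continuous_apply y).comp hT
  have h2 : IsOpen ((fun f : C(X, ℝ) => T f y) ⁻¹' (Metric.ball 0 1)) :=
    Metric.isOpen_ball.preimage h1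
  obtain ⟨O, hO, hO2⟩ := isOpen_induced_iff.1 h2
  have h0 : (0 : X → ℝ) ∈ O := by
    have : (0 : C(X, ℝ)) ∈ (fun f : C(X, ℝ) => T f y) ⁻¹' (Metric.ball 0 1) := by simp
    rw [← hO2] at this
    exact this
  obtain ⟨A, u, hu, hsub⟩ := isOpen_pi_iff.1 hO 0 h0
  refine ⟨A, fun f hf => ?_⟩
  have key : ∀ c : ℝ, |c * T f y| < 1 := by
    intro c
    have hmem : (c • f : C(X, ℝ)) ∈ (fun f : C(X, ℝ) => T f y) ⁻¹' (Metric.ball 0 1) := by
      rw [← hO2]
      apply hsub
      intro x hx
      have hx' : x ∈ A := hx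
      have : (⇑(c • f)) x = (0 : X → ℝ) x := by simp [hf x hx']
      show (⇑(c • f)) x ∈ u x
      rw [this]
      exact (hu x hx').2
    simpa using hmem
  by_contra hne
  have := key (T f y)⁻¹
  rw [inv_mul_cancel₀ hne] at this
  simp at this

/-- Finite representation of the functional. -/
lemma exists_repr {X Y : Type} [TopologicalSpace X] [TopologicalSpace Y]
    (T : C(X, ℝ) →ₗ[ℝ] C(Y, ℝ))
    (hT : @Continuous C(X, ℝ) (Y → ℝ)
            (TopologicalSpace.induced (fun g : C(X, ℝ) => (g : X → ℝ))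
              (inferInstance : TopologicalSpace (X → ℝ)))
            (inferInstance : TopologicalSpace (Y → ℝ))
            (fun g => ((T g : C(Y, ℝ)) : Y → ℝ))) (y : Y) :
    ∃ (n : ℕ) (c : Fin n → ℝ) (x : Fin n → X), ∀ f : C(X, ℝ), T f y = ∑ i, c i * f (x i) := by
  obtain ⟨A, hA⟩ := exists_finset_of_continuous T hT y
  let L : A → (C(X, ℝ) →ₗ[ℝ] ℝ) := fun a =>
    { toFun := fun f => f a
      map_add' := fun f g => rfl
      map_smul' := fun c f => rfl }
  let K : C(X, ℝ) →ₗ[ℝ] ℝ :=
    { toFun := fun f => T f y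
      map_add' := fun f g => by simp
      map_smul' := fun c f => by simp }
  have hK : K ∈ Submodule.span ℝ (Set.range L) := by
    apply mem_span_of_iInf_ker_le_ker
    intro f hf
    rw [Submodule.mem_iInf] at hf
    exact hA f (fun x hx => hf ⟨x, hx⟩)
  obtain ⟨c, hc⟩ := (Submodule.mem_span_range_iff_exists_fun ℝ).1 hK
  let e := A.equivFin
  refine ⟨A.card, fun i => c (e.symm i), fun i => (e.symm i : X), fun f => ?_⟩
  have h1 : K f = ∑ a, c a * f a := by
    rw [← hc]
    simp [L]
  have h2 : T f y = K f := rfl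
  rw [h2, h1]
  exact (Equiv.sum_comp e.symm (fun a => c a * f a)).symm

/-- If every function in `C(X, ℝ)` is bounded then so is every function in `C(Y, ℝ)`. -/
lemma bounded_of_bounded {X Y : Type} [TopologicalSpace X] [TopologicalSpace Y]
    (T : C(X, ℝ) ≃ₗ[ℝ] C(Y, ℝ))
    (hT : @Continuous C(X, ℝ) (Y → ℝ)
            (TopologicalSpace.induced (fun g : C(X, ℝ) => (g : X → ℝ))
              (inferInstance : TopologicalSpace (X → ℝ)))
            (inferInstance : TopologicalSpace (Y → ℝ))
            (fun g => ((T g : C(Y, ℝ)) : Y → ℝ)))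
    (hX : ∀ f : C(X, ℝ), ∃ M : ℝ, ∀ x, |f x| ≤ M) (h : C(Y, ℝ)) :
    ∃ M : ℝ, ∀ y, |h y| ≤ M := by
  by_contra hcon
  push Not at hcon
  choose pt hpt using hcon
  -- a sequence with increasing values
  let s : ℕ → Y := fun n => Nat.rec (pt 0) (fun _ y => pt (|h y| + 1)) n
  have hs : ∀ n, |h (s n)| + 1 < |h (s (n + 1))| := fun n => hpt _
  let t : ℕ → ℝ := fun n => |h (s n)|
  have ht1 : ∀ n, t n + 1 ≤ t (n + 1) := fun n => (hs n).le
  have ht2 : ∀ n k, t n + k ≤ t (n + k) := by
    intro n k
    induction k with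
    | zero => simp
    | succ k ih =>
      have := ht1 (n + k)
      push_cast
      rw [← add_assoc]
      linarith!
  have hdist : Pairwise fun n m : ℕ => (1 : ℝ) ≤ dist (t n) (t m) := by
    have aux : ∀ n m : ℕ, n < m → (1 : ℝ) ≤ dist (t n) (t m) := by
      intro n m hnm
      obtain ⟨k, rfl⟩ := Nat.exists_eq_add_of_lt hnm
      have := ht2 n (k + 1)
      rw [dist_comm, Real.dist_eq]
      refine le_trans ?_ (le_abs_self _)
      push_cast at this
      have hk : (0 : ℝ) ≤ k := Nat.cast_nonneg k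
      rw [add_assoc]
      linarith
    intro n m hnm
    rcases lt_or_gt_of_ne hnm with h | h
    · exact aux n m h
    · rw [dist_comm]; exact aux m n h
  have hemb : IsClosedEmbedding t := Metric.isClosedEmbedding_of_pairwise_le_dist one_pos hdist
  -- coefficients
  have hrep := fun n => exists_repr T.toLinearMap hT (s n)
  choose N c x hrep using hrep
  let a : ℕ → ℝ := fun n => 1 + n * ∑ i, |c n i|
  obtain ⟨ψ, hψ⟩ := ContinuousMap.exists_extension' hemb (⟨a, continuous_of_discreteTopology⟩ : C(ℕ, ℝ))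
  let g : C(Y, ℝ) := ⟨fun y => ψ (|h y|), ψ.continuous.comp (continuous_abs.comp h.continuous)⟩
  obtain ⟨M, hM⟩ := hX (T.symm g)
  obtain ⟨n, hn⟩ := exists_nat_ge M
  have h1 : g (s n) = a n := congrFun hψ n
  have h2 : T (T.symm g) (s n) = ∑ i, c n i * (T.symm g) (x n i) := hrep n (T.symm g)
  rw [LinearEquiv.apply_symm_apply, h1] at h2
  have h3 : ∑ i, c n i * (T.symm g) (x n i) ≤ n * ∑ i, |c n i| := by
    rw [Finset.mul_sum]
    apply Finset.sum_le_sum
    intro i _
    calc c n i * (T.symm g) (x n i) ≤ |c n i * (T.symm g) (x n i)| := le_abs_self _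
      _ = |c n i| * |(T.symm g) (x n i)| := abs_mul _ _
      _ ≤ |c n i| * n := by
        apply mul_le_mul_of_nonneg_left _ (abs_nonneg _)
        exact (hM _).trans hn
      _ = n * |c n i| := mul_comm _ _
  rw [← h2] at h3
  simp only [a] at h3
  linarith

/-- Real powers of index set of size at most `κ` have a base of size at most `κ`. -/
lemma exists_basis_pi (κ : Cardinal.{0}) (hκ : Cardinal.aleph0 ≤ κ) (ι : Type) (hι : #ι ≤ κ) :
    ∃ B : Set (Set (ι → ℝ)), TopologicalSpace.IsTopologicalBasis B ∧ Cardinal.mk B ≤ κ := by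
  classical
  have hb : TopologicalSpace.IsTopologicalBasis (TopologicalSpace.countableBasis ℝ) :=
    TopologicalSpace.isBasis_countableBasis ℝ
  refine ⟨_, isTopologicalBasis_pi (fun _ : ι => hb), ?_⟩
  have hc : (TopologicalSpace.countableBasis ℝ).Countable :=
    TopologicalSpace.countable_countableBasis ℝ
  let b := TopologicalSpace.countableBasis ℝ
  -- the basis is the image of a small type
  let F : (Σ s : Finset ι, (s → b)) → Set (ι → ℝ) := fun p =>
    (p.1 : Set ι).pi (fun i => if h : i ∈ p.1 then (p.2 ⟨i, h⟩ : Set ℝ) else univ)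
  have hsub : { S : Set (ι → ℝ) | ∃ (U : ∀ _ : ι, Set ℝ) (F : Finset ι),
      (∀ i, i ∈ F → U i ∈ TopologicalSpace.countableBasis ℝ) ∧ S = (F : Set ι).pi U } ⊆ Set.range F := by
    rintro S ⟨U, s, hU, rfl⟩
    refine ⟨⟨s, fun i => ⟨U i, hU i i.2⟩⟩, ?_⟩
    apply Set.pi_congr rfl
    intro i hi
    have hi' : i ∈ s := hi
    simp [hi']
  refine (Cardinal.mk_le_mk_of_subset hsub).trans (Cardinal.mk_range_le.trans ?_)
  rw [Cardinal.mk_sigma]
  have h1 : ∀ s : Finset ι, #(s → b) ≤ ℵ₀ := by
    intro s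
    have : Countable b := hc.to_subtype
    exact Cardinal.mk_le_aleph0
  calc Cardinal.sum (fun s : Finset ι => #(s → b)) ≤ Cardinal.sum (fun _ : Finset ι => ℵ₀) :=
        Cardinal.sum_le_sum _ _ h1
    _ = #(Finset ι) * ℵ₀ := by simp
    _ ≤ κ * κ := by
        apply mul_le_mul' _ hκ
        rcases finite_or_infinite ι with hfin | hinf
        · have := Fintype.ofFinite ι
          exact (Cardinal.lt_aleph0_of_finite _).le.trans hκ
        · rw [Cardinal.mk_finset_of_infinite]
          exact hι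
    _ = κ := Cardinal.mul_eq_self hκ

/-- A Tychonoff space with a base of size at most `κ` is embedded in a power of the real line with exponent of
size at most `κ`. -/
lemma exists_inducing (κ : Cardinal.{0}) (hκ : Cardinal.aleph0 ≤ κ) (Z : Type) [TopologicalSpace Z]
    [CompletelyRegularSpace Z]
    (hB : ∃ B : Set (Set Z), TopologicalSpace.IsTopologicalBasis B ∧ Cardinal.mk B ≤ κ) :
    ∃ (ι : Type) (_ : #ι ≤ κ) (φ : ι → C(Z, ℝ)), IsInducing (fun z i => φ i z) := by
  classical
  obtain ⟨B, hB, hBκ⟩ := hB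
  let good : Type := {p : B × B // ∃ h : C(Z, ℝ), (∀ z ∈ (p.1 : Set Z), h z = 0) ∧
    (∀ z ∉ (p.2 : Set Z), h z = 1)}
  refine ⟨good, ?_, fun p => p.2.choose, ?_⟩
  · calc Cardinal.mk good ≤ #(B × B) := Cardinal.mk_subtype_le _
      _ = #B * #B := by simp
      _ ≤ κ * κ := mul_le_mul' hBκ hBκ
      _ = κ := Cardinal.mul_eq_self hκ
  · rw [isInducing_iff_nhds]
    intro z
    apply le_antisymm
    · rw [← Filter.tendsto_iff_comap]
      exact (continuous_pi fun p : good => (p.2.choose).continuous).tendsto z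
    · intro W hW
      obtain ⟨V, hVB, hzV, hVW⟩ := hB.mem_nhds_iff.1 hW
      obtain ⟨h0, hc, h0z, h1⟩ := CompletelyRegularSpace.completely_regular_isOpen z V
        (hB.isOpen hVB) hzV
      have hopen : IsOpen {y | (h0 y : ℝ) < 1 / 2} :=
        isOpen_lt (continuous_subtype_val.comp hc) continuous_const
      obtain ⟨U, hUB, hzU, hU⟩ := hB.exists_subset_of_mem_open (u := {y | (h0 y : ℝ) < 1 / 2})
        (a := z) (by simp [h0z]) hopen
      have hgood : ∃ h : C(Z, ℝ), (∀ y ∈ U, h y = 0) ∧ (∀ y ∉ V, h y = 1) := by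
        refine ⟨⟨fun y => max (2 * (h0 y : ℝ) - 1) 0, by fun_prop⟩, fun y hy => ?_, fun y hy => ?_⟩
        · have : (h0 y : ℝ) < 1 / 2 := hU hy
          simp only [ContinuousMap.coe_mk]
          apply max_eq_right
          linarith
        · have : h0 y = 1 := h1 hy
          simp only [ContinuousMap.coe_mk, this, Set.Icc.coe_one]
          norm_num
      let p : good := ⟨(⟨U, hUB⟩, ⟨V, hVB⟩), hgood⟩
      have hp0 : p.2.choose z = 0 := p.2.choose_spec.1 z hzU
      refine Filter.mem_comap.2 ⟨{f | f p < 1}, ?_, ?_⟩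
      · apply IsOpen.mem_nhds
        · exact isOpen_lt (continuous_apply p) continuous_const
        · show p.2.choose z < 1
          rw [hp0]; norm_num
      · intro y hy
        apply hVW
        by_contra hyV
        have h3 : p.2.choose y = 1 := p.2.choose_spec.2 y hyV
        have h4 : p.2.choose y < 1 := hy
        linarith

/-- Cardinality of the submonoid generated by a small set. -/
lemma mk_closure_le (κ : Cardinal.{0}) (hκ : Cardinal.aleph0 ≤ κ) {M : Type} [Monoid M] (S : Set M)
    (hS : #S ≤ κ) : #(Submonoid.closure S) ≤ κ := by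
  have h : (Submonoid.closure S : Set M) = Set.range (FreeMonoid.lift ((↑) : S → M)) := by
    rw [Submonoid.closure_eq_mrange]
    rfl
  have h2 : #(Submonoid.closure S) = #(Set.range (FreeMonoid.lift ((↑) : S → M))) := by
    rw [← h]
    rfl
  rw [h2]
  calc #(Set.range (FreeMonoid.lift ((↑) : S → M))) ≤ #(FreeMonoid S) := Cardinal.mk_range_le
    _ = #(List S) := rfl
    _ ≤ max ℵ₀ #S := Cardinal.mk_list_le_max _
    _ ≤ κ := max_le hκ hS

end Pool.Agent.Helper102.KappaPc
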