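import Mathlib
import Pool.Agent.Helper102.KappaPc

set_option autoImplicit false

namespace Pool.Agent.Helper102.KsdL

open Topology Filter Set
open Pool.Agent.Helper102.KappaPc

variable {X Y K : Type} [TopologicalSpace X] [TopologicalSpace Y] [TopologicalSpace K]

/-- Representation by finitely supported functions. -/
lemma exists_lam (T : C(X, ℝ) →ₗ[ℝ] C(Y, ℝ))
    (hT : @Continuous C(X, ℝ) (Y → ℝ)
            (TopologicalSpace.induced (fun g : C(X, ℝ) => (g : X → ℝ))
              (inferInstance : TopologicalSpace (X → ℝ)))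
            (inferInstance : TopologicalSpace (Y → ℝ))
            (fun g => ((T g : C(Y, ℝ)) : Y → ℝ))) :
    ∃ lam : Y → (X →₀ ℝ), ∀ f y, T f y = (lam y).sum (fun x c => c * f x) := by
  have h : ∀ y, ∃ l : X →₀ ℝ, ∀ f, T f y = l.sum (fun x c => c * f x) := by
    intro y
    obtain ⟨n, c, x, hrep⟩ := exists_repr T hT y
    refine ⟨∑ i, Finsupp.single (x i) (c i), fun f => ?_⟩
    rw [hrep f, ← Finsupp.sum_finsetSum_index]
    · refine Finset.sum_congr rfl fun i _ => ?_
      rw [Finsupp.sum_single_index]
      simp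
    · intro a; simp
    · intro a b1 b2; ring
  choose lam hlam using h
  exact ⟨lam, fun f y => hlam y f⟩

/-- Uniqueness of representations over a compact space. -/
lemma uniqueness [CompactSpace K] [T2Space K] {e : X → K} (he : Function.Injective e)
    (l : X →₀ ℝ) (n : ℕ) (c : Fin n → ℝ) (z : Fin n → K)
    (h : ∀ F : C(K, ℝ), l.sum (fun x a => a * F (e x)) = ∑ i, c i * F (z i)) :
    (∀ x ∈ l.support, ∃ i, z i = e x) ∧ l.support.card ≤ n ∧
      ∀ x, |l x| ≤ ∑ i, |c i| := by
  classical
  have key : ∀ x ∈ l.support, l x = ∑ i, if z i = e x then c i else 0 := by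
    intro x hx
    let S : Set K := (e '' ((l.support.erase x : Finset X) : Set X)) ∪
      ((Finset.univ.image z).erase (e x) : Finset K)
    have hS : IsClosed S := by
      apply IsClosed.union
      · exact ((Finset.finite_toSet _).image e).isClosed
      · exact (Finset.finite_toSet _).isClosed
    have hxS : e x ∉ S := by
      rintro (⟨x', hx', hee⟩ | h)
      · have := he hee
        subst this
        simp at hx'
      · simp at h
    obtain ⟨F, hF0, hF1, _⟩ := exists_continuous_zero_one_of_isClosed hS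
      (isClosed_singleton (x := e x)) (by
        rw [Set.disjoint_singleton_right]; exact hxS)
    have h1 := h F
    have h2 : l.sum (fun x a => a * F (e x)) = l x := by
      rw [Finsupp.sum, Finset.sum_eq_single x]
      · have : F (e x) = 1 := hF1 rfl
        rw [this, mul_one]
      · intro x' hx' hne
        have : F (e x') = 0 := hF0 (Or.inl ⟨x', by simp [hne, Finsupp.mem_support_iff.1 hx'], rfl⟩)
        rw [this, mul_zero]
      · intro hx'
        exact absurd hx hx'
    rw [h2] at h1
    rw [h1]
    refine Finset.sum_congr rfl fun i _ => ?_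
    by_cases hi : z i = e x
    · have : F (z i) = 1 := by rw [hi]; exact hF1 rfl
      rw [this, if_pos hi, mul_one]
    · have : F (z i) = 0 := hF0 (Or.inr (by simp [hi]))
      rw [this, if_neg hi, mul_zero]
  have hex : ∀ x ∈ l.support, ∃ i, z i = e x := by
    intro x hx
    by_contra hno
    push Not at hno
    have h1 := key x hx
    have h2 : ∑ i, (if z i = e x then c i else 0) = 0 :=
      Finset.sum_eq_zero fun i _ => if_neg (hno i)
    rw [h2] at h1
    exact Finsupp.mem_support_iff.1 hx h1
  refine ⟨hex, ?_, ?_⟩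
  · choose idx hidx using hex
    let g : l.support → Fin n := fun x => idx x.1 x.2
    have hinj : Function.Injective g := by
      intro x x' hxx
      have h1 := hidx x.1 x.2
      have h2 := hidx x'.1 x'.2
      have hxx' : idx x.1 x.2 = idx x'.1 x'.2 := hxx
      rw [hxx'] at h1
      exact Subtype.ext (he (h1.symm.trans h2))
    have := Fintype.card_le_of_injective g hinj
    simpa using this
  · intro x
    by_cases hx : x ∈ l.support
    · rw [key x hx]
      refine (Finset.abs_sum_le_sum_abs _ _).trans (Finset.sum_le_sum fun i _ => ?_)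
      split_ifs
      · exact le_rfl
      · simp
    · rw [Finsupp.notMem_support_iff.1 hx]
      simp only [abs_zero]
      exact Finset.sum_nonneg fun i _ => abs_nonneg _

/-- The key convergence lemma. -/
lemma key_convergence [T35Space Y] {e : X → K} (he : IsInducing e) [CompactSpace K]
    (T : C(X, ℝ) ≃ₗ[ℝ] C(Y, ℝ))
    (hT2 : @Continuous C(Y, ℝ) (X → ℝ)
            (TopologicalSpace.induced (fun g : C(Y, ℝ) => (g : Y → ℝ))
              (inferInstance : TopologicalSpace (Y → ℝ)))
            (inferInstance : TopologicalSpace (X → ℝ))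
            (fun g => ((T.symm g : C(X, ℝ)) : X → ℝ)))
    (lam : Y → (X →₀ ℝ)) (hlam : ∀ f y, T f y = (lam y).sum (fun x c => c * f x))
    (u : Ultrafilter Y) (n0 : ℕ) (M : ℝ)
    (hcard : ∀ᶠ y in (u : Filter Y), (lam y).support.card ≤ n0)
    (hM : ∀ᶠ y in (u : Filter Y), ∀ x, |lam y x| ≤ M)
    (B : ℕ → Set K) (hB : ∀ k, IsClosed (B k)) (hBX : ⋂ k, B k ⊆ Set.range e)
    (hs : ∀ k, ∀ᶠ y in (u : Filter Y), ∀ x ∈ (lam y).support, e x ∈ B k) :
    ∃ y0, (u : Filter Y) ≤ 𝓝 y0 := by
  classical
  -- `X` is nonempty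
  obtain ⟨y1⟩ : Nonempty Y := u.neBot.nonempty
  have hX : Nonempty X := by
    by_contra hX
    rw [not_nonempty_iff] at hX
    have h1 : T (T.symm 1) y1 = 0 := by
      rw [hlam]
      rw [Finsupp.sum]
      apply Finset.sum_eq_zero
      intro x
      exact (hX.false x).elim
    rw [LinearEquiv.apply_symm_apply] at h1
    simp at h1
  -- constant cardinality
  obtain ⟨n, hn⟩ : ∃ n, ∀ᶠ y in (u : Filter Y), (lam y).support.card = n := by
    let g : Y → Fin (n0 + 1) := fun y => ⟨min (lam y).support.card n0, by omega⟩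
    obtain ⟨a, ha⟩ := (Ultrafilter.map g u).eq_pure_of_finite
    have h1 : ∀ᶠ y in (u : Filter Y), g y = a := by
      have : {a} ∈ (Ultrafilter.map g u : Filter (Fin (n0 + 1))) := by
        rw [ha]; simp
      exact this
    refine ⟨a, ?_⟩
    filter_upwards [h1, hcard] with y h2 h3
    rw [← h2]
    simp [g, h3]
  -- enumeration of the supports
  have henum : ∀ y, ∃ p : Fin n → X, (lam y).support.card = n →
      (∀ i, p i ∈ (lam y).support) ∧
        ∀ f : C(X, ℝ), (lam y).sum (fun x c => c * f x) = ∑ i, lam y (p i) * f (p i) := by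
    intro y
    by_cases h : (lam y).support.card = n
    · let E := (lam y).support.equivFinOfCardEq h
      refine ⟨fun i => (E.symm i : X), fun _ => ⟨fun i => (E.symm i).2, fun f => ?_⟩⟩
      rw [Finsupp.sum, ← Finset.sum_coe_sort]
      exact (Equiv.sum_comp E.symm (fun x : (lam y).support => lam y x * f x)).symm
    · exact ⟨fun _ => Classical.arbitrary X, fun h' => absurd h' h⟩
  choose p hp using henum
  -- the limit
  let Φ : Y → (Fin n → ℝ) × (Fin n → K) := fun y => (fun i => lam y (p y i), fun i => e (p y i))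
  have hcomp : IsCompact ((Set.pi Set.univ (fun _ : Fin n => Set.Icc (-M) M)) ×ˢ
      (Set.univ : Set (Fin n → K))) :=
    (isCompact_univ_pi fun _ => isCompact_Icc).prod isCompact_univ
  have hmem : (Set.pi Set.univ (fun _ : Fin n => Set.Icc (-M) M)) ×ˢ
      (Set.univ : Set (Fin n → K)) ∈ (Ultrafilter.map Φ u : Filter _) := by
    rw [Ultrafilter.coe_map, Filter.mem_map]
    filter_upwards [hM] with y hy
    refine ⟨fun i _ => abs_le.1 (hy _), trivial⟩
  obtain ⟨⟨c, z⟩, _, hlim⟩ := hcomp.ultrafilter_le_nhds' (Ultrafilter.map Φ u) hmem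
  have hlim' : Tendsto Φ u (𝓝 (c, z)) := hlim
  have hc : ∀ i, Tendsto (fun y => lam y (p y i)) u (𝓝 (c i)) := fun i =>
    ((continuous_apply i).comp continuous_fst).continuousAt.tendsto.comp hlim'
  have hz : ∀ i, Tendsto (fun y => e (p y i)) u (𝓝 (z i)) := fun i =>
    ((continuous_apply i).comp continuous_snd).continuousAt.tendsto.comp hlim'
  have hzB : ∀ i, z i ∈ ⋂ k, B k := by
    intro i
    rw [mem_iInter]
    intro k
    apply (hB k).mem_of_tendsto (hz i)
    filter_upwards [hs k, hn] with y h1 h2
    exact h1 _ ((hp y h2).1 i)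
  have hzX : ∀ i, ∃ x, e x = z i := fun i => hBX (hzB i)
  choose x hx using hzX
  have hpx : ∀ i, Tendsto (fun y => p y i) u (𝓝 (x i)) := by
    intro i
    rw [he.tendsto_nhds_iff, hx i]
    exact hz i
  let W : C(Y, ℝ) → ℝ := fun h => ∑ i, c i * (T.symm h) (x i)
  have hW : ∀ h : C(Y, ℝ), Tendsto (fun y => h y) u (𝓝 (W h)) := by
    intro h
    have h1 : Tendsto (fun y => ∑ i, lam y (p y i) * (T.symm h) (p y i)) u (𝓝 (W h)) := by
      apply tendsto_finsetSum
      intro i _
      exact (hc i).mul (((T.symm h).continuous.tendsto _).comp (hpx i))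
    apply h1.congr'
    filter_upwards [hn] with y hy
    rw [← (hp y hy).2 (T.symm h), ← hlam, LinearEquiv.apply_symm_apply]
  have hfin : ∃ J : Finset Y, ∀ h : C(Y, ℝ), (∀ y ∈ J, h y = 0) → W h = 0 := by
    have h1 := fun i => exists_finset_of_continuous T.symm.toLinearMap hT2 (x i)
    choose A hA using h1
    refine ⟨Finset.univ.biUnion A, fun h hh => ?_⟩
    apply Finset.sum_eq_zero
    intro i _
    have : (T.symm h) (x i) = 0 := hA i h (fun y hy => hh y (Finset.mem_biUnion.2 ⟨i, Finset.mem_univ i, hy⟩))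
    rw [this, mul_zero]
  obtain ⟨J, hJ⟩ := hfin
  by_contra hcon
  push Not at hcon
  have hg : ∀ j : Y, ∃ g : C(Y, ℝ), g j = 0 ∧ ∀ᶠ y in (u : Filter Y), g y = 1 := by
    intro j
    have h1 := hcon j
    rw [Filter.not_le] at h1
    obtain ⟨O, hO, hOu⟩ := h1
    obtain ⟨O', hO'O, hO', hjO'⟩ := mem_nhds_iff.1 hO
    obtain ⟨g, hgc, hg0, hg1⟩ := CompletelyRegularSpace.completely_regular_isOpen j O' hO' hjO'
    refine ⟨⟨fun y => (g y : ℝ), continuous_subtype_val.comp hgc⟩, by simp [hg0], ?_⟩
    have h2 : O'ᶜ ∈ (u : Filter Y) := by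
      rw [Ultrafilter.mem_coe, Ultrafilter.compl_mem_iff_notMem]
      intro h
      exact hOu (Filter.mem_of_superset h hO'O)
    filter_upwards [h2] with y hy
    have : g y = 1 := hg1 hy
    simp [this]
  choose g hg0 hg1 using hg
  let P : C(Y, ℝ) := ∏ j ∈ J, g j
  have hPval : ∀ y, P y = ∏ j ∈ J, g j y := by
    intro y
    simp only [P, ContinuousMap.coe_prod, Finset.prod_apply]
  have hPJ : W P = 0 := by
    apply hJ
    intro j hj
    rw [hPval]
    exact Finset.prod_eq_zero hj (hg0 j)
  have h1 := hW P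
  rw [hPJ] at h1
  have h2 : ∀ᶠ y in (u : Filter Y), P y = 1 := by
    have : ∀ᶠ y in (u : Filter Y), ∀ j ∈ J, g j y = 1 := by
      rw [Filter.eventually_all_finset]
      exact fun j _ => hg1 j
    filter_upwards [this] with y hy
    rw [hPval]
    exact Finset.prod_eq_one hy
  have h3 : Tendsto (fun y => P y) u (𝓝 1) := by
    apply tendsto_const_nhds.congr'
    filter_upwards [h2] with y hy
    exact hy.symm
  exact zero_ne_one (tendsto_nhds_unique h1 h3)

/-- In a normal space, closures in the Stone-Cech compactification commute with finite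
intersections of closed sets. -/
lemma closure_inter [T35Space Y] [NormalSpace Y] (z : StoneCech Y) (C1 C2 : Set Y)
    (hC1 : IsClosed C1) (hC2 : IsClosed C2) (h1 : z ∈ closure (stoneCechUnit '' C1))
    (h2 : z ∈ closure (stoneCechUnit '' C2)) : z ∈ closure (stoneCechUnit '' (C1 ∩ C2)) := by
  by_contra hcon
  have hO : (closure (stoneCechUnit '' (C1 ∩ C2)))ᶜ ∈ 𝓝 z := isClosed_closure.isOpen_compl.mem_nhds hcon
  obtain ⟨N, hN, hNc, hNO⟩ := exists_mem_nhds_isClosed_subset hO
  have hNc' : IsClosed (stoneCechUnit ⁻¹' N : Set Y) := hNc.preimage continuous_stoneCechUnit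
  have hdisj : Disjoint (C1 ∩ stoneCechUnit ⁻¹' N) (C2 ∩ stoneCechUnit ⁻¹' N) := by
    rw [Set.disjoint_left]
    rintro y ⟨hy1, hyN⟩ ⟨hy2, _⟩
    exact hNO hyN (subset_closure ⟨y, ⟨hy1, hy2⟩, rfl⟩)
  obtain ⟨h, hh0, hh1, hh⟩ := exists_continuous_zero_one_of_isClosed (hC1.inter hNc')
    (hC2.inter hNc') hdisj
  let h' : Y → unitInterval := fun y => ⟨h y, hh y⟩
  have hh' : Continuous h' := h.continuous.subtype_mk _
  let H := stoneCechExtend hh'
  have hH : Continuous H := continuous_stoneCechExtend hh'
  have hcl : ∀ C : Set Y, z ∈ closure (stoneCechUnit '' C) →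
      z ∈ closure (stoneCechUnit '' (C ∩ stoneCechUnit ⁻¹' N)) := by
    intro C hz
    rw [mem_closure_iff_nhds] at hz ⊢
    intro V hV
    obtain ⟨_, ⟨hw1, hw2⟩, ⟨y, hy, rfl⟩⟩ := hz (V ∩ N) (Filter.inter_mem hV hN)
    exact ⟨_, hw1, ⟨y, ⟨hy, hw2⟩, rfl⟩⟩
  have e0 : H z = 0 := by
    have hcl0 : IsClosed {w | H w = 0} := isClosed_eq hH continuous_const
    have : closure (stoneCechUnit '' (C1 ∩ stoneCechUnit ⁻¹' N)) ⊆ {w | H w = 0} := by
      apply closure_minimal _ hcl0
      rintro _ ⟨y, hy, rfl⟩
      have h3 : H (stoneCechUnit y) = h' y := stoneCechExtend_stoneCechUnit hh' y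
      show H (stoneCechUnit y) = 0
      rw [h3]
      exact Subtype.ext (hh0 hy)
    exact this (hcl C1 h1)
  have e1 : H z = 1 := by
    have hcl0 : IsClosed {w | H w = 1} := isClosed_eq hH continuous_const
    have : closure (stoneCechUnit '' (C2 ∩ stoneCechUnit ⁻¹' N)) ⊆ {w | H w = 1} := by
      apply closure_minimal _ hcl0
      rintro _ ⟨y, hy, rfl⟩
      have h3 : H (stoneCechUnit y) = h' y := stoneCechExtend_stoneCechUnit hh' y
      show H (stoneCechUnit y) = 1
      rw [h3]
      exact Subtype.ext (hh1 hy)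
    exact this (hcl C2 h2)
  rw [e0] at e1
  exact zero_ne_one e1

/-- Abstract form of the conclusion: a complete family of countable closed covers gives the
required representation in the Stone-Cech compactification. -/
lemma of_covers [T35Space Y] (C : ℕ → ℕ → Set Y) (hC : ∀ k t, IsClosed (C k t))
    (hcov : ∀ k y, ∃ t, y ∈ C k t)
    (hconv : ∀ (u : Ultrafilter Y) (t : ℕ → ℕ), (∀ k, C k (t k) ∈ (u : Filter Y)) →
      ∃ y0, (u : Filter Y) ≤ 𝓝 y0) :
    ∃ (K : Type) (_ : TopologicalSpace K), CompactSpace K ∧ T2Space K ∧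
      ∃ e : Y → K, Topology.IsEmbedding e ∧
        ∃ A : ℕ → ℕ → Set K, (∀ n m, IsCompact (A n m)) ∧ Set.range e = ⋂ n, ⋃ m, A n m := by
  -- `Y` is Lindelöf
  have hLind : LindelofSpace Y := by
    refine ⟨?_⟩
    intro f _ _ _
    choose t ht using fun y k => hcov k y
    obtain ⟨φ, _, hφ⟩ := (isLindelof_univ (X := ℕ → ℕ)) (f := Filter.map t f) (by simp)
    have hne : (Filter.comap t (𝓝 φ) ⊓ f).NeBot := by
      rw [← Filter.map_neBot_iff t, Filter.push_pull']
      exact hφ
    let u := Ultrafilter.of (Filter.comap t (𝓝 φ) ⊓ f)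
    have hu : (u : Filter Y) ≤ Filter.comap t (𝓝 φ) ⊓ f := Ultrafilter.of_le _
    obtain ⟨y0, hy0⟩ := hconv u φ (by
      intro k
      have hopen : IsOpen {ψ : ℕ → ℕ | ψ k = φ k} := by
        have : {ψ : ℕ → ℕ | ψ k = φ k} = (fun ψ : ℕ → ℕ => ψ k) ⁻¹' {φ k} := rfl
        rw [this]
        exact (isOpen_discrete _).preimage (continuous_apply k)
      have hmem : t ⁻¹' {ψ : ℕ → ℕ | ψ k = φ k} ∈ (u : Filter Y) :=
        hu (Filter.mem_inf_of_left (Filter.preimage_mem_comap (hopen.mem_nhds rfl)))
      filter_upwards [hmem] with y hy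
      have h1 := ht y k
      have h2 : t y k = φ k := hy
      rwa [h2] at h1)
    refine ⟨y0, Set.mem_univ _, ?_⟩
    exact Filter.NeBot.mono u.neBot (le_inf hy0 (hu.trans inf_le_right))
  have hNorm : NormalSpace Y := inferInstance
  refine ⟨StoneCech Y, inferInstance, inferInstance, inferInstance, stoneCechUnit,
    ⟨isInducing_stoneCechUnit, ?_⟩, fun k t => closure (stoneCechUnit '' C k t),
    fun k t => isClosed_closure.isCompact, ?_⟩
  · exact (isInducing_stoneCechUnit (X := Y)).injective
  · apply Set.Subset.antisymm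
    · rintro _ ⟨y, rfl⟩
      rw [Set.mem_iInter]
      intro k
      obtain ⟨t, ht⟩ := hcov k y
      exact Set.mem_iUnion.2 ⟨t, subset_closure ⟨y, ht, rfl⟩⟩
    · intro z hz
      have hz' : ∀ k, ∃ t, z ∈ closure (stoneCechUnit '' C k t) := fun k =>
        Set.mem_iUnion.1 (Set.mem_iInter.1 hz k)
      choose t ht using hz'
      -- finite intersections
      let E : ℕ → Set Y := fun n => ⋂ k ∈ Set.Iic n, C k (t k)
      have hEc : ∀ n, IsClosed (E n) := fun n => isClosed_biInter fun k _ => hC k (t k)
      have hE : ∀ n, z ∈ closure (stoneCechUnit '' E n) := by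
        intro n
        induction n with
        | zero =>
          have : E 0 = C 0 (t 0) := by
            ext y; simp [E]
          rw [this]
          exact ht 0
        | succ n ih =>
          have : E (n + 1) = E n ∩ C (n + 1) (t (n + 1)) := by
            ext y
            simp only [E, Set.mem_iInter, Set.mem_Iic, Set.mem_inter_iff]
            constructor
            · intro h
              exact ⟨fun k hk => h k (by omega), h (n + 1) le_rfl⟩
            · rintro ⟨h1, h2⟩ k hk
              rcases Nat.lt_or_ge n k with h | h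
              · obtain rfl : k = n + 1 := by omega
                exact h2
              · exact h1 k h
          rw [this]
          exact closure_inter z _ _ (hEc n) (hC _ _) ih (ht (n + 1))
      have hEanti : ∀ n m, n ≤ m → E m ⊆ E n := by
        intro n m hnm y hy
        simp only [E, Set.mem_iInter, Set.mem_Iic] at hy ⊢
        exact fun k hk => hy k (hk.trans hnm)
      have hne : (⨅ n, (Filter.comap stoneCechUnit (𝓝 z) ⊓ 𝓟 (E n))).NeBot := by
        have hYne : Nonempty Y := by
          have h1 := hE 0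
          by_contra hY
          rw [not_nonempty_iff] at hY
          have : stoneCechUnit '' E 0 = ∅ := by
            rw [Set.image_eq_empty]
            exact Set.eq_empty_of_isEmpty _
          rw [this, closure_empty] at h1
          exact h1
        apply Filter.iInf_neBot_of_directed
        · intro n m
          refine ⟨max n m, ?_, ?_⟩
          · exact inf_le_inf_left _ (Filter.principal_mono.2 (hEanti _ _ (le_max_left _ _)))
          · exact inf_le_inf_left _ (Filter.principal_mono.2 (hEanti _ _ (le_max_right _ _)))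
        · intro n
          rw [Filter.inf_principal_neBot_iff]
          rintro U ⟨V, hV, hVU⟩
          obtain ⟨_, hw, ⟨y, hy, rfl⟩⟩ := mem_closure_iff_nhds.1 (hE n) V hV
          exact ⟨y, hVU hw, hy⟩
      let u := Ultrafilter.of (⨅ n, (Filter.comap stoneCechUnit (𝓝 z) ⊓ 𝓟 (E n)))
      have hu : (u : Filter Y) ≤ ⨅ n, (Filter.comap stoneCechUnit (𝓝 z) ⊓ 𝓟 (E n)) :=
        Ultrafilter.of_le _
      obtain ⟨y0, hy0⟩ := hconv u t (by
        intro k
        have h1 : E k ∈ (u : Filter Y) :=
          hu (Filter.mem_iInf_of_mem k (Filter.mem_inf_of_right (Filter.mem_principal_self _)))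
        exact Filter.mem_of_superset h1 (by
          intro y hy
          simp only [E, Set.mem_iInter, Set.mem_Iic] at hy
          exact hy k le_rfl))
      have h1 : Tendsto (stoneCechUnit : Y → StoneCech Y) u (𝓝 z) := by
        rw [Filter.tendsto_iff_comap]
        exact hu.trans ((iInf_le _ 0).trans inf_le_left)
      have h2 : Tendsto (stoneCechUnit : Y → StoneCech Y) u (𝓝 (stoneCechUnit y0)) :=
        (continuous_stoneCechUnit.tendsto y0).mono_left hy0
      exact ⟨y0, tendsto_nhds_unique h2 h1⟩

end Pool.Agent.Helper102.KsdL
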