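import Mathlib

set_option autoImplicit false

namespace Pool.Agent.Helper102.CantorBig

open Set Cardinal Topology

/-- the Cantor space -/
abbrev C : Type := ℕ → Bool

/-- agreement on the first `k` coordinates -/
def agr (k : ℕ) (x y : C) : Prop := ∀ i < k, x i = y i

theorem agr_refl (k : ℕ) (x : C) : agr k x x := fun _ _ => rfl
theorem agr_symm {k : ℕ} {x y : C} (h : agr k x y) : agr k y x := fun i hi => (h i hi).symm
theorem agr_trans {k : ℕ} {x y z : C} (h : agr k x y) (h' : agr k y z) : agr k x z :=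
  fun i hi => (h i hi).trans (h' i hi)
theorem agr_mono {k k' : ℕ} (hk : k ≤ k') {x y : C} (h : agr k' x y) : agr k x y :=
  fun i hi => h i (lt_of_lt_of_le hi hk)

theorem exists_not_agr {x y : C} (h : x ≠ y) : ∃ k, ∀ k' ≥ k, ¬ agr k' x y := by
  obtain ⟨i, hi⟩ := Function.ne_iff.1 h
  exact ⟨i+1, fun k' hk hag => hi (hag i (by omega))⟩

theorem isOpen_agr (k : ℕ) (x : C) : IsOpen {y | agr k x y} := by
  have : {y : C | agr k x y} = ⋂ i ∈ Finset.range k, {y | x i = y i} := by
    ext y; simp [agr]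
  rw [this]
  refine isOpen_biInter_finset fun i _ => ?_
  exact (isOpen_discrete {b : Bool | x i = b}).preimage (continuous_apply i)

theorem isClosed_agr (k : ℕ) (x : C) : IsClosed {y | agr k x y} := by
  have : {y : C | agr k x y} = ⋂ i, ⋂ (_ : i < k), {y | x i = y i} := by
    ext y; simp [agr]
  rw [this]
  refine isClosed_iInter fun i => isClosed_iInter fun _ => ?_
  exact (isClosed_discrete {b : Bool | x i = b}).preimage (continuous_apply i)

theorem nhds_agr (x : C) : (𝓝 x).HasBasis (fun _ : ℕ => True) (fun k => {y | agr k x y}) := by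
  constructor
  intro t
  constructor
  · intro ht
    rw [nhds_pi, Filter.mem_pi] at ht
    obtain ⟨S, hS, s, hs, hst⟩ := ht
    obtain ⟨k, hk⟩ := hS.bddAbove
    refine ⟨k+1, trivial, fun y hy => hst ?_⟩
    intro i hi
    have : x i = y i := hy i (Nat.lt_succ_of_le (hk hi))
    rw [← this]
    exact mem_of_mem_nhds (hs i)
  · rintro ⟨k, -, hk⟩
    exact Filter.mem_of_superset ((isOpen_agr k x).mem_nhds (agr_refl k x)) hk

theorem mem_closure_agr {x : C} {S : Set C} : x ∈ closure S ↔ ∀ k, ∃ y ∈ S, agr k x y := by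
  rw [mem_closure_iff_nhds_basis (nhds_agr x)]
  simp

theorem nhds_agr2 (p : C × C) : (𝓝 p).HasBasis (fun _ : ℕ => True)
    (fun k => {q | agr k p.1 q.1 ∧ agr k p.2 q.2}) := by
  constructor
  intro t
  constructor
  · intro ht
    have := ((nhds_agr p.1).prod_nhds (nhds_agr p.2)).mem_iff (t := t)
    rw [Prod.mk.eta] at this
    obtain ⟨⟨k, k'⟩, -, hk⟩ := this.1 ht
    refine ⟨max k k', trivial, fun q hq => hk ⟨?_, ?_⟩⟩
    · exact agr_mono (le_max_left _ _) hq.1
    · exact agr_mono (le_max_right _ _) hq.2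
  · rintro ⟨k, -, hk⟩
    refine Filter.mem_of_superset ?_ hk
    have : IsOpen {q : C × C | agr k p.1 q.1 ∧ agr k p.2 q.2} :=
      ((isOpen_agr k p.1).preimage continuous_fst).inter ((isOpen_agr k p.2).preimage continuous_snd)
    exact this.mem_nhds ⟨agr_refl _ _, agr_refl _ _⟩

theorem mem_closure_agr2 {p : C × C} {S : Set (C × C)} :
    p ∈ closure S ↔ ∀ k, ∃ q ∈ S, agr k p.1 q.1 ∧ agr k p.2 q.2 := by
  rw [mem_closure_iff_nhds_basis (nhds_agr2 p)]
  simp

/-- box around `p` -/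
def box (p : C × C) (k : ℕ) : Set (C × C) := {q | agr k p.1 q.1 ∧ agr k p.2 q.2}

theorem isOpen_box (p : C × C) (k : ℕ) : IsOpen (box p k) :=
  ((isOpen_agr k p.1).preimage continuous_fst).inter ((isOpen_agr k p.2).preimage continuous_snd)

/-- a part of `F` is small if it is covered by the diagonal and countably many lines -/
def Small (F W : Set (C × C)) : Prop :=
  ∃ K : Set C, K.Countable ∧ ∀ p ∈ F, p ∈ W → p.1 = p.2 ∨ p.1 ∈ K ∨ p.2 ∈ K

theorem polishC : PolishSpace C := by
  letI := TopologicalSpace.metrizableSpaceMetric (ℕ → Bool)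
  have : TopologicalSpace.IsCompletelyMetrizableSpace (ℕ → Bool) := inferInstance
  infer_instance

theorem one_dim (F : Set C) (hF : IsClosed F) (h : ¬ F.Countable) (Z : Set C) (hZ : #Z < 𝔠) :
    ∃ x ∈ F, x ∉ Z := by
  have := polishC
  obtain ⟨f, hf, -, hinj⟩ := hF.exists_nat_bool_injection_of_not_countable h
  by_contra hcon
  push Not at hcon
  have h1 : #(ℕ → Bool) ≤ #Z := by
    refine mk_le_of_injective (f := fun b : ℕ → Bool => (⟨f b, hcon _ (hf ⟨b, rfl⟩)⟩ : Z)) ?_
    intro a b hab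
    exact hinj (congrArg Subtype.val hab)
  have h2 : #(ℕ → Bool) = 𝔠 := by simp
  rw [h2] at h1
  exact absurd h1 (not_le.2 hZ)

section two

variable {F : Set (C × C)}

/-- the perfect part -/
def core (F : Set (C × C)) : Set (C × C) := {p ∈ F | ∀ k, ¬ Small F (box p k)}

theorem small_compl_core : Small F (core F)ᶜ := by
  classical
  let S : Set (Set (C × C)) := {W | ∃ p k, W = box p k ∧ Small F (box p k)}
  obtain ⟨T, hTc, hTS, hTU⟩ := TopologicalSpace.isOpen_sUnion_countable S (by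
    rintro W ⟨p, k, rfl, -⟩
    exact isOpen_box p k)
  have hsm : ∀ W ∈ T, Small F W := by
    intro W hW
    obtain ⟨p, k, rfl, h⟩ := hTS hW
    exact h
  choose! K hK hK' using hsm
  refine ⟨⋃ W ∈ T, K W, hTc.biUnion hK, ?_⟩
  intro p hp hpc
  have : ∃ k, Small F (box p k) := by
    by_contra hcon
    push Not at hcon
    exact hpc ⟨hp, hcon⟩
  obtain ⟨k, hk⟩ := this
  have hpU : p ∈ ⋃₀ S := ⟨box p k, ⟨p, k, rfl, hk⟩, ⟨agr_refl _ _, agr_refl _ _⟩⟩
  rw [← hTU] at hpU
  obtain ⟨W, hW, hpW⟩ := hpU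
  rcases hK' W hW p hp hpW with h | h | h
  · exact Or.inl h
  · exact Or.inr (Or.inl (mem_biUnion hW h))
  · exact Or.inr (Or.inr (mem_biUnion hW h))

theorem not_small_core {p : C × C} (hp : p ∈ core F) (k : ℕ) (K : Set C) (hK : K.Countable) :
    ∃ q ∈ core F, q ∈ box p k ∧ q.1 ≠ q.2 ∧ q.1 ∉ K ∧ q.2 ∉ K := by
  by_contra hcon
  push Not at hcon
  obtain ⟨K', hK', h'⟩ := small_compl_core (F := F)
  refine hp.2 k ⟨K ∪ K', hK.union hK', ?_⟩
  intro q hq hqb
  by_cases hqc : q ∈ core F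
  · by_cases h1 : q.1 = q.2
    · exact Or.inl h1
    by_cases h2 : q.1 ∈ K
    · exact Or.inr (Or.inl (Or.inl h2))
    · exact Or.inr (Or.inr (Or.inl (hcon q hqc hqb h1 h2)))
  · rcases h' q hq hqc with h | h | h
    · exact Or.inl h
    · exact Or.inr (Or.inl (Or.inr h))
    · exact Or.inr (Or.inr (Or.inr h))

theorem split (s : core F × ℕ) : ∃ t : Bool → core F × ℕ,
    (∀ b, s.2 < (t b).2 ∧ (t b).1.1 ∈ box s.1.1 s.2) ∧ (t true).2 = (t false).2 ∧
    ¬ agr (t true).2 (t true).1.1.1 (t false).1.1.1 ∧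
    ¬ agr (t true).2 (t true).1.1.2 (t false).1.1.2 := by
  obtain ⟨q0, hq0, hb0, -, -, -⟩ := not_small_core s.1.2 s.2 ∅ countable_empty
  obtain ⟨q1, hq1, hb1, -, hn1, hn2⟩ := not_small_core s.1.2 s.2 {q0.1, q0.2}
    ((countable_singleton _).insert _)
  simp only [mem_insert_iff, mem_singleton_iff, not_or] at hn1 hn2
  obtain ⟨k1, hk1⟩ := exists_not_agr hn1.1
  obtain ⟨k2, hk2⟩ := exists_not_agr hn2.2
  let k' := max (s.2 + 1) (max k1 k2)
  refine ⟨fun b => if b then (⟨q1, hq1⟩, k') else (⟨q0, hq0⟩, k'), ?_, ?_, ?_, ?_⟩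
  · intro b
    have hk : s.2 < k' := lt_of_lt_of_le (Nat.lt_succ_self _) (le_max_left _ _)
    cases b
    · exact ⟨hk, hb0⟩
    · exact ⟨hk, hb1⟩
  · rfl
  · exact hk1 k' ((le_max_left _ _).trans (le_max_right _ _))
  · exact hk2 k' ((le_max_right _ _).trans (le_max_right _ _))

/-- chosen children -/
noncomputable def child (s : core F × ℕ) : Bool → core F × ℕ := Classical.choose (split s)

theorem child_lt (s : core F × ℕ) (b : Bool) : s.2 < (child s b).2 :=
  ((Classical.choose_spec (split s)).1 b).1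
theorem child_box (s : core F × ℕ) (b : Bool) : (child s b).1.1 ∈ box s.1.1 s.2 :=
  ((Classical.choose_spec (split s)).1 b).2
theorem child_eq (s : core F × ℕ) : (child s true).2 = (child s false).2 :=
  (Classical.choose_spec (split s)).2.1
theorem child_ne1 (s : core F × ℕ) :
    ¬ agr (child s true).2 (child s true).1.1.1 (child s false).1.1.1 :=
  (Classical.choose_spec (split s)).2.2.1
theorem child_ne2 (s : core F × ℕ) :
    ¬ agr (child s true).2 (child s true).1.1.2 (child s false).1.1.2 :=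
  (Classical.choose_spec (split s)).2.2.2

/-- the branch -/
noncomputable def br (s0 : core F × ℕ) (β : ℕ → Bool) : ℕ → core F × ℕ
  | 0 => s0
  | n+1 => child (br s0 β n) (β n)

variable (s0 : core F × ℕ)

theorem br_ge (β : ℕ → Bool) (n : ℕ) : n ≤ (br s0 β n).2 := by
  induction n with
  | zero => exact Nat.zero_le _
  | succ n ih => exact lt_of_le_of_lt ih (child_lt _ _)

theorem br_mono (β : ℕ → Bool) {n m : ℕ} (h : n ≤ m) : (br s0 β n).2 ≤ (br s0 β m).2 := by
  induction m, h using Nat.le_induction with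
  | base => exact le_rfl
  | succ m _ ih => exact ih.trans (child_lt _ _).le

theorem br_box (β : ℕ → Bool) {n m : ℕ} (h : n ≤ m) :
    (br s0 β m).1.1 ∈ box (br s0 β n).1.1 (br s0 β n).2 := by
  induction m, h using Nat.le_induction with
  | base => exact ⟨agr_refl _ _, agr_refl _ _⟩
  | succ m hm ih =>
      have h1 := child_box (br s0 β m) (β m)
      have h2 := br_mono s0 β hm
      exact ⟨agr_trans ih.1 (agr_mono h2 h1.1), agr_trans ih.2 (agr_mono h2 h1.2)⟩

theorem br_congr {β β' : ℕ → Bool} {n : ℕ} (h : ∀ i < n, β i = β' i) : br s0 β n = br s0 β' n := by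
  induction n with
  | zero => rfl
  | succ n ih =>
      change child (br s0 β n) (β n) = child (br s0 β' n) (β' n)
      rw [ih (fun i hi => h i (by omega)), h n (Nat.lt_succ_self n)]

/-- limit point of the branch -/
noncomputable def lim (β : ℕ → Bool) : C × C :=
  (fun i => (br s0 β (i+1)).1.1.1 i, fun i => (br s0 β (i+1)).1.1.2 i)

theorem lim_box (β : ℕ → Bool) (n : ℕ) : lim s0 β ∈ box (br s0 β n).1.1 (br s0 β n).2 := by
  constructor
  · intro i hi
    change _ = (br s0 β (i+1)).1.1.1 i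
    rcases le_total (i+1) n with h | h
    · exact ((br_box s0 β h).1 i (lt_of_lt_of_le (Nat.lt_succ_self i) (br_ge s0 β (i+1)))).symm
    · exact (br_box s0 β h).1 i hi
  · intro i hi
    change _ = (br s0 β (i+1)).1.1.2 i
    rcases le_total (i+1) n with h | h
    · exact ((br_box s0 β h).2 i (lt_of_lt_of_le (Nat.lt_succ_self i) (br_ge s0 β (i+1)))).symm
    · exact (br_box s0 β h).2 i hi

theorem lim_mem (hF : IsClosed F) (β : ℕ → Bool) : lim s0 β ∈ F := by
  refine hF.closure_eq.subset ?_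
  rw [mem_closure_agr2]
  intro k
  refine ⟨(br s0 β k).1.1, (br s0 β k).1.2.1, ?_, ?_⟩
  · exact agr_symm (agr_mono (br_ge s0 β k) (lim_box s0 β k).1)
  · exact agr_symm (agr_mono (br_ge s0 β k) (lim_box s0 β k).2)

theorem lim_ne {β β' : ℕ → Bool} (h : β ≠ β') :
    (lim s0 β).1 ≠ (lim s0 β').1 ∧ (lim s0 β).2 ≠ (lim s0 β').2 := by
  classical
  have hex : ∃ n, β n ≠ β' n := Function.ne_iff.1 h
  let n := Nat.find hex
  have hn : β n ≠ β' n := Nat.find_spec hex
  have hlt : ∀ i < n, β i = β' i := fun i hi => by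
    by_contra hcon
    exact Nat.find_min hex hi hcon
  have hs : br s0 β n = br s0 β' n := br_congr s0 hlt
  have key : ∀ γ γ' : ℕ → Bool, br s0 γ n = br s0 γ' n → γ n = true → γ' n = false →
      (lim s0 γ).1 ≠ (lim s0 γ').1 ∧ (lim s0 γ).2 ≠ (lim s0 γ').2 := by
    intro γ γ' hs h1 h2
    have e1 : br s0 γ (n+1) = child (br s0 γ n) true := by
      change child (br s0 γ n) (γ n) = _
      rw [h1]
    have e2 : br s0 γ' (n+1) = child (br s0 γ n) false := by
      change child (br s0 γ' n) (γ' n) = _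
      rw [h2, hs]
    have b1 := lim_box s0 γ (n+1)
    have b2 := lim_box s0 γ' (n+1)
    rw [e1] at b1
    rw [e2] at b2
    rw [← child_eq] at b2
    constructor
    · intro he
      apply child_ne1 (br s0 γ n)
      refine agr_trans b1.1 ?_
      rw [he]
      exact agr_symm b2.1
    · intro he
      apply child_ne2 (br s0 γ n)
      refine agr_trans b1.2 ?_
      rw [he]
      exact agr_symm b2.2
  rcases hb : β n with _ | _
  · rcases hb' : β' n with _ | _
    · exact absurd (hb.trans hb'.symm) hn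
    · have := key β' β hs.symm hb' hb
      exact ⟨this.1.symm, this.2.symm⟩
  · rcases hb' : β' n with _ | _
    · exact key β β' hs hb hb'
    · exact absurd (hb.trans hb'.symm) hn

end two

theorem two_dim (F : Set (C × C)) (hF : IsClosed F)
    (h : ¬ ∃ K : Set C, K.Countable ∧ ∀ p ∈ F, p.1 = p.2 ∨ p.1 ∈ K ∨ p.2 ∈ K)
    (Z : Set C) (hZ : #Z < 𝔠) : ∃ p ∈ F, p.1 ∉ Z ∧ p.2 ∉ Z ∧ p.1 ≠ p.2 := by
  classical
  have hne : ∃ p ∈ core F, p.1 ≠ p.2 := by
    by_contra hcon
    push Not at hcon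
    obtain ⟨K, hK, hK'⟩ := small_compl_core (F := F)
    refine h ⟨K, hK, fun p hp => ?_⟩
    by_cases hc : p ∈ core F
    · exact Or.inl (hcon p hc)
    · exact hK' p hp hc
  obtain ⟨p0, hp0, hne0⟩ := hne
  obtain ⟨k0, hk0⟩ := exists_not_agr hne0
  let s0 : core F × ℕ := (⟨p0, hp0⟩, k0)
  by_contra hcon
  push Not at hcon
  have hdiag : ∀ β, (lim s0 β).1 ≠ (lim s0 β).2 := by
    intro β he
    have hb := lim_box s0 β 0
    apply hk0 k0 le_rfl
    refine agr_trans hb.1 ?_
    rw [he]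
    exact agr_symm hb.2
  have hcov : (univ : Set (ℕ → Bool)) ⊆ {β | (lim s0 β).1 ∈ Z} ∪ {β | (lim s0 β).2 ∈ Z} := by
    intro β _
    by_cases h1 : (lim s0 β).1 ∈ Z
    · exact Or.inl h1
    by_cases h2 : (lim s0 β).2 ∈ Z
    · exact Or.inr h2
    exact absurd (hcon _ (lim_mem s0 hF β) h1 h2) (hdiag β)
  have hA : #{β : ℕ → Bool | (lim s0 β).1 ∈ Z} ≤ #Z := by
    refine mk_le_of_injective (f := fun b => (⟨(lim s0 b.1).1, b.2⟩ : Z)) ?_
    intro a b hab
    by_contra hne
    exact (lim_ne s0 (fun he => hne (Subtype.ext he))).1 (congrArg Subtype.val hab)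
  have hB : #{β : ℕ → Bool | (lim s0 β).2 ∈ Z} ≤ #Z := by
    refine mk_le_of_injective (f := fun b => (⟨(lim s0 b.1).2, b.2⟩ : Z)) ?_
    intro a b hab
    by_contra hne
    exact (lim_ne s0 (fun he => hne (Subtype.ext he))).2 (congrArg Subtype.val hab)
  have h1 : #(univ : Set (ℕ → Bool)) ≤ #Z + #Z :=
    (mk_le_mk_of_subset hcov).trans ((mk_union_le _ _).trans (add_le_add hA hB))
  have h2 : #(univ : Set (ℕ → Bool)) = 𝔠 := by simp
  rw [h2] at h1
  exact absurd h1 (not_le.2 (add_lt_of_lt aleph0_le_continuum hZ hZ))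

end Pool.Agent.Helper102.CantorBig
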