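import Mathlib

open Set Topology Cardinal

namespace Pool.Agent.Helper102.CorsonTools

universe u v

section Defs
variable {X : Type u} [TopologicalSpace X]

/-- `F` is point-countable on `Z`: each point of `Z` is a non-zero of only countably many
members of `F`. -/
def PCon (Z : Set X) (F : Set C(X, ℝ)) : Prop := ∀ x ∈ Z, {f | f ∈ F ∧ f x ≠ 0}.Countable

/-- `F` separates the points of `Z`. -/
def SepOn (Z : Set X) (F : Set C(X, ℝ)) : Prop :=
  ∀ x ∈ Z, ∀ y ∈ Z, (∀ f ∈ F, f x = f y) → x = y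

/-- the closed set `Z` is Corson, witnessed by functions defined on the whole space. -/
def CorsonOn (Z : Set X) : Prop := ∃ F : Set C(X, ℝ), PCon Z F ∧ SepOn Z F

/-- countable tightness. -/
def CTight (X : Type u) [TopologicalSpace X] : Prop :=
  ∀ B : Set X, ∀ x ∈ closure B, ∃ C ⊆ B, C.Countable ∧ x ∈ closure C

/-- every point of `Z` has an `M`-twin in the closure of `B`. -/
def Dn (Z B : Set X) (M : Set C(X, ℝ)) : Prop :=
  ∀ x ∈ Z, ∃ x' ∈ closure B, ∀ f ∈ M, f x' = f x

/-- good pairs -/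
def Good (B : Set X) (M : Set C(X, ℝ)) : Prop := Dn univ B M ∧ SepOn (closure B) M

end Defs

variable {X : Type u} [TopologicalSpace X]

lemma mk_finset_le (α : Type u) : #(Finset α) ≤ max #α ℵ₀ := by
  cases finite_or_infinite α with
  | inl h => 
    have : Finite (Finset α) := by
      have := Fintype.ofFinite α
      infer_instance
    exact (Cardinal.mk_le_aleph0 (α := Finset α)).trans (le_max_right _ _)
  | inr h =>
    rw [Cardinal.mk_finset_of_infinite]; exact le_max_left _ _

theorem lemA [CompactSpace X] (A : Set X) (M : Set C(X, ℝ)) :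
    ∃ C ⊆ A, #C ≤ max #M ℵ₀ ∧ Dn (closure A) C M := by
  classical
  let J := Finset (M × ℚ × ℚ)
  let U : J → Set X := fun j => {x | ∀ t ∈ j, ((t.2.1 : ℚ) : ℝ) < t.1.1 x ∧ t.1.1 x < ((t.2.2 : ℚ) : ℝ)}
  let P : J → Prop := fun j => (A ∩ U j).Nonempty
  let c : {j : J // P j} → X := fun j => j.2.some
  have hc : ∀ j : {j : J // P j}, c j ∈ A ∩ U j.1 := fun j => j.2.some_mem
  refine ⟨range c, ?_, ?_, ?_⟩
  · rintro _ ⟨j, rfl⟩; exact (hc j).1
  · calc #(range c) ≤ #{j : J // P j} := Cardinal.mk_range_le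
      _ ≤ #J := Cardinal.mk_subtype_le _
      _ ≤ max #(M × ℚ × ℚ) ℵ₀ := mk_finset_le _
      _ ≤ max #M ℵ₀ := by
        apply max_le _ (le_max_right _ _)
        have : #(M × ℚ × ℚ) = #M * ℵ₀ := by
          simp [Cardinal.mk_prod]
        rw [this]
        calc #M * ℵ₀ ≤ max #M ℵ₀ * max #M ℵ₀ := 
              mul_le_mul' (le_max_left _ _) (le_max_right _ _)
          _ = max #M ℵ₀ := Cardinal.mul_eq_self (le_max_right _ _)
  · intro x hx
    have hUopen : ∀ j, IsOpen (U j) := by
      intro j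
      have : U j = ⋂ t ∈ j, {x | ((t.2.1 : ℚ) : ℝ) < t.1.1 x ∧ t.1.1 x < ((t.2.2 : ℚ) : ℝ)} := by
        ext y; simp [U]
      rw [this]
      apply isOpen_biInter_finset
      intro t _
      exact (isOpen_lt continuous_const t.1.1.continuous).inter
        (isOpen_lt t.1.1.continuous continuous_const)
    let Jx := {j : J // x ∈ U j}
    have hP : ∀ j : Jx, P j.1 := by
      intro j
      have := mem_closure_iff.1 hx (U j.1) (hUopen _) j.2
      rwa [inter_comm] at this
    let T : Jx → Set X := fun j => closure (range c) ∩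
      {y | ∀ t ∈ j.1, ((t.2.1 : ℚ) : ℝ) ≤ t.1.1 y ∧ t.1.1 y ≤ ((t.2.2 : ℚ) : ℝ)}
    have hTclosed : ∀ j, IsClosed (T j) := by
      intro j
      apply isClosed_closure.inter
      have : {y | ∀ t ∈ j.1, ((t.2.1 : ℚ) : ℝ) ≤ t.1.1 y ∧ t.1.1 y ≤ ((t.2.2 : ℚ) : ℝ)} =
        ⋂ t ∈ j.1, {y | ((t.2.1 : ℚ) : ℝ) ≤ t.1.1 y ∧ t.1.1 y ≤ ((t.2.2 : ℚ) : ℝ)} := by
        ext y; simp
      rw [this]
      apply isClosed_biInter
      intro t _
      exact (isClosed_le continuous_const t.1.1.continuous).inter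
        (isClosed_le t.1.1.continuous continuous_const)
    have hne : (⋂ j, T j).Nonempty := by
      have : Nonempty Jx := ⟨⟨∅, fun t ht => absurd ht (Finset.notMem_empty t)⟩⟩
      apply IsCompact.nonempty_iInter_of_directed_nonempty_isCompact_isClosed
      · intro j j'
        refine ⟨⟨j.1 ∪ j'.1, ?_⟩, ?_, ?_⟩
        · intro t ht
          rcases Finset.mem_union.1 ht with h | h
          · exact j.2 t h
          · exact j'.2 t h
        · intro y hy
          exact ⟨hy.1, fun t ht => hy.2 t (Finset.mem_union_left _ ht)⟩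
        · intro y hy
          exact ⟨hy.1, fun t ht => hy.2 t (Finset.mem_union_right _ ht)⟩
      · intro j
        refine ⟨c ⟨j.1, hP j⟩, subset_closure ⟨_, rfl⟩, ?_⟩
        intro t ht
        have := (hc ⟨j.1, hP j⟩).2 t ht
        exact ⟨this.1.le, this.2.le⟩
      · intro j; exact (hTclosed j).isCompact
      · exact hTclosed
    obtain ⟨x', hx'⟩ := hne
    rw [mem_iInter] at hx'
    refine ⟨x', (hx' ⟨∅, fun t ht => absurd ht (Finset.notMem_empty t)⟩).1, ?_⟩
    intro f hf
    by_contra hne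
    rcases lt_or_gt_of_ne hne with h | h
    · obtain ⟨q, hq1, hq2⟩ := exists_rat_btwn h
      obtain ⟨q', hq'⟩ := exists_rat_gt (f x)
      have hj : x ∈ U {(⟨f, hf⟩, q, q')} := by
        intro t ht
        rw [Finset.mem_singleton] at ht
        subst ht; exact ⟨hq2, hq'⟩
      have := (hx' ⟨_, hj⟩).2 (⟨f, hf⟩, q, q') (Finset.mem_singleton_self _)
      exact absurd this.1 (not_le.2 hq1)
    · obtain ⟨q, hq1, hq2⟩ := exists_rat_btwn h
      obtain ⟨q', hq'⟩ := exists_rat_lt (f x)
      have hj : x ∈ U {(⟨f, hf⟩, q', q)} := by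
        intro t ht
        rw [Finset.mem_singleton] at ht
        subst ht; exact ⟨hq', hq1⟩
      have := (hx' ⟨_, hj⟩).2 (⟨f, hf⟩, q', q) (Finset.mem_singleton_self _)
      exact absurd this.2 (not_le.2 hq2)

/-- directed unions -/
theorem Dn_iUnion [CompactSpace X] {ι : Type*} [Nonempty ι] {Z : Set X} {B : ι → Set X}
    {M : ι → Set C(X, ℝ)}
    (hdir : ∀ i j, ∃ k, B i ⊆ B k ∧ B j ⊆ B k ∧ M i ⊆ M k ∧ M j ⊆ M k)
    (h : ∀ i, Dn Z (B i) (M i)) : Dn Z (⋃ i, B i) (⋃ i, M i) := by
  intro x hx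
  let T : ι → Set X := fun i => closure (⋃ i, B i) ∩ {y | ∀ f ∈ M i, f y = f x}
  have hTclosed : ∀ j, IsClosed (T j) := by
    intro j
    apply isClosed_closure.inter
    have : {y | ∀ f ∈ M j, f y = f x} = ⋂ f ∈ M j, {y | f y = f x} := by
      ext y; simp
    rw [this]
    apply isClosed_biInter
    intro f _
    exact isClosed_eq f.continuous continuous_const
  have hne : (⋂ j, T j).Nonempty := by
    apply IsCompact.nonempty_iInter_of_directed_nonempty_isCompact_isClosed
    · intro i j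
      obtain ⟨k, -, -, h1, h2⟩ := hdir i j
      refine ⟨k, ?_, ?_⟩
      · intro y hy; exact ⟨hy.1, fun f hf => hy.2 f (h1 hf)⟩
      · intro y hy; exact ⟨hy.1, fun f hf => hy.2 f (h2 hf)⟩
    · intro i
      obtain ⟨x', hx', hf⟩ := h i x hx
      exact ⟨x', closure_mono (subset_iUnion _ i) hx', hf⟩
    · intro j; exact (hTclosed j).isCompact
    · exact hTclosed
  obtain ⟨x', hx'⟩ := hne
  rw [mem_iInter] at hx'
  refine ⟨x', (hx' (Classical.arbitrary ι)).1, ?_⟩
  intro f hf
  obtain ⟨i, hi⟩ := mem_iUnion.1 hf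
  exact (hx' i).2 f hi

theorem Good.retraction [CompactSpace X] [T2Space X] {B : Set X} {M : Set C(X, ℝ)}
    (h : Good B M) : ∃ r : C(X, X), (∀ x, r x ∈ closure B) ∧ (∀ x, ∀ f ∈ M, f (r x) = f x) ∧
      (∀ x ∈ closure B, r x = x) := by
  classical
  obtain ⟨h1, h2⟩ := h
  choose r hr hrf using fun x => h1 x (mem_univ x)
  let e : X → (M → ℝ) := fun x f => f.1 x
  have he : Continuous e := continuous_pi fun f => f.1.continuous
  let e' : closure B → (M → ℝ) := fun x => e x.1
  have he' : Continuous e' := he.comp continuous_subtype_val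
  have hinj : Function.Injective e' := by
    intro x y hxy
    apply Subtype.ext
    apply h2 _ x.2 _ y.2
    intro f hf
    exact congrFun hxy ⟨f, hf⟩
  have : CompactSpace (closure B) := isCompact_iff_compactSpace.1 isClosed_closure.isCompact
  have hemb : IsClosedEmbedding e' := he'.isClosedEmbedding hinj
  let r' : X → closure B := fun x => ⟨r x, hr x⟩
  have hr' : Continuous r' := by
    rw [hemb.isInducing.continuous_iff]
    have : e' ∘ r' = e := by
      ext x f
      exact hrf x f.1 f.2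
    rw [this]; exact he
  refine ⟨⟨r, continuous_subtype_val.comp hr'⟩, hr, hrf, ?_⟩
  intro x hx
  exact h2 _ (hr x) _ hx (hrf x)

lemma vanish_closure {C : Set X} {f : C(X, ℝ)} (h : ∀ c ∈ C, f c = 0) :
    ∀ x ∈ closure C, f x = 0 := by
  intro x hx
  have hcl : IsClosed {x | f x = 0} := isClosed_eq f.continuous continuous_const
  exact (closure_minimal h hcl) hx

theorem lemCO [CompactSpace X] {F : Set C(X, ℝ)} (hF : PCon univ F) {A : Set X} {x : X}
    (hx : x ∈ closure A) :
    ∃ C ⊆ A, C.Countable ∧ ∃ x' ∈ closure C, ∀ f ∈ F, f x' = f x := by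
  classical
  -- one step of the closing-off
  have step : ∀ M : {M : Set C(X, ℝ) // M.Countable}, ∃ C : Set X, C ⊆ A ∧ C.Countable ∧
      ∃ x' ∈ closure C, ∀ f ∈ M.1, f x' = f x := by
    intro M
    obtain ⟨C, hCA, hC, hD⟩ := lemA A M.1
    refine ⟨C, hCA, ?_, hD x hx⟩
    have : #C ≤ ℵ₀ := hC.trans (max_le (Cardinal.le_aleph0_iff_set_countable.2 M.2) le_rfl)
    exact Cardinal.le_aleph0_iff_set_countable.1 this
  choose C hCA hCc hCx using step
  let nxt : {M : Set C(X, ℝ) // M.Countable} → {M : Set C(X, ℝ) // M.Countable} := fun M =>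
    ⟨M.1 ∪ ⋃ c ∈ C M, {f | f ∈ F ∧ f c ≠ 0},
      M.2.union ((hCc M).biUnion fun c _ => hF c (mem_univ c))⟩
  let M : ℕ → {M : Set C(X, ℝ) // M.Countable} := fun n =>
    Nat.rec ⟨{f | f ∈ F ∧ f x ≠ 0}, hF x (mem_univ x)⟩ (fun _ M => nxt M) n
  have hMs : ∀ n, M (n+1) = nxt (M n) := fun n => rfl
  have hMmono : ∀ n, (M n).1 ⊆ (M (n+1)).1 := by
    intro n; rw [hMs]; exact subset_union_left
  have hMmono' : Monotone (fun n => (M n).1) := monotone_nat_of_le_succ hMmono
  refine ⟨⋃ n, C (M n), iUnion_subset fun n => hCA _, countable_iUnion fun n => hCc _, ?_⟩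
  -- compactness
  let T : ℕ → Set X := fun n => closure (⋃ n, C (M n)) ∩ {y | ∀ f ∈ (M n).1, f y = f x}
  have hTclosed : ∀ j, IsClosed (T j) := by
    intro j
    apply isClosed_closure.inter
    have : {y | ∀ f ∈ (M j).1, f y = f x} = ⋂ f ∈ (M j).1, {y | f y = f x} := by
      ext y; simp
    rw [this]
    apply isClosed_biInter
    intro f _
    exact isClosed_eq f.continuous continuous_const
  have hne : (⋂ j, T j).Nonempty := by
    apply IsCompact.nonempty_iInter_of_directed_nonempty_isCompact_isClosed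
    · intro i j
      refine ⟨max i j, ?_, ?_⟩
      · intro y hy; exact ⟨hy.1, fun f hf => hy.2 f (hMmono' (le_max_left i j) hf)⟩
      · intro y hy; exact ⟨hy.1, fun f hf => hy.2 f (hMmono' (le_max_right i j) hf)⟩
    · intro i
      obtain ⟨x', hx', hf⟩ := hCx (M i)
      exact ⟨x', closure_mono (subset_iUnion (fun n => C (M n)) i) hx', hf⟩
    · intro j; exact (hTclosed j).isCompact
    · exact hTclosed
  obtain ⟨x', hx'⟩ := hne
  rw [mem_iInter] at hx'
  refine ⟨x', (hx' 0).1, ?_⟩
  intro f hf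
  by_cases hfM : ∃ n, f ∈ (M n).1
  · obtain ⟨n, hn⟩ := hfM
    exact (hx' n).2 f hn
  · push Not at hfM
    have h0 : f x = 0 := by
      by_contra hne
      exact hfM 0 ⟨hf, hne⟩
    have h1 : ∀ c ∈ ⋃ n, C (M n), f c = 0 := by
      intro c hc
      obtain ⟨n, hn⟩ := mem_iUnion.1 hc
      by_contra hne
      apply hfM (n+1)
      rw [hMs]
      right
      simp only [mem_iUnion]
      exact ⟨c, hn, hf, hne⟩
    rw [h0]
    exact vanish_closure h1 x' (hx' 0).1

theorem chain_lemma [CompactSpace X] [T2Space X] (hct : CTight X)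
    {ι : Type v} [LinearOrder ι] [WellFoundedLT ι]
    (B : ι → Set X) (M : ι → Set C(X, ℝ)) (hB : Monotone B) (hM : Monotone M)
    (hgood : ∀ i, Good (B i) (M i))
    (hlimB : ∀ i, Order.IsSuccLimit i → ∀ b ∈ B i, ∃ j < i, b ∈ B j)
    (hlimM : ∀ i, Order.IsSuccLimit i → ∀ f ∈ M i, ∃ j < i, f ∈ M j)
    (hdense : Dense (⋃ i, B i)) (hsep : SepOn univ (⋃ i, M i))
    (hcor : ∀ i, CorsonOn (closure (B i))) : CorsonOn (univ : Set X) := by
  classical
  choose r hr1 hr2 hr3 using fun i => (hgood i).retraction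
  choose F hF1 hF2 using hcor
  -- basic facts on the retractions
  have K0 : ∀ k i x, k ≤ i → r k (r i x) = r k x := by
    intro k i x hki
    apply (hgood k).2 _ (hr1 k _) _ (hr1 k _)
    intro f hf
    rw [hr2 k _ f hf, hr2 k _ f hf, hr2 i _ f (hM hki hf)]
  have K1 : ∀ j i k x, j ≤ k → k ≤ i → r i x ∈ closure (B j) → r k x = r i x := by
    intro j i k x hjk hki hx
    rw [← K0 k i x hki]
    exact hr3 k _ (closure_mono (hB hjk) hx)
  let J : X → Set ι := fun x => {i | ∃ j, j ⋖ i ∧ r j x ≠ r i x}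
  have htri : ∀ i : ι, IsMin i ∨ (∃ j, j ⋖ i) ∨ Order.IsSuccLimit i := by
    intro i
    by_cases h1 : IsMin i
    · exact Or.inl h1
    · by_cases h2 : ∃ j, j ⋖ i
      · exact Or.inr (Or.inl h2)
      · right; right
        exact ⟨h1, fun b hb => h2 ⟨b, hb⟩⟩
  have hJi : ∀ x i, (J x ∩ Iic i).Countable := by
    intro x i
    induction i using WellFoundedLT.induction with
    | ind i ih =>
      rcases htri i with h | ⟨j, hj⟩ | h
      · have : J x ∩ Iic i ⊆ {i} := by
          rintro k ⟨-, hk⟩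
          exact le_antisymm hk (h hk)
        exact (countable_singleton i).mono this
      · have : J x ∩ Iic i ⊆ (J x ∩ Iic j) ∪ {i} := by
          rintro k ⟨hk1, hk2⟩
          rcases eq_or_lt_of_le (show k ≤ i from hk2) with rfl | hlt
          · right; rfl
          · left; exact ⟨hk1, hj.le_of_lt hlt⟩
        exact ((ih j hj.lt).union (countable_singleton i)).mono this
      · obtain ⟨C, hCB, hC, hxC⟩ := hct (B i) (r i x) (hr1 i x)
        have hj' : ∀ c ∈ C, ∃ j < i, c ∈ B j := fun c hc => hlimB i h c (hCB hc)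
        have : Nonempty ι := ⟨i⟩
        choose! jc hjc1 hjc2 using hj'
        by_cases hb : ∃ j < i, ∀ c ∈ C, jc c ≤ j
        · obtain ⟨j, hji, hj⟩ := hb
          have hxj : r i x ∈ closure (B j) :=
            closure_mono (fun c hc => hB (hj c hc) (hjc2 c hc)) hxC
          have : J x ∩ Iic i ⊆ J x ∩ Iic j := by
            rintro k ⟨hk1, hk2⟩
            refine ⟨hk1, ?_⟩
            by_contra hkj
            rw [mem_Iic, not_le] at hkj
            obtain ⟨k', hk', hne⟩ := hk1
            apply hne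
            rw [K1 j i k' x (hk'.le_of_lt hkj) (hk'.le.trans hk2) hxj,
              K1 j i k x hkj.le hk2 hxj]
          exact (ih j hji).mono this
        · push Not at hb
          have : J x ∩ Iic i ⊆ (⋃ c ∈ C, J x ∩ Iic (jc c)) ∪ {i} := by
            rintro k ⟨hk1, hk2⟩
            rcases eq_or_lt_of_le (show k ≤ i from hk2) with rfl | hlt
            · right; rfl
            · left
              obtain ⟨c, hc, hkc⟩ := hb k hlt
              simp only [mem_iUnion]
              exact ⟨c, hc, hk1, hkc.le⟩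
          exact ((hC.biUnion fun c hc => ih _ (hjc1 c hc)).union (countable_singleton i)).mono this
  have hJ : ∀ x, (J x).Countable := by
    intro x
    rcases isEmpty_or_nonempty ι with hemp | hne
    · rw [eq_empty_of_isEmpty (J x)]; exact countable_empty
    obtain ⟨C, hCB, hC, hxC⟩ := hct (⋃ i, B i) x (hdense x)
    have hj' : ∀ c ∈ C, ∃ j, c ∈ B j := fun c hc => mem_iUnion.1 (hCB hc)
    choose! jc hjc2 using hj'
    by_cases hb : ∃ j, ∀ c ∈ C, jc c ≤ j
    · obtain ⟨j, hj⟩ := hb
      have hxj : x ∈ closure (B j) :=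
        closure_mono (fun c hc => hB (hj c hc) (hjc2 c hc)) hxC
      have : J x ⊆ J x ∩ Iic j := by
        rintro k hk1
        refine ⟨hk1, ?_⟩
        by_contra hkj
        rw [mem_Iic, not_le] at hkj
        obtain ⟨k', hk', hne⟩ := hk1
        apply hne
        rw [hr3 k' x (closure_mono (hB (hk'.le_of_lt hkj)) hxj),
          hr3 k x (closure_mono (hB hkj.le) hxj)]
      exact (hJi x j).mono this
    · push Not at hb
      have : J x ⊆ (⋃ c ∈ C, J x ∩ Iic (jc c)) := by
        rintro k hk1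
        obtain ⟨c, hc, hkc⟩ := hb k
        simp only [mem_iUnion]
        exact ⟨c, hc, hk1, hkc.le⟩
      exact (hC.biUnion fun c hc => hJi x _).mono this
  -- the family
  let F1 : Set C(X, ℝ) := {h | ∃ i, IsMin i ∧ ∃ g ∈ F i, h = g.comp (r i)}
  let F2 : Set C(X, ℝ) := {h | ∃ j i, j ⋖ i ∧ ∃ g ∈ F i, h = g.comp (r i) - g.comp (r j)}
  refine ⟨F1 ∪ F2, ?_, ?_⟩
  · intro x _
    have h1 : {f | f ∈ F1 ∧ f x ≠ 0}.Countable := by
      by_cases hmin : ∃ i : ι, IsMin i
      · obtain ⟨i, hi⟩ := hmin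
        have : {f | f ∈ F1 ∧ f x ≠ 0} ⊆ (fun g : C(X, ℝ) => g.comp (r i)) ''
            {g | g ∈ F i ∧ g (r i x) ≠ 0} := by
          rintro f ⟨⟨i', hi', g, hg, rfl⟩, hne⟩
          have : i' = i := le_antisymm ((le_total i' i).elim id (fun h => hi' h))
            ((le_total i' i).elim (fun h => hi h) id)
          subst this
          exact ⟨g, ⟨hg, hne⟩, rfl⟩
        exact ((hF1 i _ (hr1 i x)).image _).mono this
      · have : {f | f ∈ F1 ∧ f x ≠ 0} = ∅ := by
          ext f
          simp only [mem_ofPred_eq, mem_empty_iff_false, iff_false, not_and]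
          rintro ⟨i, hi, -⟩
          exact absurd ⟨i, hi⟩ hmin
        rw [this]; exact countable_empty
    have h2 : {f | f ∈ F2 ∧ f x ≠ 0}.Countable := by
      let p : ι → ι := fun i => if h : ∃ j, j ⋖ i then h.choose else i
      have hp : ∀ j i, j ⋖ i → p i = j := by
        intro j i hji
        have hex : ∃ j, j ⋖ i := ⟨j, hji⟩
        have : p i = hex.choose := dif_pos hex
        rw [this]
        exact hex.choose_spec.unique_left hji
      have : {f | f ∈ F2 ∧ f x ≠ 0} ⊆ ⋃ i ∈ J x,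
          (fun g : C(X, ℝ) => g.comp (r i) - g.comp (r (p i))) ''
            ({g | g ∈ F i ∧ g (r i x) ≠ 0} ∪ {g | g ∈ F i ∧ g (r (p i) x) ≠ 0}) := by
        rintro f ⟨⟨j, i, hji, g, hg, rfl⟩, hne⟩
        have hpi := hp j i hji
        simp only [mem_iUnion]
        refine ⟨i, ⟨j, hji, ?_⟩, g, ?_, ?_⟩
        · intro heq
          apply hne
          simp [heq]
        · rw [hpi]
          by_cases h0 : g (r i x) = 0
          · right
            refine ⟨hg, ?_⟩
            intro h0'
            apply hne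
            simp [h0, h0']
          · left; exact ⟨hg, h0⟩
        · simp only [hpi]
      refine ((hJ x).biUnion fun i hi => ?_).mono this
      obtain ⟨j, hji, -⟩ := hi
      have hpi := hp j i hji
      apply Countable.image
      apply Countable.union
      · exact hF1 i _ (hr1 i x)
      · apply hF1 i
        rw [hpi]
        exact closure_mono (hB hji.le) (hr1 j x)
    have : {f | f ∈ F1 ∪ F2 ∧ f x ≠ 0} ⊆ {f | f ∈ F1 ∧ f x ≠ 0} ∪ {f | f ∈ F2 ∧ f x ≠ 0} := by
      rintro f ⟨h | h, hne⟩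
      · exact Or.inl ⟨h, hne⟩
      · exact Or.inr ⟨h, hne⟩
    exact (h1.union h2).mono this
  · intro x _ y _ hxy
    by_contra hne
    have hex : ∃ i, r i x ≠ r i y := by
      by_contra hall
      push Not at hall
      apply hne
      apply hsep x (mem_univ x) y (mem_univ y)
      intro f hf
      obtain ⟨i, hi⟩ := mem_iUnion.1 hf
      rw [← hr2 i x f hi, ← hr2 i y f hi, hall i]
    obtain ⟨i, hi, hmin⟩ := WellFounded.has_min (wellFounded_lt (α := ι)) {i | r i x ≠ r i y} hex
    rcases htri i with h | ⟨j, hj⟩ | h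
    · apply hi
      apply hF2 i _ (hr1 i x) _ (hr1 i y)
      intro g hg
      exact hxy _ (Or.inl ⟨i, h, g, hg, rfl⟩)
    · have hjeq : r j x = r j y := by
        by_contra hne'
        exact hmin j hne' hj.lt
      apply hi
      apply hF2 i _ (hr1 i x) _ (hr1 i y)
      intro g hg
      have := hxy _ (Or.inr ⟨j, i, hj, g, hg, rfl⟩)
      simp only [ContinuousMap.sub_apply, ContinuousMap.comp_apply, hjeq] at this
      linarith
    · apply hi
      apply (hgood i).2 _ (hr1 i x) _ (hr1 i y)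
      intro f hf
      obtain ⟨j, hji, hfj⟩ := hlimM i h f hf
      have hjeq : r j x = r j y := by
        by_contra hne'
        exact hmin j hne' hji
      rw [hr2 i x f hf, hr2 i y f hf, ← hr2 j x f hfj, ← hr2 j y f hfj, hjeq]

/-- existence of continuous chains of closed sets, when closing off is cheap -/
theorem chain_exists {T : Type u} {kap : Cardinal.{u}} (lam : Cardinal.{u}) (hlam : ℵ₀ ≤ lam)
    (hlk : lam < kap) (P : Set T → Prop)
    (hPU : ∀ 𝒮 : Set (Set T), 𝒮.Nonempty → IsChain (· ⊆ ·) 𝒮 → (∀ S ∈ 𝒮, P S) → P (⋃₀ 𝒮))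
    (hPex : ∀ S : Set T, #S < kap → ∃ S', S ⊆ S' ∧ P S' ∧ #S' ≤ max #S lam)
    (D : Set T) (hD : #D ≤ kap) :
    ∃ (ι : Type u) (_ : LinearOrder ι) (_ : WellFoundedLT ι) (_ : Nonempty ι) (S : ι → Set T),
      Monotone S ∧ (∀ i, P (S i)) ∧ (∀ i, #(S i) < kap) ∧
      (∀ i, Order.IsSuccLimit i → ∀ t ∈ S i, ∃ j < i, t ∈ S j) ∧ D ⊆ ⋃ i, S i := by
  classical
  have hinf : ℵ₀ ≤ kap := hlam.trans hlk.le
  have hch : ∀ S : Set T, ∃ S', #S < kap → S ⊆ S' ∧ P S' ∧ #S' ≤ max #S lam := by
    intro S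
    by_cases h : #S < kap
    · obtain ⟨S', h'⟩ := hPex S h
      exact ⟨S', fun _ => h'⟩
    · exact ⟨S, fun h' => absurd h' h⟩
  choose Cl hCl using hch
  let ι := kap.ord.ToType
  have hι : #ι = kap := Cardinal.mk_ord_toType _
  have hιIio : ∀ i : ι, #(Iio i) < kap := by
    intro i
    have := Cardinal.mk_Iio_lt i (by simp [ι])
    rwa [hι] at this
  have hnomax : ∀ i : ι, ∃ j, i < j := by
    intro i
    by_contra hall
    push Not at hall
    have h1 : (univ : Set ι) ⊆ Iio i ∪ {i} := by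
      intro j _
      rcases eq_or_lt_of_le (hall j) with h | h
      · right; exact h
      · left; exact h
    have h2 : #ι < #ι := by
      calc #ι = #(univ : Set ι) := Cardinal.mk_univ.symm
        _ ≤ #((Iio i ∪ {i} : Set ι)) := Cardinal.mk_le_mk_of_subset h1
        _ ≤ #(Iio i) + #({i} : Set ι) := Cardinal.mk_union_le _ _
        _ < #ι := by
          apply Cardinal.add_lt_of_lt (by rw [hι]; exact hinf)
          · rw [hι]; exact hιIio i
          · rw [Cardinal.mk_singleton, hι]
            exact Cardinal.one_lt_aleph0.trans_le hinf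
    exact lt_irrefl _ h2
  have hne : Nonempty ι := by
    rw [← Cardinal.mk_ne_zero_iff, hι]
    exact (Cardinal.aleph0_pos.trans_le hinf).ne'
  -- enumeration of D
  obtain ⟨φ⟩ : Nonempty (D ↪ ι) := by
    rw [← hι] at hD; exact (Cardinal.le_def _ _).1 hD
  let e : ι → Set T := fun i => {t | ∃ h : t ∈ D, φ ⟨t, h⟩ = i}
  have he1 : ∀ i, #(e i) ≤ 1 := by
    intro i
    rw [Cardinal.le_one_iff_subsingleton]
    refine ⟨?_⟩
    rintro ⟨t, ht, h1⟩ ⟨t', ht', h2⟩
    have := φ.injective (h1.trans h2.symm)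
    exact Subtype.ext (congrArg (fun z : D => z.1) this)
  let step : ∀ i : ι, (∀ j, j < i → Set T) → Set T := fun i g =>
    Cl ∅ ∪ ⋃ j : Iio i, Cl (e j.1 ∪ g j.1 j.2)
  let S : ι → Set T := WellFounded.fix (wellFounded_lt (α := ι)) step
  have hS : ∀ i, S i = Cl ∅ ∪ ⋃ j : Iio i, Cl (e j.1 ∪ S j.1) := by
    intro i
    exact WellFounded.fix_eq (wellFounded_lt (α := ι)) step i
  have hempty : #(∅ : Set T) < kap := by
    rw [Cardinal.mk_eq_zero]; exact Cardinal.aleph0_pos.trans_le hinf
  -- cardinality bound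
  let bd : ι → Cardinal.{u} := fun i => max #(Iio i) lam
  have hbd0 : ∀ i, ℵ₀ ≤ bd i := fun i => hlam.trans (le_max_right _ _)
  have hbdlt : ∀ i, bd i < kap := fun i => max_lt (hιIio i) hlk
  have hbdmono : ∀ j i : ι, j ≤ i → bd j ≤ bd i := by
    intro j i hji
    apply max_le_max_right
    exact Cardinal.mk_le_mk_of_subset (Iio_subset_Iio hji)
  have hcard' : ∀ i, #(S i) ≤ bd i := by
    intro i
    induction i using WellFoundedLT.induction with
    | ind i ih =>
      rw [hS i]
      refine (Cardinal.mk_union_le _ _).trans ?_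
      apply Cardinal.add_le_of_le (hbd0 i)
      · refine (hCl ∅ hempty).2.2.trans ?_
        rw [Cardinal.mk_eq_zero]
        exact max_le zero_le (le_max_right _ _)
      · refine (Cardinal.mk_iUnion_le _).trans ?_
        calc #(Iio i) * (⨆ j : Iio i, #(Cl (e j.1 ∪ S j.1))) ≤ bd i * bd i := by
              apply mul_le_mul' (le_max_left _ _)
              apply ciSup_le'
              intro j
              have h1 : #((e j.1 ∪ S j.1 : Set T)) ≤ bd i := by
                refine (Cardinal.mk_union_le _ _).trans ?_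
                apply Cardinal.add_le_of_le (hbd0 i)
                · exact (he1 _).trans (Cardinal.one_lt_aleph0.le.trans (hbd0 i))
                · exact (ih j.1 j.2).trans (hbdmono _ _ (le_of_lt j.2))
              refine (hCl _ (h1.trans_lt (hbdlt i))).2.2.trans ?_
              exact max_le h1 (le_max_right _ _)
          _ = bd i := Cardinal.mul_eq_self (hbd0 i)
  have hcard : ∀ i, #(S i) < kap := fun i => (hcard' i).trans_lt (hbdlt i)
  have hcard0 : ∀ i, #((e i ∪ S i : Set T)) < kap := by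
    intro i
    refine (Cardinal.mk_union_le _ _).trans_lt ?_
    exact Cardinal.add_lt_of_lt hinf ((he1 i).trans_lt (Cardinal.one_lt_aleph0.trans_le hinf))
      (hcard i)
  have hclS : ∀ j i, j < i → Cl (e j ∪ S j) ⊆ S i := by
    intro j i hji
    rw [hS i]
    exact (subset_iUnion (fun j : Iio i => Cl (e j.1 ∪ S j.1)) ⟨j, hji⟩).trans
      subset_union_right
  have hSlt : ∀ j i, j < i → S j ⊆ S i := by
    intro j i hji
    exact (subset_union_right.trans (hCl _ (hcard0 j)).1).trans (hclS j i hji)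
  have hSmono : Monotone S := by
    intro j i hji
    rcases eq_or_lt_of_le hji with rfl | hlt
    · exact subset_rfl
    · exact hSlt j i hlt
  have hCl0 : ∀ i, Cl ∅ ⊆ S i := by
    intro i; rw [hS i]; exact subset_union_left
  have hP : ∀ i, P (S i) := by
    intro i
    have h1 : S i = ⋃₀ ({Cl ∅} ∪ range (fun j : Iio i => Cl (e j.1 ∪ S j.1))) := by
      rw [sUnion_union, sUnion_singleton, sUnion_range]
      exact hS i
    rw [h1]
    apply hPU
    · exact ⟨Cl ∅, Or.inl rfl⟩
    · have hlt : ∀ j j' : ι, j < j' → Cl (e j ∪ S j) ⊆ Cl (e j' ∪ S j') := by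
        intro j j' hjj
        exact (hclS j j' hjj).trans (subset_union_right.trans (hCl _ (hcard0 j')).1)
      have h0 : ∀ j : ι, Cl ∅ ⊆ Cl (e j ∪ S j) := by
        intro j
        exact (hCl0 j).trans (subset_union_right.trans (hCl _ (hcard0 j)).1)
      rintro a (ha | ⟨j, rfl⟩) b (hb | ⟨j', rfl⟩) hab
      · rw [mem_singleton_iff] at ha hb
        exact absurd (ha.trans hb.symm) hab
      · rw [mem_singleton_iff] at ha; subst ha; exact Or.inl (h0 _)
      · rw [mem_singleton_iff] at hb; subst hb; exact Or.inr (h0 _)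
      · rcases lt_trichotomy j.1 j'.1 with h | h | h
        · exact Or.inl (hlt _ _ h)
        · exact absurd (by simp only [h]) hab
        · exact Or.inr (hlt _ _ h)
    · rintro a (ha | ⟨j, rfl⟩)
      · rw [mem_singleton_iff] at ha; subst ha; exact (hCl ∅ hempty).2.1
      · exact (hCl _ (hcard0 j.1)).2.1
  refine ⟨ι, inferInstance, inferInstance, hne, S, hSmono, hP, hcard, ?_, ?_⟩
  · intro i hi k hk
    rw [hS i] at hk
    rcases hk with hk | hk
    · have := hi.1
      rw [not_isMin_iff] at this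
      obtain ⟨j, hj⟩ := this
      exact ⟨j, hj, hCl0 j hk⟩
    · obtain ⟨j, hj⟩ := mem_iUnion.1 hk
      have h2 := hi.2 j.1
      have : ∃ j', j.1 < j' ∧ j' < i := by
        by_contra hall
        push Not at hall
        exact h2 ⟨j.2, fun c hc hci => absurd hci (not_lt.2 (hall c hc))⟩
      obtain ⟨j', h1, h3⟩ := this
      exact ⟨j', h3, hclS _ _ h1 hj⟩
  · intro t ht
    obtain ⟨i, hi⟩ := hnomax (φ ⟨t, ht⟩)
    refine mem_iUnion.2 ⟨i, hclS _ i hi ((hCl _ (hcard0 _)).1 ?_)⟩
    left
    exact ⟨ht, rfl⟩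

section Subtype

theorem CorsonOn.mono {X : Type u} [TopologicalSpace X] {Z Z' : Set X} (h : CorsonOn Z)
    (hZ : Z' ⊆ Z) : CorsonOn Z' := by
  obtain ⟨F, h1, h2⟩ := h
  exact ⟨F, fun x hx => h1 x (hZ hx), fun x hx y hy => h2 x (hZ hx) y (hZ hy)⟩

theorem CorsonOn.of_subtype {X : Type u} [TopologicalSpace X] [CompactSpace X] [T2Space X]
    {Z : Set X} (hZ : IsClosed Z) (h : CorsonOn (univ : Set Z)) : CorsonOn Z := by
  obtain ⟨F, h1, h2⟩ := h
  choose ext hext using fun f : C(Z, ℝ) => ContinuousMap.exists_restrict_eq hZ f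
  have hval : ∀ f : C(Z, ℝ), ∀ z : Z, ext f z.1 = f z := by
    intro f z
    have := congrArg (fun g : C(Z, ℝ) => g z) (hext f)
    exact this
  refine ⟨ext '' F, ?_, ?_⟩
  · intro x hx
    have : {f | f ∈ ext '' F ∧ f x ≠ 0} ⊆ ext '' {f | f ∈ F ∧ f ⟨x, hx⟩ ≠ 0} := by
      rintro f ⟨⟨g, hg, rfl⟩, hne⟩
      refine ⟨g, ⟨hg, ?_⟩, rfl⟩
      rw [← hval]; exact hne
    exact ((h1 ⟨x, hx⟩ (mem_univ _)).image _).mono this
  · intro x hx y hy hxy
    have : (⟨x, hx⟩ : Z) = ⟨y, hy⟩ := by
      apply h2 _ (mem_univ _) _ (mem_univ _)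
      intro f hf
      rw [← hval f ⟨x, hx⟩, ← hval f ⟨y, hy⟩]
      exact hxy _ ⟨f, hf, rfl⟩
    exact congrArg Subtype.val this

/-- embedding into a sigma-product from a point-countable separating family -/
theorem embedding_of_corson {X : Type u} [TopologicalSpace X] [CompactSpace X]
    (h : CorsonOn (univ : Set X)) :
    ∃ (κ : Type u) (e : X → κ → ℝ), IsEmbedding e ∧ ∀ x, {i | e x i ≠ 0}.Countable := by
  obtain ⟨F, hF, hsep⟩ := h
  have hcont : Continuous (fun (x : X) (f : F) => f.1 x) := continuous_pi fun f => f.1.continuous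
  have hinj : Function.Injective (fun (x : X) (f : F) => f.1 x) := by
    intro x y hxy
    exact hsep x (mem_univ x) y (mem_univ y) fun f hf => congrFun hxy ⟨f, hf⟩
  refine ⟨F, fun x f => f.1 x, (hcont.isClosedEmbedding hinj).isEmbedding, ?_⟩
  intro x
  have : {i : F | i.1 x ≠ 0} = Subtype.val ⁻¹' {f | f ∈ F ∧ f x ≠ 0} := by
    ext i; simp [i.2]
  rw [this]
  exact (hF x (mem_univ x)).preimage Subtype.val_injective

end Subtype

end Pool.Agent.Helper102.CorsonTools
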