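import Pool.Agent.Helper102.CorsonTools

set_option autoImplicit false

open Set Topology Cardinal

namespace Pool.Agent.Helper102.CorsonXK

open Pool.Agent.Helper102.CorsonTools

/-- every compact set of continuous functions on `X` embeds in a Sigma product -/
def CompactsCorson (X : Type) [TopologicalSpace X] : Prop :=
  ∀ S : Set (X → ℝ), (∀ f ∈ S, Continuous f) → IsCompact S →
    ∃ (Γ : Type) (e : S → (Γ → ℝ)), Topology.IsEmbedding e ∧
      ∀ s, (Function.support (e s)).Countable

variable {X : Type} [TopologicalSpace X]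

/-- a cube with uncountably many factors is not countably tight -/
lemma cube_not {I : Type} (hI : ¬ Countable I) {F : Set C(I → Bool, ℝ)} (hF : PCon univ F)
    (hsep : SepOn univ F) : False := by
  classical
  let A : Set (I → Bool) := {t | {i | t i = true}.Countable}
  have hx : (fun _ => true : I → Bool) ∈ closure A := by
    rw [mem_closure_iff]
    intro o ho hxo
    rw [isOpen_pi_iff] at ho
    obtain ⟨s, u, hu, hsu⟩ := ho _ hxo
    refine ⟨fun i => decide (i ∈ s), hsu ?_, ?_⟩
    · intro i hi
      have h1 : decide (i ∈ s) = true := decide_eq_true hi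
      show decide (i ∈ s) ∈ u i
      rw [h1]
      exact (hu i hi).2
    · show {i | decide (i ∈ s) = true}.Countable
      have : {i | decide (i ∈ s) = true} = (s : Set I) := by
        ext i
        simp
      rw [this]
      exact s.countable_toSet
  obtain ⟨C, hCA, hC, x', hx', hf⟩ := lemCO hF hx
  have hxx : x' = fun _ => true := hsep _ (mem_univ _) _ (mem_univ _) hf
  subst hxx
  let S : Set I := ⋃ t ∈ C, {i | t i = true}
  have hS : S.Countable := hC.biUnion fun t ht => hCA ht
  have hne : ∃ i, i ∉ S := by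
    by_contra hall
    push Not at hall
    apply hI
    have : S = Set.univ := eq_univ_of_forall hall
    rw [this] at hS
    exact countable_univ_iff.1 hS
  obtain ⟨i, hi⟩ := hne
  have hcl : IsClosed {t : I → Bool | t i = false} :=
    isClosed_eq (continuous_apply i) continuous_const
  have hCc : C ⊆ {t : I → Bool | t i = false} := by
    intro t ht
    show t i = false
    by_contra h
    apply hi
    have h' : t i = true := by
      cases hb : t i
      · exact absurd hb h
      · rfl
    exact mem_biUnion ht h'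
  have := (closure_minimal hCc hcl) hx'
  exact Bool.noConfusion (show true = false from this)

/-- images in metric spaces are separable -/
theorem separable_image (hX : CompactsCorson X) {Z : Type} [MetricSpace Z] (g : X → Z)
    (hg : Continuous g) : ∃ D : Set X, D.Countable ∧ ∀ x, ∀ ε > 0, ∃ d ∈ D, dist (g x) (g d) < ε := by
  classical
  have hsep : ∀ n : ℕ, ∃ S : Set X, S.Countable ∧ ∀ x, ∃ y ∈ S, dist (g x) (g y) < 1 / ((n : ℝ) + 1) := by
    intro n
    have hpos : (0 : ℝ) < 1 / ((n : ℝ) + 1) := Nat.one_div_pos_of_nat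
    set δ : ℝ := 1 / ((n : ℝ) + 1) with hδ
    obtain ⟨S, hS⟩ := zorn_subset {S : Set X | S.Pairwise fun x y => δ ≤ dist (g x) (g y)} (by
      intro c hc hchain
      refine ⟨⋃₀ c, ?_, fun s hs => subset_sUnion_of_mem hs⟩
      show (⋃₀ c).Pairwise _
      rw [pairwise_sUnion hchain.directedOn]
      exact hc)
    have hSp : S.Pairwise fun x y => δ ≤ dist (g x) (g y) := hS.prop
    refine ⟨S, ?_, ?_⟩
    · by_contra hunc
      have hI : ¬ Countable S := fun h => hunc (countable_coe_iff.1 h)
      -- bump functions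
      let h : S → X → ℝ := fun s x => max 0 (1 - (3 / δ) * dist (g x) (g s.1))
      have hcont : ∀ s, Continuous (h s) := fun s =>
        continuous_const.max (continuous_const.sub (continuous_const.mul
          (hg.dist continuous_const)))
      have hsupp : ∀ s x, h s x ≠ 0 → dist (g x) (g s.1) < δ / 3 := by
        intro s x hne
        by_contra hcon
        push Not at hcon
        apply hne
        apply max_eq_left
        have : (3 / δ) * (δ / 3) ≤ (3 / δ) * dist (g x) (g s.1) :=
          mul_le_mul_of_nonneg_left hcon (by positivity)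
        have h1 : (3 / δ) * (δ / 3) = 1 := by field_simp
        linarith
      have hself : ∀ s : S, h s s.1 = 1 := by
        intro s
        simp [h]
      have huniq : ∀ x, ∀ s t : S, dist (g x) (g s.1) < δ / 2 → dist (g x) (g t.1) < δ / 2 → s = t := by
        intro x s t hs ht
        by_contra hne
        have h1 := hSp s.2 t.2 (fun h => hne (Subtype.ext h))
        have h2 := dist_triangle_left (g s.1) (g t.1) (g x)
        linarith
      -- near a point only one bump is nonzero
      have hloc : ∀ x, ∃ s0 : Option S, ∀ y, dist (g y) (g x) < δ / 12 → ∀ s, h s y ≠ 0 → s0 = some s := by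
        intro x
        by_cases hex : ∃ s : S, dist (g x) (g s.1) < δ / 2
        · obtain ⟨s0, hs0⟩ := hex
          refine ⟨some s0, fun y hy s hs => ?_⟩
          have h1 := hsupp s y hs
          have h2 := dist_triangle_left (g x) (g s.1) (g y)
          rw [huniq x s0 s hs0 (by linarith)]
        · refine ⟨none, fun y hy s hs => ?_⟩
          exfalso
          apply hex
          refine ⟨s, ?_⟩
          have h1 := hsupp s y hs
          have h2 := dist_triangle_left (g x) (g s.1) (g y)
          linarith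
      -- the map from the cube
      let Φ : (S → Bool) → X → ℝ := fun t x => ∑ᶠ s : S, (if t s then h s x else 0)
      have hΦ : ∀ x, (∃ s0, (∀ y, dist (g y) (g x) < δ / 12 → ∀ t : S → Bool,
          Φ t y = if t s0 then h s0 y else 0)) ∨
          (∀ y, dist (g y) (g x) < δ / 12 → ∀ t : S → Bool, Φ t y = 0) := by
        intro x
        obtain ⟨s0, hs0⟩ := hloc x
        cases s0 with
        | none =>
          right
          intro y hy t
          have : ∀ s : S, (if t s then h s y else 0) = 0 := by
            intro s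
            by_contra hne
            have hne' : h s y ≠ 0 := by
              intro h0
              apply hne
              rw [h0]
              simp
            exact absurd (hs0 y hy s hne') (by simp)
          show ∑ᶠ s : S, (if t s then h s y else 0) = 0
          simp only [this]
          exact finsum_zero
        | some s0 =>
          left
          refine ⟨s0, fun y hy t => ?_⟩
          show ∑ᶠ s : S, (if t s then h s y else 0) = _
          apply finsum_eq_single
          intro s hs
          by_contra hne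
          have hne' : h s y ≠ 0 := by
            intro h0
            apply hne
            rw [h0]
            simp
          have := hs0 y hy s hne'
          exact hs (Option.some.inj this).symm
      have hΦx : ∀ t, Continuous (Φ t) := by
        intro t
        rw [continuous_iff_continuousAt]
        intro x
        have hev : ∀ᶠ y in 𝓝 x, dist (g y) (g x) < δ / 12 := by
          have := (hg.tendsto x).eventually (Metric.ball_mem_nhds (g x) (show (0 : ℝ) < δ / 12 by positivity))
          exact this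
        rcases hΦ x with ⟨s0, hs0⟩ | h0
        · have hc : ContinuousAt (fun y => if t s0 then h s0 y else 0) x := by
            by_cases ht : t s0 = true
            · simp only [ht, if_true]
              exact (hcont s0).continuousAt
            · simp only [ht]
              exact continuousAt_const
          exact hc.congr (hev.mono fun y hy => (hs0 y hy t).symm)
        · exact (continuousAt_const (y := (0 : ℝ))).congr (hev.mono fun y hy => (h0 y hy t).symm)
      have hΦc : Continuous Φ := by
        apply continuous_pi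
        intro x
        have hx : dist (g x) (g x) < δ / 12 := by
          rw [dist_self]
          positivity
        rcases hΦ x with ⟨s0, hs0⟩ | h0
        · have : (fun t => Φ t x) = fun t : S → Bool => if t s0 then h s0 x else 0 := by
            funext t
            exact hs0 x hx t
          rw [this]
          have h2 : Continuous fun b : Bool => if b then h s0 x else 0 := continuous_of_discreteTopology
          exact h2.comp (continuous_apply s0)
        · have : (fun t => Φ t x) = fun t : S → Bool => 0 := by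
            funext t
            exact h0 x hx t
          rw [this]
          exact continuous_const
      have hΦs : ∀ t, ∀ s : S, Φ t s.1 = if t s then 1 else 0 := by
        intro t s
        show ∑ᶠ s' : S, (if t s' then h s' s.1 else 0) = _
        rw [finsum_eq_single _ s, hself s]
        intro s' hs'
        by_contra hne
        have hne' : h s' s.1 ≠ 0 := by
          intro h0
          apply hne
          rw [h0]
          simp
        have h1 := hsupp s' s.1 hne'
        apply hs'
        apply huniq s.1 s' s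
        · linarith
        · rw [dist_self]
          positivity
      obtain ⟨Γ, e, he, hec⟩ := hX (range Φ) (by
        rintro _ ⟨t, rfl⟩
        exact hΦx t) (isCompact_range hΦc)
      let E : Γ → C(S → Bool, ℝ) := fun γ => ⟨fun t => e ⟨Φ t, t, rfl⟩ γ,
        (continuous_apply γ).comp (he.continuous.comp (hΦc.subtype_mk _))⟩
      apply cube_not hI (F := range E)
      · intro t _
        have : {f | f ∈ range E ∧ f t ≠ 0} ⊆ E '' (Function.support (e ⟨Φ t, t, rfl⟩)) := by
          rintro _ ⟨⟨γ, rfl⟩, hne⟩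
          exact ⟨γ, hne, rfl⟩
        exact ((hec _).image E).mono this
      · intro t _ t' _ hall
        have h1 : (⟨Φ t, t, rfl⟩ : range Φ) = ⟨Φ t', t', rfl⟩ := by
          apply he.injective
          funext γ
          exact hall (E γ) ⟨γ, rfl⟩
        have h2 : Φ t = Φ t' := congrArg Subtype.val h1
        funext s
        have h3 := congrFun h2 s.1
        rw [hΦs, hΦs] at h3
        cases ht : t s <;> cases ht' : t' s <;> simp [ht, ht'] at h3 ⊢
    · intro x
      by_contra hcon
      push Not at hcon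
      have hx : x ∉ S := fun hx => by
        have := hcon x hx
        rw [dist_self] at this
        linarith
      have hins : insert x S ⊆ S := by
        apply hS.2 (y := insert x S)
        · show (insert x S).Pairwise _
          apply hSp.insert
          intro y hy _
          exact ⟨hcon y hy, by rw [dist_comm]; exact hcon y hy⟩
        · exact subset_insert _ _
      exact hx (hins (mem_insert _ _))
  choose S hS hSd using hsep
  refine ⟨⋃ n, S n, countable_iUnion hS, ?_⟩
  intro x ε hε
  obtain ⟨n, hn⟩ := exists_nat_one_div_lt hε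
  obtain ⟨y, hy, hyd⟩ := hSd n x
  exact ⟨y, mem_iUnion.2 ⟨n, hy⟩, hyd.trans hn⟩

section Main

variable {K : Type} [TopologicalSpace K] [CompactSpace K] [T2Space K]

omit [T2Space K] in
theorem exists_phi (hX : CompactsCorson X) (f : X × K → ℝ) (hf : Continuous f) :
    ∃ Φ : Set C(K, ℝ), Φ.Countable ∧
      ∀ k k' : K, (∀ φ ∈ Φ, φ k' = φ k) → ∀ x, f (x, k') = f (x, k) := by
  let g : C(X, C(K, ℝ)) := ContinuousMap.curry ⟨f, hf⟩
  obtain ⟨D, hD, hd⟩ := separable_image hX g g.continuous
  refine ⟨g '' D, hD.image _, ?_⟩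
  intro k k' hk x
  by_contra hne
  have hpos : 0 < |f (x, k') - f (x, k)| := abs_pos.2 (sub_ne_zero.2 hne)
  obtain ⟨d, hdD, hdd⟩ := hd x (|f (x, k') - f (x, k)| / 2) (by positivity)
  have h1 := (ContinuousMap.dist_apply_le_dist (f := g x) (g := g d) k).trans_lt hdd
  have h2 := (ContinuousMap.dist_apply_le_dist (f := g x) (g := g d) k').trans_lt hdd
  have h3 : g d k' = g d k := hk (g d) ⟨d, hdD, rfl⟩
  have e1 : g x k = f (x, k) := rfl
  have e2 : g x k' = f (x, k') := rfl
  rw [e1, Real.dist_eq] at h1
  rw [e2, h3, Real.dist_eq] at h2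
  have h4 := abs_sub_le (f (x, k')) (g d k) (f (x, k))
  rw [abs_sub_comm (g d k) (f (x, k))] at h4
  linarith

omit [CompactSpace K] [T2Space K] in
theorem exists_gk (hX : CompactsCorson X) {S : Type} [TopologicalSpace S] [CompactSpace S]
    (ev : S → X × K → ℝ) (hev : Continuous ev) (hc : ∀ s, Continuous (ev s)) (k : K) :
    ∃ G : Set C(S, ℝ), PCon Set.univ G ∧
      ∀ f g : S, (∀ h ∈ G, h f = h g) → ∀ x, ev f (x, k) = ev g (x, k) := by
  let ρ : S → X → ℝ := fun s x => ev s (x, k)
  have hρ : Continuous ρ := continuous_pi fun x => (continuous_apply (x, k)).comp hev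
  obtain ⟨Γ, e, he, hec⟩ := hX (range ρ) (by
    rintro _ ⟨s, rfl⟩
    exact (hc s).comp (continuous_id.prodMk continuous_const)) (isCompact_range hρ)
  let E : Γ → C(S, ℝ) := fun γ => ⟨fun s => e ⟨ρ s, s, rfl⟩ γ,
    (continuous_apply γ).comp (he.continuous.comp (hρ.subtype_mk _))⟩
  refine ⟨range E, ?_, ?_⟩
  · intro t _
    have : {f | f ∈ range E ∧ f t ≠ 0} ⊆ E '' (Function.support (e ⟨ρ t, t, rfl⟩)) := by
      rintro _ ⟨⟨γ, rfl⟩, hne⟩
      exact ⟨γ, hne, rfl⟩
    exact ((hec _).image E).mono this
  · intro t t' hall x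
    have h1 : (⟨ρ t, t, rfl⟩ : range ρ) = ⟨ρ t', t', rfl⟩ := by
      apply he.injective
      funext γ
      exact hall (E γ) ⟨γ, rfl⟩
    have h2 : ρ t = ρ t' := congrArg Subtype.val h1
    exact congrFun h2 x

section System

variable {S : Type} [TopologicalSpace S]

/-- the points of `S` in `A` -/
def Bs (A : Set (S ⊕ K)) : Set S := Sum.inl ⁻¹' A

/-- the points of `K` in `A` -/
def Ls (A : Set (S ⊕ K)) : Set K := Sum.inr ⁻¹' A

/-- the functions on `S` of `A` -/
def Ms (G : K → Set C(S, ℝ)) (A : Set (S ⊕ K)) : Set C(S, ℝ) :=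
  {h | ∃ k ∈ Ls A, h ∈ G k ∧ ∃ b ∈ Bs A, h b ≠ 0}

/-- the functions on `K` of `A` -/
def Fs (Φ : S → Set C(K, ℝ)) (A : Set (S ⊕ K)) : Set C(K, ℝ) := {φ | ∃ b ∈ Bs A, φ ∈ Φ b}

/-- closed sets of indices -/
def Pr (G : K → Set C(S, ℝ)) (Φ : S → Set C(K, ℝ)) (A : Set (S ⊕ K)) : Prop :=
  Dn Set.univ (Bs A) (Ms G A) ∧ Dn Set.univ (Ls A) (Fs Φ A)

omit [CompactSpace K] [T2Space K] in
lemma Ms_mono (G : K → Set C(S, ℝ)) : Monotone (Ms G) := by
  rintro A A' h f ⟨k, hk, hf, b, hb, hne⟩
  exact ⟨k, h hk, hf, b, h hb, hne⟩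

omit [CompactSpace K] [T2Space K] in
lemma Fs_mono (Φ : S → Set C(K, ℝ)) : Monotone (Fs Φ) := by
  rintro A A' h f ⟨b, hb, hf⟩
  exact ⟨b, h hb, hf⟩

omit [T2Space K] in
/-- unions of directed families -/
lemma Pr_iUnion [CompactSpace S] (G : K → Set C(S, ℝ)) (Φ : S → Set C(K, ℝ)) {ι : Type}
    [Nonempty ι] (A A' : ι → Set (S ⊕ K)) (hA : ∀ i, A i ⊆ A' i)
    (hdir : ∀ i j, ∃ k, A' i ⊆ A k ∧ A' j ⊆ A k)
    (h1 : ∀ i, Dn Set.univ (Bs (A' i)) (Ms G (A i)))
    (h2 : ∀ i, Dn Set.univ (Ls (A' i)) (Fs Φ (A i))) : Pr G Φ (⋃ i, A i) := by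
  have hsub : ∀ i, A' i ⊆ ⋃ i, A i := by
    intro i
    obtain ⟨k, hk, -⟩ := hdir i i
    exact hk.trans (subset_iUnion A k)
  constructor
  · have := Dn_iUnion (Z := Set.univ) (B := fun i => Bs (A' i)) (M := fun i => Ms G (A i)) (by
      intro i j
      obtain ⟨k, h1, h2⟩ := hdir i j
      exact ⟨k, fun b hb => hA k (h1 hb), fun b hb => hA k (h2 hb),
        Ms_mono G ((hA i).trans h1), Ms_mono G ((hA j).trans h2)⟩) h1
    intro x hx
    obtain ⟨x', hx', hf⟩ := this x hx
    refine ⟨x', closure_mono ?_ hx', ?_⟩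
    · exact iUnion_subset fun i b hb => hsub i hb
    · rintro f ⟨k, hk, hfG, b, hb, hne⟩
      apply hf
      obtain ⟨i, hi⟩ := mem_iUnion.1 (show Sum.inr k ∈ ⋃ i, A i from hk)
      obtain ⟨j, hj⟩ := mem_iUnion.1 (show Sum.inl b ∈ ⋃ i, A i from hb)
      obtain ⟨l, hl1, hl2⟩ := hdir i j
      exact mem_iUnion.2 ⟨l, k, hl1 (hA i hi), hfG, b, hl2 (hA j hj), hne⟩
  · have := Dn_iUnion (Z := Set.univ) (B := fun i => Ls (A' i)) (M := fun i => Fs Φ (A i)) (by
      intro i j
      obtain ⟨k, h1, h2⟩ := hdir i j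
      exact ⟨k, fun b hb => hA k (h1 hb), fun b hb => hA k (h2 hb),
        Fs_mono Φ ((hA i).trans h1), Fs_mono Φ ((hA j).trans h2)⟩) h2
    intro x hx
    obtain ⟨x', hx', hf⟩ := this x hx
    refine ⟨x', closure_mono ?_ hx', ?_⟩
    · exact iUnion_subset fun i b hb => hsub i hb
    · rintro f ⟨b, hb, hfb⟩
      apply hf
      obtain ⟨i, hi⟩ := mem_iUnion.1 (show Sum.inl b ∈ ⋃ i, A i from hb)
      exact mem_iUnion.2 ⟨i, b, hi, hfb⟩

omit [CompactSpace K] [T2Space K] in
lemma Ms_card {G : K → Set C(S, ℝ)} (hG : ∀ k, PCon Set.univ (G k)) (A : Set (S ⊕ K)) :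
    #(Ms G A) ≤ max #A ℵ₀ := by
  have hsub : Ms G A ⊆ ⋃ p : A × A, {h | ∃ k b, p.1.1 = Sum.inr k ∧ p.2.1 = Sum.inl b ∧
      h ∈ G k ∧ h b ≠ 0} := by
    rintro h ⟨k, hk, hG, b, hb, hne⟩
    exact mem_iUnion.2 ⟨(⟨_, hk⟩, ⟨_, hb⟩), k, b, rfl, rfl, hG, hne⟩
  refine (Cardinal.mk_le_mk_of_subset hsub).trans ((Cardinal.mk_iUnion_le _).trans ?_)
  have hb : ∀ p : A × A, #({h | ∃ k b, p.1.1 = Sum.inr k ∧ p.2.1 = Sum.inl b ∧
      h ∈ G k ∧ h b ≠ 0} : Set C(S, ℝ)) ≤ ℵ₀ := by
    rintro ⟨⟨p, hp⟩, ⟨q, hq⟩⟩
    rw [Cardinal.le_aleph0_iff_set_countable]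
    cases p with
    | inl s =>
      refine countable_empty.mono ?_
      rintro h ⟨k, b, h1, -⟩
      exact absurd h1 (by simp)
    | inr k =>
      cases q with
      | inr k' =>
        refine countable_empty.mono ?_
        rintro h ⟨k, b, -, h1, -⟩
        exact absurd h1 (by simp)
      | inl b =>
        refine (hG k b (Set.mem_univ b)).mono ?_
        rintro h ⟨k', b', h1, h2, h3, h4⟩
        have h1' : k = k' := Sum.inr.inj h1
        have h2' : b = b' := Sum.inl.inj h2
        subst h1' h2'
        exact ⟨h3, h4⟩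
  calc #(A × A) * (⨆ p : A × A, #({h | ∃ k b, p.1.1 = Sum.inr k ∧ p.2.1 = Sum.inl b ∧
      h ∈ G k ∧ h b ≠ 0} : Set C(S, ℝ))) ≤ (max #A ℵ₀) * (max #A ℵ₀) := by
        apply mul_le_mul'
        · have hAA : #(A × A) = #A * #A := by simp [Cardinal.mk_prod]
          rw [hAA]
          exact (mul_le_mul' (le_max_left _ _) (le_max_left _ _)).trans_eq
            (Cardinal.mul_eq_self (le_max_right _ _))
        · exact (ciSup_le' hb).trans (le_max_right _ _)
    _ = max #A ℵ₀ := Cardinal.mul_eq_self (le_max_right _ _)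

omit [CompactSpace K] [T2Space K] in
lemma Fs_card {Φ : S → Set C(K, ℝ)} (hΦ : ∀ s, (Φ s).Countable) (A : Set (S ⊕ K)) :
    #(Fs Φ A) ≤ max #A ℵ₀ := by
  have hsub : Fs Φ A ⊆ ⋃ p : A, {h | ∃ b, p.1 = Sum.inl b ∧ h ∈ Φ b} := by
    rintro h ⟨b, hb, hne⟩
    exact mem_iUnion.2 ⟨⟨_, hb⟩, b, rfl, hne⟩
  refine (Cardinal.mk_le_mk_of_subset hsub).trans ((Cardinal.mk_iUnion_le _).trans ?_)
  have hb : ∀ p : A, #({h | ∃ b, p.1 = Sum.inl b ∧ h ∈ Φ b} : Set C(K, ℝ)) ≤ ℵ₀ := by
    rintro ⟨p, hp⟩
    rw [Cardinal.le_aleph0_iff_set_countable]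
    cases p with
    | inr s =>
      refine countable_empty.mono ?_
      rintro h ⟨b, h1, -⟩
      exact absurd h1 (by simp)
    | inl b =>
      refine (hΦ b).mono ?_
      rintro h ⟨b', h2, h3⟩
      have h2' : b = b' := Sum.inl.inj h2
      subst h2'
      exact h3
  calc #A * (⨆ p : A, #({h | ∃ b, p.1 = Sum.inl b ∧ h ∈ Φ b} : Set C(K, ℝ)))
      ≤ (max #A ℵ₀) * (max #A ℵ₀) := by
        apply mul_le_mul'
        · exact le_max_left _ _
        · exact (ciSup_le' hb).trans (le_max_right _ _)
    _ = max #A ℵ₀ := Cardinal.mul_eq_self (le_max_right _ _)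

omit [T2Space K] in
/-- closing off -/
theorem close_off [CompactSpace S] {G : K → Set C(S, ℝ)} (hG : ∀ k, PCon Set.univ (G k))
    {Φ : S → Set C(K, ℝ)} (hΦ : ∀ s, (Φ s).Countable) (Z : Set S) (A : Set (S ⊕ K)) :
    ∃ A', A ⊆ A' ∧ Pr G Φ A' ∧ #A' ≤ max #A ℵ₀ ∧ Dn (closure Z) (Bs A' ∩ Z) (Ms G A') := by
  classical
  choose C1 hC1Z hC1c hC1 using fun A : Set (S ⊕ K) => lemA Z (Ms G A)
  choose C2 hC2Z hC2c hC2 using fun A : Set (S ⊕ K) => lemA (Set.univ : Set S) (Ms G A)
  choose C3 hC3Z hC3c hC3 using fun A : Set (S ⊕ K) => lemA (Set.univ : Set K) (Fs Φ A)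
  let nxt : Set (S ⊕ K) → Set (S ⊕ K) := fun A =>
    (A ∪ Sum.inl '' (C1 A)) ∪ (Sum.inl '' (C2 A) ∪ Sum.inr '' (C3 A))
  have hnc : ∀ A, #(nxt A) ≤ max #A ℵ₀ := by
    intro A
    have hm : max #(Ms G A) ℵ₀ ≤ max #A ℵ₀ := max_le (Ms_card hG A) (le_max_right _ _)
    have hf : max #(Fs Φ A) ℵ₀ ≤ max #A ℵ₀ := max_le (Fs_card hΦ A) (le_max_right _ _)
    refine (Cardinal.mk_union_le _ _).trans (Cardinal.add_le_of_le (le_max_right _ _) ?_ ?_)
    · refine (Cardinal.mk_union_le _ _).trans (Cardinal.add_le_of_le (le_max_right _ _)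
        (le_max_left _ _) ?_)
      exact Cardinal.mk_image_le.trans ((hC1c A).trans hm)
    · refine (Cardinal.mk_union_le _ _).trans (Cardinal.add_le_of_le (le_max_right _ _) ?_ ?_)
      · exact Cardinal.mk_image_le.trans ((hC2c A).trans hm)
      · exact Cardinal.mk_image_le.trans ((hC3c A).trans hf)
  let a : ℕ → Set (S ⊕ K) := fun n => Nat.rec A (fun _ B => nxt B) n
  have ha : ∀ n, a (n + 1) = nxt (a n) := fun n => rfl
  have hamono : Monotone a := monotone_nat_of_le_succ fun n => by
    rw [ha]
    exact subset_union_left.trans subset_union_left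
  have hac : ∀ n, #(↥(a n)) ≤ max #A ℵ₀ := by
    intro n
    induction n with
    | zero => exact le_max_left _ _
    | succ n ih =>
      rw [ha]
      exact (hnc _).trans (max_le ih (le_max_right _ _))
  have hdn : ∀ n, Dn Set.univ (Bs (a (n + 1))) (Ms G (a n)) := by
    intro n x _
    obtain ⟨x', hx', hf⟩ := hC2 (a n) x (by rw [closure_univ]; exact Set.mem_univ x)
    refine ⟨x', closure_mono ?_ hx', hf⟩
    intro c hc
    show Sum.inl c ∈ a (n + 1)
    rw [ha]
    exact Or.inr (Or.inl ⟨c, hc, rfl⟩)
  have hdn3 : ∀ n, Dn Set.univ (Ls (a (n + 1))) (Fs Φ (a n)) := by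
    intro n x _
    obtain ⟨x', hx', hf⟩ := hC3 (a n) x (by rw [closure_univ]; exact Set.mem_univ x)
    refine ⟨x', closure_mono ?_ hx', hf⟩
    intro c hc
    show Sum.inr c ∈ a (n + 1)
    rw [ha]
    exact Or.inr (Or.inr ⟨c, hc, rfl⟩)
  have hdn1 : ∀ n, Dn (closure Z) (Bs (a (n + 1)) ∩ Z) (Ms G (a n)) := by
    intro n x hx
    obtain ⟨x', hx', hf⟩ := hC1 (a n) x hx
    refine ⟨x', closure_mono ?_ hx', hf⟩
    intro c hc
    refine ⟨?_, hC1Z _ hc⟩
    show Sum.inl c ∈ a (n + 1)
    rw [ha]
    exact Or.inl (Or.inr ⟨c, hc, rfl⟩)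
  refine ⟨⋃ n, a n, subset_iUnion a 0, ?_, ?_, ?_⟩
  · apply Pr_iUnion G Φ a (fun n => a (n + 1)) (fun n => hamono (Nat.le_succ n)) ?_ hdn hdn3
    intro i j
    exact ⟨max i j + 1, hamono (Nat.succ_le_succ (le_max_left _ _)),
      hamono (Nat.succ_le_succ (le_max_right _ _))⟩
  · refine (Cardinal.mk_iUnion_le _).trans ?_
    calc #ℕ * (⨆ n, #(↥(a n))) ≤ (max #A ℵ₀) * (max #A ℵ₀) := by
          apply mul_le_mul'
          · rw [Cardinal.mk_nat]
            exact le_max_right _ _
          · exact ciSup_le' hac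
      _ = max #A ℵ₀ := Cardinal.mul_eq_self (le_max_right _ _)
  · have := Dn_iUnion (Z := closure Z) (B := fun n => Bs (a (n + 1)) ∩ Z)
      (M := fun n => Ms G (a n)) (by
      intro i j
      refine ⟨max i j, ?_, ?_, Ms_mono G (hamono (le_max_left _ _)),
        Ms_mono G (hamono (le_max_right _ _))⟩
      · rintro b ⟨hb, hbZ⟩
        exact ⟨hamono (Nat.succ_le_succ (le_max_left _ _)) hb, hbZ⟩
      · rintro b ⟨hb, hbZ⟩
        exact ⟨hamono (Nat.succ_le_succ (le_max_right _ _)) hb, hbZ⟩) hdn1
    intro x hx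
    obtain ⟨x', hx', hf⟩ := this x hx
    refine ⟨x', closure_mono ?_ hx', ?_⟩
    · apply iUnion_subset
      rintro n b ⟨hb, hbZ⟩
      exact ⟨mem_iUnion.2 ⟨n + 1, hb⟩, hbZ⟩
    · rintro f ⟨k, hk, hfG, b, hb, hne⟩
      apply hf
      obtain ⟨i, hi⟩ := mem_iUnion.1 (show Sum.inr k ∈ ⋃ i, a i from hk)
      obtain ⟨j, hj⟩ := mem_iUnion.1 (show Sum.inl b ∈ ⋃ i, a i from hb)
      exact mem_iUnion.2 ⟨max i j, k, hamono (le_max_left _ _) hi, hfG, b,
        hamono (le_max_right _ _) hj, hne⟩

end System

theorem main_aux (hX : CompactsCorson X) (kap : Cardinal.{0}) :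
    ∀ (S : Type) [TopologicalSpace S] [CompactSpace S] [T2Space S] (ev : S → X × K → ℝ),
      Continuous ev → Function.Injective ev → (∀ s, Continuous (ev s)) →
      ∀ D : Set S, Dense D → #D = kap → CorsonOn (Set.univ : Set S) := by
  classical
  induction kap using WellFoundedLT.induction with
  | ind kap ih =>
    intro S _ _ _ ev hev hinj hc D hD hDk
    choose G hG1 hG2 using fun k : K => exists_gk hX ev hev hc k
    choose Φ hΦ1 hΦ2 using fun s : S => exists_phi hX (ev s) (hc s)
    have hgood : ∀ A, Pr G Φ A → Good (Bs A) (Ms G A) := by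
      intro A hA
      refine ⟨hA.1, ?_⟩
      intro f hf g hg hfg
      have h1 : ∀ l ∈ Ls A, ∀ x, ev f (x, l) = ev g (x, l) := by
        intro l hl
        apply hG2 l f g
        intro h hh
        by_cases hM : h ∈ Ms G A
        · exact hfg h hM
        · have hz : ∀ b ∈ Bs A, h b = 0 := by
            intro b hb
            by_contra hne
            exact hM ⟨l, hl, hh, b, hb, hne⟩
          rw [vanish_closure hz f hf, vanish_closure hz g hg]
      have h2 : ∀ l ∈ closure (Ls A), ∀ x, ev f (x, l) = ev g (x, l) := by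
        intro l hl x
        have hcl : IsClosed {l | ev f (x, l) = ev g (x, l)} :=
          isClosed_eq ((hc f).comp (continuous_const.prodMk continuous_id))
            ((hc g).comp (continuous_const.prodMk continuous_id))
        exact closure_minimal (fun l hl => h1 l hl x) hcl hl
      apply hinj
      funext ⟨x, k⟩
      obtain ⟨k', hk', hkk⟩ := hA.2 k (Set.mem_univ k)
      have h3 : ∀ b ∈ closure (Bs A), ev b (x, k') = ev b (x, k) := by
        intro b hb
        have hcl : IsClosed {b | ev b (x, k') = ev b (x, k)} :=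
          isClosed_eq ((continuous_apply (x, k')).comp hev) ((continuous_apply (x, k)).comp hev)
        refine closure_minimal (fun b hb => ?_) hcl hb
        exact hΦ2 b k k' (fun φ hφ => hkk φ ⟨b, hb, hφ⟩) x
      rw [← h3 f hf, ← h3 g hg]
      exact h2 k' hk' x
    have hct : CTight S := by
      intro Z f hf
      obtain ⟨A', hA, hP, hcard, hdn⟩ := close_off hG1 hΦ1 Z {Sum.inl f}
      obtain ⟨f', hf', hff⟩ := hdn f hf
      have h1 : f ∈ closure (Bs A') := subset_closure (hA rfl)
      have h2 : f' ∈ closure (Bs A') := closure_mono inter_subset_left hf'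
      have h3 : f' = f := (hgood A' hP).2 f' h2 f h1 hff
      refine ⟨Bs A' ∩ Z, inter_subset_right, ?_, h3 ▸ hf'⟩
      apply Countable.mono inter_subset_left
      have hA'c : A'.Countable := by
        rw [← Cardinal.le_aleph0_iff_set_countable]
        refine hcard.trans (max_le ?_ le_rfl)
        rw [Cardinal.mk_singleton]
        exact Cardinal.one_lt_aleph0.le
      exact hA'c.preimage Sum.inl_injective
    rcases le_or_gt kap ℵ₀ with hk | hk
    · obtain ⟨A', hA, hP, hcard, -⟩ := close_off hG1 hΦ1 ∅ (Sum.inl '' D : Set (S ⊕ K))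
      have hM : (Ms G A').Countable := by
        rw [← Cardinal.le_aleph0_iff_set_countable]
        refine (Ms_card hG1 A').trans (max_le ?_ le_rfl)
        refine hcard.trans (max_le ?_ le_rfl)
        exact Cardinal.mk_image_le.trans (hDk.le.trans hk)
      have hcl : closure (Bs A') = Set.univ := by
        apply Dense.closure_eq
        apply hD.mono
        intro d hd
        exact hA ⟨d, hd, rfl⟩
      refine ⟨Ms G A', fun x _ => hM.mono fun f hf => hf.1, ?_⟩
      have := (hgood A' hP).2
      rwa [hcl] at this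
    · obtain ⟨ι, hlo, hwf, hne, A, hmono, hP, hcard, hlim, hDA⟩ :=
        chain_exists (T := S ⊕ K) (kap := kap) ℵ₀ le_rfl hk (Pr G Φ) (by
          intro 𝒮 hne hchain hall
          have : Nonempty 𝒮 := hne.to_subtype
          rw [sUnion_eq_iUnion]
          apply Pr_iUnion G Φ (fun A : 𝒮 => A.1) (fun A : 𝒮 => A.1) (fun A => Subset.rfl) ?_
            (fun A => (hall A.1 A.2).1) (fun A => (hall A.1 A.2).2)
          intro i j
          rcases hchain.total i.2 j.2 with h | h
          · exact ⟨j, h, Subset.rfl⟩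
          · exact ⟨i, Subset.rfl, h⟩) (by
          intro A _
          obtain ⟨A', h1, h2, h3, -⟩ := close_off hG1 hΦ1 ∅ A
          exact ⟨A', h1, h2, h3⟩) (Sum.inl '' D) (Cardinal.mk_image_le.trans hDk.le)
      have hdense : Dense (⋃ i, Bs (A i)) := by
        apply hD.mono
        intro d hd
        obtain ⟨i, hi⟩ := mem_iUnion.1 (hDA ⟨d, hd, rfl⟩)
        exact mem_iUnion.2 ⟨i, hi⟩
      refine chain_lemma hct (fun i => Bs (A i)) (fun i => Ms G (A i))
        (fun i j hij b hb => hmono hij hb) (fun i j hij => Ms_mono G (hmono hij))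
        (fun i => hgood _ (hP i)) (fun i hi b hb => hlim i hi _ hb) ?_ hdense ?_ ?_
      · rintro i hi f ⟨k, hk, hfG, b, hb, hne⟩
        obtain ⟨j1, hj1, hk1⟩ := hlim i hi _ hk
        obtain ⟨j2, hj2, hb2⟩ := hlim i hi _ hb
        exact ⟨max j1 j2, max_lt hj1 hj2, k, hmono (le_max_left _ _) hk1, hfG, b,
          hmono (le_max_right _ _) hb2, hne⟩
      · have hPU : Pr G Φ (⋃ i, A i) := by
          apply Pr_iUnion G Φ A A (fun i => Subset.rfl) ?_ (fun i => (hP i).1) (fun i => (hP i).2)
          intro i j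
          exact ⟨max i j, hmono (le_max_left _ _), hmono (le_max_right _ _)⟩
        have h1 := (hgood _ hPU).2
        have hcl : closure (Bs (⋃ i, A i)) = Set.univ := by
          apply Dense.closure_eq
          apply hD.mono
          intro d hd
          exact hDA ⟨d, hd, rfl⟩
        rw [hcl] at h1
        intro f hf g hg hall
        apply h1 f hf g hg
        rintro h ⟨k, hk, hfG, b, hb, hne⟩
        obtain ⟨i, hi⟩ := mem_iUnion.1 (show Sum.inr k ∈ ⋃ i, A i from hk)
        obtain ⟨j, hj⟩ := mem_iUnion.1 (show Sum.inl b ∈ ⋃ i, A i from hb)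
        exact hall h (mem_iUnion.2 ⟨max i j, k, hmono (le_max_left _ _) hi, hfG, b,
          hmono (le_max_right _ _) hj, hne⟩)
      · intro i
        apply CorsonOn.of_subtype isClosed_closure
        have : CompactSpace (closure (Bs (A i))) :=
          isCompact_iff_compactSpace.1 isClosed_closure.isCompact
        let DY : Set (closure (Bs (A i))) := {y | y.1 ∈ Bs (A i)}
        have hDY : Dense DY := by
          intro y
          rw [closure_subtype]
          have : ((↑) : closure (Bs (A i)) → S) '' DY = Bs (A i) := by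
            ext x
            constructor
            · rintro ⟨y, hy, rfl⟩; exact hy
            · intro hx; exact ⟨⟨x, subset_closure hx⟩, hx, rfl⟩
          rw [this]; exact y.2
        have hcc : #DY ≤ #(A i) := by
          refine Cardinal.mk_le_of_injective (f := fun y : DY => (⟨Sum.inl y.1.1, y.2⟩ : A i)) ?_
          intro y z h
          have h' : (Sum.inl y.1.1 : S ⊕ K) = Sum.inl z.1.1 := congrArg (fun t : A i => t.1) h
          exact Subtype.ext (Subtype.ext (Sum.inl.inj h'))
        exact ih #DY (hcc.trans_lt (hcard i)) (closure (Bs (A i))) (fun s => ev s.1)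
          (hev.comp continuous_subtype_val) (fun a b h => Subtype.ext (hinj h)) (fun s => hc s.1)
          DY hDY rfl

end Main

end Pool.Agent.Helper102.CorsonXK
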