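import Pool.Agent.Helper102.XSpace

set_option autoImplicit false

namespace Pool.Agent.Helper102.Cover

open Set Topology
open Pool.Agent.Helper102.Ladder Pool.Agent.Helper102.IdxC Pool.Agent.Helper102.CantorBig
open Pool.Agent.Helper102.LSpace Pool.Agent.Helper102.PSpace Pool.Agent.Helper102.XSpace

section general

variable {Y : Type} [TopologicalSpace Y]

/-- `W` is covered by countably many closed sets each missing `A` or `B` -/
def Cov (A A' : Set Y) (W : Set Y) : Prop :=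
  ∃ E : Set (Set Y), E.Countable ∧ (∀ F ∈ E, IsClosed F ∧ (Disjoint F A ∨ Disjoint F A')) ∧ W ⊆ ⋃₀ E

theorem Cov.mono {A A' W W' : Set Y} (h : Cov A A' W) (hW : W' ⊆ W) : Cov A A' W' := by
  obtain ⟨E, h1, h2, h3⟩ := h
  exact ⟨E, h1, h2, hW.trans h3⟩

theorem Cov.symm {A A' W : Set Y} (h : Cov A A' W) : Cov A' A W := by
  obtain ⟨E, h1, h2, h3⟩ := h
  exact ⟨E, h1, fun F hF => ⟨(h2 F hF).1, (h2 F hF).2.symm⟩, h3⟩

theorem Cov.iUnion {ι : Type} [Countable ι] {A A' : Set Y} {W : ι → Set Y}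
    (h : ∀ i, Cov A A' (W i)) : Cov A A' (⋃ i, W i) := by
  choose E h1 h2 h3 using h
  refine ⟨⋃ i, E i, countable_iUnion h1, ?_, ?_⟩
  · intro F hF
    obtain ⟨i, hi⟩ := mem_iUnion.1 hF
    exact h2 i F hi
  · intro y hy
    obtain ⟨i, hi⟩ := mem_iUnion.1 hy
    obtain ⟨F, hF, hyF⟩ := h3 i hi
    exact ⟨F, mem_iUnion.2 ⟨i, hF⟩, hyF⟩

theorem Cov.biUnion {ι : Type} {K : Set ι} (hK : K.Countable) {A A' : Set Y} {W : ι → Set Y}
    (h : ∀ i ∈ K, Cov A A' (W i)) : Cov A A' (⋃ i ∈ K, W i) := by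
  have := hK.to_subtype
  have h1 : Cov A A' (⋃ i : K, W i.1) := Cov.iUnion fun i => h i.1 i.2
  exact h1.mono (by
    intro y hy
    obtain ⟨i, hi, hy⟩ := mem_iUnion₂.1 hy
    exact mem_iUnion.2 ⟨⟨i, hi⟩, hy⟩)

theorem Cov.union {A A' W W' : Set Y} (h : Cov A A' W) (h' : Cov A A' W') :
    Cov A A' (W ∪ W') := by
  obtain ⟨E, h1, h2, h3⟩ := h
  obtain ⟨E', h1', h2', h3'⟩ := h'
  refine ⟨E ∪ E', h1.union h1', ?_, ?_⟩
  · rintro F (hF | hF)
    · exact h2 F hF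
    · exact h2' F hF
  · rintro y (hy | hy)
    · obtain ⟨F, hF, hy⟩ := h3 hy
      exact ⟨F, Or.inl hF, hy⟩
    · obtain ⟨F, hF, hy⟩ := h3' hy
      exact ⟨F, Or.inr hF, hy⟩

theorem Cov.of_closed {A A' W : Set Y} (hW : IsClosed W) (h : Disjoint W A ∨ Disjoint W A') :
    Cov A A' W :=
  ⟨{W}, countable_singleton W, by rintro F rfl; exact ⟨hW, h⟩, by simp⟩

theorem Cov.gdelta {A A' : Set Y} (h : Cov A A' univ) :
    ∃ U V : Set Y, IsGδ U ∧ IsGδ V ∧ A ⊆ U ∧ A' ⊆ V ∧ Disjoint U V := by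
  obtain ⟨E, h1, h2, h3⟩ := h
  refine ⟨⋂ F ∈ {F ∈ E | Disjoint F A}, Fᶜ, ⋂ F ∈ {F ∈ E | Disjoint F A'}, Fᶜ, ?_, ?_, ?_, ?_, ?_⟩
  · exact IsGδ.biInter (h1.mono fun F hF => hF.1) fun F hF => (h2 F hF.1).1.isOpen_compl.isGδ
  · exact IsGδ.biInter (h1.mono fun F hF => hF.1) fun F hF => (h2 F hF.1).1.isOpen_compl.isGδ
  · refine subset_iInter₂ fun F hF => ?_
    exact fun a ha h => Set.disjoint_left.1 hF.2 h ha
  · refine subset_iInter₂ fun F hF => ?_
    exact fun a ha h => Set.disjoint_left.1 hF.2 h ha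
  · rw [Set.disjoint_left]
    intro p hp hp'
    obtain ⟨F, hF, hpF⟩ := h3 (mem_univ p)
    rcases (h2 F hF).2 with h | h
    · exact (mem_iInter₂.1 hp F ⟨hF, h⟩) hpF
    · exact (mem_iInter₂.1 hp' F ⟨hF, h⟩) hpF

end general

/-- closed discrete pieces -/
theorem cov_discrete {Z K : Type} [TopologicalSpace Z] [TopologicalSpace K] [NormalSpace K]
    {A A' : Set (Z × K)} (hA : IsClosed A) (hA' : IsClosed A') (hd : Disjoint A A')
    (D : Set Z) (hD : IsClosed D) (hO : ∀ z ∈ D, ∃ O, IsOpen O ∧ z ∈ O ∧ O ∩ D ⊆ {z}) :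
    Cov A A' (D ×ˢ univ) := by
  have hch : ∀ z : Z, ∃ U V : Set K, IsOpen U ∧ IsOpen V ∧ {k | (z, k) ∈ A} ⊆ U ∧
      {k | (z, k) ∈ A'} ⊆ V ∧ Disjoint U V := by
    intro z
    have hc : Continuous fun k : K => (z, k) := by fun_prop
    refine normal_separation (hA.preimage hc) (hA'.preimage hc) ?_
    rw [Set.disjoint_left]
    intro k h1 h2
    exact Set.disjoint_left.1 hd h1 h2
  choose U V hU hV hAU hAV hUV using hch
  have hclosed : ∀ W : Z → Set K, (∀ z, IsOpen (W z)) →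
      IsClosed {p : Z × K | p.1 ∈ D ∧ p.2 ∉ W p.1} := by
    intro W hW
    rw [← isOpen_compl_iff, isOpen_iff_mem_nhds]
    rintro ⟨z, k⟩ hzk
    by_cases hz : z ∈ D
    · obtain ⟨O, hOo, hzO, hOD⟩ := hO z hz
      have hk : k ∈ W z := by
        by_contra hcon
        exact hzk ⟨hz, hcon⟩
      refine Filter.mem_of_superset ((hOo.prod (hW z)).mem_nhds ⟨hzO, hk⟩) ?_
      rintro ⟨z', k'⟩ ⟨h1, h2⟩ ⟨h3, h4⟩
      have : z' = z := hOD ⟨h1, h3⟩
      subst this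
      exact h4 h2
    · refine Filter.mem_of_superset ((hD.isOpen_compl.prod isOpen_univ).mem_nhds ⟨hz, mem_univ k⟩) ?_
      rintro ⟨z', k'⟩ ⟨h1, -⟩ ⟨h3, -⟩
      exact h1 h3
  have h1 : Cov A A' {p : Z × K | p.1 ∈ D ∧ p.2 ∉ U p.1} := by
    refine Cov.of_closed (hclosed U hU) (Or.inl ?_)
    rw [Set.disjoint_left]
    rintro ⟨z, k⟩ ⟨h1, h2⟩ h3
    exact h2 (hAU z h3)
  have h2 : Cov A A' {p : Z × K | p.1 ∈ D ∧ p.2 ∉ V p.1} := by
    refine Cov.of_closed (hclosed V hV) (Or.inr ?_)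
    rw [Set.disjoint_left]
    rintro ⟨z, k⟩ ⟨h1, h2⟩ h3
    exact h2 (hAV z h3)
  refine (h1.union h2).mono ?_
  rintro ⟨z, k⟩ ⟨hz, -⟩
  by_cases hk : k ∈ U z
  · exact Or.inr ⟨hz, fun h => Set.disjoint_left.1 (hUV z) hk h⟩
  · exact Or.inl ⟨hz, hk⟩

/-- padded finite sequences -/
def pad (l : List Bool) : C := fun i => l.getD i false

theorem exists_pad (z : C) (k : ℕ) : ∃ l : List Bool, l.length = k ∧ agr k z (pad l) := by
  refine ⟨List.ofFn (fun i : Fin k => z i), by simp, ?_⟩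
  intro i hi
  simp [pad, List.getD_eq_getElem?_getD, hi]

/-- parts of `L` determined by location -/
def El (l : List Bool) : Set X := {p : X | ∃ α, p = ell α ∧ agr l.length (pad l) (x α)}

theorem isClosed_El (l : List Bool) : IsClosed (El l) := isClosed_cyl _ _

theorem exists_El {A : Set I} {α : I} (h : x α ∉ closure (x '' A)) :
    ∃ l, ell α ∈ El l ∧ ∀ β ∈ A, ell β ∉ El l := by
  rw [mem_closure_agr] at h
  push Not at h
  obtain ⟨k, hk⟩ := h
  obtain ⟨l, hl, hag⟩ := exists_pad (x α) k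
  refine ⟨l, ⟨α, rfl, by rw [hl]; exact agr_symm hag⟩, ?_⟩
  rintro β hβ ⟨γ, he, hγ⟩
  obtain rfl := ell_inj he
  rw [hl] at hγ
  exact hk _ ⟨β, hβ, rfl⟩ (agr_trans hag hγ)

/-- closed images of `L` -/
theorem cov_L {Y : Type} [TopologicalSpace Y] [T1Space Y] {A A' : Set Y} (hA : IsClosed A)
    (hA' : IsClosed A') (hd : Disjoint A A') (h : X → Y) (hc : Continuous h)
    (hcl : ∀ F : Set X, IsClosed F → IsClosed (h '' F)) : Cov A A' (h '' range ell) := by
  let D : Set I := {α | h (ell α) ∈ A}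
  let D' : Set I := {α | h (ell α) ∈ A'}
  have hD : IsClosed (ell '' D) := by
    have : ell '' D = range ell ∩ h ⁻¹' A := by
      ext p; constructor
      · rintro ⟨α, hα, rfl⟩
        exact ⟨⟨α, rfl⟩, hα⟩
      · rintro ⟨⟨α, rfl⟩, hα⟩
        exact ⟨α, hα, rfl⟩
    rw [this]
    exact isClosed_L.inter (hA.preimage hc)
  have hD' : IsClosed (ell '' D') := by
    have : ell '' D' = range ell ∩ h ⁻¹' A' := by
      ext p; constructor
      · rintro ⟨α, hα, rfl⟩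
        exact ⟨⟨α, rfl⟩, hα⟩
      · rintro ⟨⟨α, rfl⟩, hα⟩
        exact ⟨α, hα, rfl⟩
    rw [this]
    exact isClosed_L.inter (hA'.preimage hc)
  have hdis : Disjoint D D' := by
    rw [Set.disjoint_left]
    intro α h1 h2
    exact Set.disjoint_left.1 hd h1 h2
  have hK := sep_cl D D' hD hD' hdis
  have hK' : {α : I | x α ∈ closure (x '' D) ∩ closure (x '' D')}.Countable :=
    hK.preimage_of_injOn x_inj.injOn
  have h1 : Cov A A' (⋃ l ∈ {l : List Bool | ∀ β ∈ D, ell β ∉ El l}, h '' El l) := by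
    refine Cov.biUnion (to_countable _) fun l hl => ?_
    refine Cov.of_closed (hcl _ (isClosed_El l)) (Or.inl ?_)
    rw [Set.disjoint_left]
    rintro _ ⟨p, hp, rfl⟩ hpA
    obtain ⟨α, rfl, -⟩ := id hp
    exact hl α hpA hp
  have h2 : Cov A A' (⋃ l ∈ {l : List Bool | ∀ β ∈ D', ell β ∉ El l}, h '' El l) := by
    refine Cov.biUnion (to_countable _) fun l hl => ?_
    refine Cov.of_closed (hcl _ (isClosed_El l)) (Or.inr ?_)
    rw [Set.disjoint_left]
    rintro _ ⟨p, hp, rfl⟩ hpA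
    obtain ⟨α, rfl, -⟩ := id hp
    exact hl α hpA hp
  have h3 : Cov A A' (⋃ α ∈ {α : I | x α ∈ closure (x '' D) ∩ closure (x '' D')}, {h (ell α)}) := by
    refine Cov.biUnion hK' fun α _ => ?_
    refine Cov.of_closed isClosed_singleton ?_
    by_cases ha : h (ell α) ∈ A
    · right
      rw [disjoint_singleton_left]
      exact fun hb => Set.disjoint_left.1 hd ha hb
    · left
      rw [disjoint_singleton_left]
      exact ha
  refine ((h1.union h2).union h3).mono ?_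
  rintro _ ⟨_, ⟨α, rfl⟩, rfl⟩
  by_cases ha : x α ∈ closure (x '' D)
  · by_cases hb : x α ∈ closure (x '' D')
    · exact Or.inr (mem_biUnion (show α ∈ {α : I | x α ∈ closure (x '' D) ∩ closure (x '' D')} from
        ⟨ha, hb⟩) rfl)
    · obtain ⟨l, hl, hl'⟩ := exists_El hb
      exact Or.inl (Or.inr (mem_biUnion (show l ∈ {l : List Bool | ∀ β ∈ D', ell β ∉ El l} from hl')
        ⟨_, hl, rfl⟩))
  · obtain ⟨l, hl, hl'⟩ := exists_El ha
    exact Or.inl (Or.inl (mem_biUnion (show l ∈ {l : List Bool | ∀ β ∈ D, ell β ∉ El l} from hl')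
      ⟨_, hl, rfl⟩))

theorem fin_pip {K : Set X} (hK : IsCompact K) : {ξ : I | pip ξ ∈ K}.Finite := by
  refine hK.induction_on (p := fun s => {ξ : I | pip ξ ∈ s}.Finite) (by simp) ?_ ?_ ?_
  · intro s t hst ht
    exact ht.subset fun ξ hξ => hst hξ
  · intro s t hs ht
    exact (hs.union ht).subset fun ξ hξ => hξ
  · intro p _
    rcases xcases p with ⟨n, rfl⟩ | ⟨α, rfl⟩ | ⟨ξ, rfl⟩
    · refine ⟨{nu n}, mem_nhdsWithin_of_mem_nhds ((isOpen_singleton_nt n).mem_nhds rfl), ?_⟩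
      refine finite_empty.subset ?_
      intro ξ hξ
      exact pip_ne_nu _ _ hξ
    · refine ⟨B lad (Sum.inl α) 0, mem_nhdsWithin_of_mem_nhds ((isOpen_B _ 0).mem_nhds (self_mem _ _)), ?_⟩
      refine finite_empty.subset ?_
      intro ξ hξ
      exact pip_memB hξ
    · refine ⟨B lad (Sum.inr ξ) 0, mem_nhdsWithin_of_mem_nhds ((isOpen_B _ 0).mem_nhds (self_mem _ _)), ?_⟩
      refine (finite_singleton ξ).subset ?_
      intro η hη
      exact pip_memP hη

end Pool.Agent.Helper102.Cover
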