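import Pool.Agent.Helper102.Cover

set_option autoImplicit false

namespace Pool.Agent.Helper102.CoverMain

open Set Topology OnePoint
open Pool.Agent.Helper102.Ladder Pool.Agent.Helper102.IdxC Pool.Agent.Helper102.CantorBig
open Pool.Agent.Helper102.LSpace Pool.Agent.Helper102.PSpace Pool.Agent.Helper102.XSpace
open Pool.Agent.Helper102.Cover

/-- the product space -/
abbrev Y : Type := X × OnePoint X

/-- closed subsets missing infinity lie in the diagonal and countably many lines -/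
theorem small_rel {A : Set Y} (hA : IsClosed A) {F : Set X} (hF : IsClosed F)
    (hinf : ∀ p ∈ F, (p, (∞ : OnePoint X)) ∉ A) :
    ∃ K : Set C, K.Countable ∧ ∀ p ∈ closure {p : C × C | ∃ α β, ell α ∈ F ∧
      (ell α, (ell β : OnePoint X)) ∈ A ∧ p = (x α, x β)}, p.1 = p.2 ∨ p.1 ∈ K ∨ p.2 ∈ K := by
  set Q : Set (C × C) := {p : C × C | ∃ α β, ell α ∈ F ∧
      (ell α, (ell β : OnePoint X)) ∈ A ∧ p = (x α, x β)} with hQ
  by_cases hne : Q.Nonempty
  swap
  · rw [not_nonempty_iff_eq_empty] at hne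
    rw [hne]
    exact ⟨∅, countable_empty, by simp⟩
  obtain ⟨D, hDQ, hDc, hDd⟩ := TopologicalSpace.IsSeparable.exists_countable_dense_subset
    (TopologicalSpace.IsSeparable.of_separableSpace Q)
  have hDne : D.Nonempty := by
    obtain ⟨a, ha⟩ := hne
    exact closure_nonempty_iff.1 ⟨_, hDd ha⟩
  obtain ⟨u', hu'⟩ := hDc.exists_eq_range hDne
  have hch : ∀ n, ∃ α β, ell α ∈ F ∧ (ell α, (ell β : OnePoint X)) ∈ A ∧ u' n = (x α, x β) := by
    intro n
    have : u' n ∈ D := by rw [hu']; exact ⟨n, rfl⟩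
    obtain ⟨α, β, h1, h2, h3⟩ := hDQ this
    exact ⟨α, β, h1, h2, h3⟩
  choose u v h1 h2 h3 using hch
  have hr : (range fun n => (x (u n), x (v n))) = D := by
    rw [hu']
    congr 1
    ext n : 1
    exact (h3 n).symm
  have hcl : closure Q ⊆ closure (range fun n => (x (u n), x (v n))) := by
    rw [hr]
    exact closure_minimal hDd isClosed_closure
  by_contra hcon
  have hcon' : ¬ ∃ K : Set C, K.Countable ∧
      ∀ p ∈ closure (range fun n => (x (u n), x (v n))), p.1 = p.2 ∨ p.1 ∈ K ∨ p.2 ∈ K := by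
    rintro ⟨K, hK, hK'⟩
    exact hcon ⟨K, hK, fun p hp => hK' p (hcl hp)⟩
  obtain ⟨α, n, hn⟩ := task0 u v hcon'
  have hαF : ell α ∈ F := by
    rw [← hF.closure_eq]
    exact mem_closure_pt.2 fun m => ⟨_, (hn m).1, h1 _⟩
  refine hinf _ hαF ?_
  rw [← hA.closure_eq, mem_closure_iff_nhds]
  intro W hW
  rw [nhds_prod_eq, Filter.mem_prod_iff] at hW
  obtain ⟨V, hV, V', hV', hVW⟩ := hW
  obtain ⟨m, -, hm⟩ := (nhds_pt (lad := lad) (Sum.inl α)).mem_iff.1 hV
  obtain ⟨K, ⟨hKc, hK⟩, hKV⟩ := hasBasis_nhds_infty.mem_iff.1 hV'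
  -- the second coordinates leave the compact set
  have hleave : ∃ k0, ∀ k ≥ k0, ell (v (n k)) ∉ K := by
    refine hK.induction_on (p := fun s => ∃ k0, ∀ k ≥ k0, ell (v (n k)) ∉ s) ⟨0, by simp⟩ ?_ ?_ ?_
    · rintro s t hst ⟨k0, hk0⟩
      exact ⟨k0, fun k hk h => hk0 k hk (hst h)⟩
    · rintro s t ⟨k0, hk0⟩ ⟨k1, hk1⟩
      refine ⟨max k0 k1, fun k hk h => ?_⟩
      rcases h with h | h
      · exact hk0 k ((le_max_left _ _).trans hk) h
      · exact hk1 k ((le_max_right _ _).trans hk) h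
    · intro p _
      rcases xcases p with ⟨j, rfl⟩ | ⟨δ, rfl⟩ | ⟨ξ, rfl⟩
      · exact ⟨{nu j}, mem_nhdsWithin_of_mem_nhds ((isOpen_singleton_nt j).mem_nhds rfl), 0,
          fun k _ h => ell_ne_nu _ _ h⟩
      · obtain ⟨j, hj⟩ := exists_not_agr (x_ne_y δ α)
        refine ⟨B lad (Sum.inl δ) j, mem_nhdsWithin_of_mem_nhds
          ((isOpen_B _ j).mem_nhds (self_mem _ _)), j, fun k hk h => ?_⟩
        have h4 : agr j (x δ) (x (v (n k))) := B_loc (ell_memB.1 h)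
        exact hj j le_rfl (agr_trans h4 (agr_symm (agr_mono hk (hn k).2)))
      · exact ⟨B lad (Sum.inr ξ) 0, mem_nhdsWithin_of_mem_nhds
          ((isOpen_B _ 0).mem_nhds (self_mem _ _)), 0, fun k _ h => ell_memP h⟩
  obtain ⟨k0, hk0⟩ := hleave
  let k := max k0 m
  refine ⟨(ell (u (n k)), (ell (v (n k)) : OnePoint X)), hVW ⟨?_, ?_⟩, h2 _⟩
  · exact hm (B_anti (le_max_right _ _) (hn k).1)
  · exact hKV (Or.inl ⟨_, hk0 k (le_max_left _ _), rfl⟩)

theorem count_pip {A : Set Y} (hA : IsClosed A) {F : Set X} (hF : IsClosed F)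
    (hinf : ∀ p ∈ F, (p, (∞ : OnePoint X)) ∉ A) :
    {ξ : I | ∃ α, ell α ∈ F ∧ (ell α, (pip ξ : OnePoint X)) ∈ A}.Countable := by
  set P0 : Set I := {ξ : I | ∃ α, ell α ∈ F ∧ (ell α, (pip ξ : OnePoint X)) ∈ A} with hP0
  have hloc : ∀ p ∈ F, ∃ V ∈ 𝓝 p, {ξ : I | ∃ α, ell α ∈ V ∧ (ell α, (pip ξ : OnePoint X)) ∈ A}.Finite := by
    intro p hp
    have h1 : Aᶜ ∈ 𝓝 (p, (∞ : OnePoint X)) := hA.isOpen_compl.mem_nhds (hinf p hp)
    rw [nhds_prod_eq, Filter.mem_prod_iff] at h1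
    obtain ⟨V, hV, V', hV', hVW⟩ := h1
    obtain ⟨K, ⟨hKc, hK⟩, hKV⟩ := hasBasis_nhds_infty.mem_iff.1 hV'
    refine ⟨V, hV, (fin_pip hK).subset ?_⟩
    rintro ξ ⟨α, hα, hξ⟩
    by_contra hcon
    exact hVW (show (ell α, (pip ξ : OnePoint X)) ∈ V ×ˢ V' from
      ⟨hα, hKV (Or.inl ⟨_, hcon, rfl⟩)⟩) hξ
  have hch : ∀ ξ : P0, ∃ α, ell α ∈ F ∧ (ell α, (pip ξ.1 : OnePoint X)) ∈ A := fun ξ => ξ.2
  choose a ha1 ha2 using hch
  have hD : (range a).Countable := by
    refine extent (range a) fun p => ?_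
    by_cases hp : p ∈ F
    · obtain ⟨V, hV, hfin⟩ := hloc p hp
      refine ⟨V, hV, ?_⟩
      have hfin' : {ξ : P0 | ell (a ξ) ∈ V}.Finite := by
        refine Finite.of_finite_image (f := Subtype.val) (hfin.subset ?_) Subtype.val_injective.injOn
        rintro _ ⟨ξ, hξ, rfl⟩
        exact ⟨a ξ, hξ, ha2 ξ⟩
      refine (hfin'.image a).subset ?_
      rintro _ ⟨⟨ξ, rfl⟩, hξ⟩
      exact ⟨ξ, hξ, rfl⟩
    · refine ⟨Fᶜ, hF.isOpen_compl.mem_nhds hp, finite_empty.subset ?_⟩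
      rintro _ ⟨⟨ξ, rfl⟩, hξ⟩
      exact hξ (ha1 ξ)
  have hcov : P0 ⊆ ⋃ α ∈ range a, {ξ : I | (ell α, (pip ξ : OnePoint X)) ∈ A} := by
    intro ξ hξ
    exact mem_biUnion ⟨⟨ξ, hξ⟩, rfl⟩ (ha2 ⟨ξ, hξ⟩)
  refine (hD.biUnion ?_).mono hcov
  rintro _ ⟨ξ, rfl⟩
  obtain ⟨V, hV, hfin⟩ := hloc _ (ha1 ξ)
  refine (hfin.subset ?_).countable
  intro η hη
  exact ⟨_, mem_of_mem_nhds hV, hη⟩

theorem closed_inf_union {G : Set X} (hG : IsClosed G) :
    IsClosed (insert (∞ : OnePoint X) ((↑) '' G)) := by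
  rw [isClosed_iff_of_mem (mem_insert _ _)]
  have : ((↑) : X → OnePoint X) ⁻¹' (insert (∞ : OnePoint X) ((↑) '' G)) = G := by
    ext p; simp
  rw [this]
  exact hG

theorem cov_F {A A' : Set Y} (hA : IsClosed A) (hA' : IsClosed A') (hd : Disjoint A A')
    {F : Set X} (hF : IsClosed F) (hFL : F ⊆ range ell)
    (hinf : ∀ p ∈ F, (p, (∞ : OnePoint X)) ∉ A) : Cov A A' (F ×ˢ univ) := by
  obtain ⟨K, hK, hK'⟩ := small_rel hA hF hinf
  have hP0 := count_pip hA hF hinf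
  set P0 : Set I := {ξ : I | ∃ α, ell α ∈ F ∧ (ell α, (pip ξ : OnePoint X)) ∈ A} with hP0def
  have hKx : {α : I | x α ∈ K}.Countable := hK.preimage_of_injOn x_inj.injOn
  -- diagonal
  have c1 : Cov A A' ((fun p : X => (p, (p : OnePoint X))) '' range ell) := by
    refine cov_L hA hA' hd _ (continuous_id.prodMk continuous_coe) ?_
    intro E hE
    have : (fun p : X => (p, (p : OnePoint X))) '' E =
        {q : Y | (q.1 : OnePoint X) = q.2} ∩ (Prod.fst ⁻¹' E) := by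
      ext ⟨p, q⟩
      constructor
      · rintro ⟨p', hp', he⟩
        simp only [Prod.mk.injEq] at he
        obtain ⟨rfl, rfl⟩ := he
        exact ⟨rfl, hp'⟩
      · rintro ⟨h1, h2⟩
        exact ⟨p, h2, by simp only [Prod.mk.injEq, true_and]; exact h1⟩
    rw [this]
    refine IsClosed.inter ?_ (hE.preimage continuous_fst)
    exact isClosed_eq (continuous_coe.comp continuous_fst) continuous_snd
  -- vertical lines
  have c2 : Cov A A' (⋃ α ∈ {α : I | x α ∈ K}, ({ell α} : Set X) ×ˢ (univ : Set (OnePoint X))) := by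
    refine Cov.biUnion hKx fun α _ => ?_
    refine cov_discrete hA hA' hd _ isClosed_singleton ?_
    rintro z rfl
    exact ⟨univ, isOpen_univ, mem_univ _, inter_subset_right⟩
  -- horizontal lines
  have hline : ∀ y0 : OnePoint X, Cov A A' ((fun p : X => (p, y0)) '' range ell) := by
    intro y0
    refine cov_L hA hA' hd _ (by fun_prop) ?_
    intro E hE
    have : (fun p : X => (p, y0)) '' E = E ×ˢ ({y0} : Set (OnePoint X)) := by
      ext ⟨p, q⟩
      constructor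
      · rintro ⟨p', hp', he⟩
        simp only [Prod.mk.injEq] at he
        obtain ⟨rfl, rfl⟩ := he
        exact ⟨hp', rfl⟩
      · rintro ⟨h1, h2⟩
        exact ⟨p, h1, by simp only [Prod.mk.injEq, true_and]; exact h2.symm⟩
    rw [this]
    exact hE.prod isClosed_singleton
  have c3 : Cov A A' (⋃ n : ℕ, (fun p : X => (p, (nu n : OnePoint X))) '' range ell) :=
    Cov.iUnion fun n => hline _
  have c4 : Cov A A' (⋃ ξ ∈ P0, (fun p : X => (p, (pip ξ : OnePoint X))) '' range ell) :=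
    Cov.biUnion hP0 fun ξ _ => hline _
  have c5 : Cov A A' (⋃ β ∈ {β : I | x β ∈ K}, (fun p : X => (p, (ell β : OnePoint X))) '' range ell) :=
    Cov.biUnion hKx fun β _ => hline _
  -- infinity and the other points of the second kind
  have c6 : Cov A A' (F ×ˢ (insert (∞ : OnePoint X) ((↑) '' (pip '' P0ᶜ)))) := by
    refine Cov.of_closed (hF.prod (closed_inf_union (isClosed_subP _))) (Or.inl ?_)
    rw [Set.disjoint_left]
    rintro ⟨p, q⟩ ⟨hp, hq⟩ hpA
    rcases hq with hq | ⟨_, ⟨ξ, hξ, rfl⟩, hq⟩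
    · simp only at hp hq
      rw [hq] at hpA
      exact hinf p hp hpA
    · simp only at hp hq
      obtain ⟨α, rfl⟩ := hFL hp
      rw [← hq] at hpA
      exact hξ ⟨α, hp, hpA⟩
  -- boxes
  have c7 : Cov A A' (⋃ ll ∈ {ll : List Bool × List Bool | ∀ α β, ell α ∈ F → ell α ∈ El ll.1 →
      ell β ∈ El ll.2 → (ell α, (ell β : OnePoint X)) ∉ A},
      (F ∩ El ll.1) ×ˢ (insert (∞ : OnePoint X) ((↑) '' (El ll.2)))) := by
    refine Cov.biUnion (to_countable _) fun ll hll => ?_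
    refine Cov.of_closed ((hF.inter (isClosed_El _)).prod (closed_inf_union (isClosed_El _)))
      (Or.inl ?_)
    rw [Set.disjoint_left]
    rintro ⟨p, q⟩ ⟨⟨hp, hpE⟩, hq⟩ hpA
    simp only at hp hpE
    rcases hq with hq | ⟨q', hq', hq⟩
    · simp only at hq
      rw [hq] at hpA
      exact hinf p hp hpA
    · simp only at hq
      obtain ⟨α, rfl⟩ := hFL hp
      rw [← hq] at hpA
      obtain ⟨β, rfl, -⟩ := id hq'
      exact hll α β hp hpE hq' hpA
  refine ((c1.union c2).union ((c3.union c4).union (c5.union (c6.union c7)))).mono ?_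
  rintro ⟨p, q⟩ ⟨hp, -⟩
  simp only at hp
  obtain ⟨α, rfl⟩ := hFL hp
  induction q using OnePoint.rec with
  | infty => exact Or.inr (Or.inr (Or.inr (Or.inl ⟨hp, mem_insert _ _⟩)))
  | coe q =>
    rcases xcases q with ⟨n, rfl⟩ | ⟨β, rfl⟩ | ⟨ξ, rfl⟩
    · exact Or.inr (Or.inl (Or.inl (mem_iUnion.2 ⟨n, ⟨ell α, ⟨α, rfl⟩, rfl⟩⟩)))
    · by_cases hcl : (x α, x β) ∈ closure {p : C × C | ∃ α β, ell α ∈ F ∧
          (ell α, (ell β : OnePoint X)) ∈ A ∧ p = (x α, x β)}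
      · rcases hK' _ hcl with h | h | h
        · have : α = β := x_inj h
          subst this
          exact Or.inl (Or.inl ⟨ell α, ⟨α, rfl⟩, rfl⟩)
        · exact Or.inl (Or.inr (mem_biUnion (show α ∈ {α : I | x α ∈ K} from h) ⟨rfl, mem_univ _⟩))
        · exact Or.inr (Or.inr (Or.inl (mem_biUnion (show β ∈ {β : I | x β ∈ K} from h)
            ⟨ell α, ⟨α, rfl⟩, rfl⟩)))
      · rw [mem_closure_agr2] at hcl
        push Not at hcl
        obtain ⟨k, hk⟩ := hcl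
        obtain ⟨l, hl, hag⟩ := exists_pad (x α) k
        obtain ⟨l', hl', hag'⟩ := exists_pad (x β) k
        refine Or.inr (Or.inr (Or.inr (Or.inr (mem_biUnion (x := (l, l')) ?_ ⟨⟨hp, ?_⟩, ?_⟩))))
        · intro γ δ hγ hγl hδl hmem
          obtain ⟨γ', he, hγ'⟩ := hγl
          obtain rfl := ell_inj he
          obtain ⟨δ', he', hδ'⟩ := hδl
          obtain rfl := ell_inj he'
          simp only [hl, hl'] at hγ' hδ'
          exact hk (x γ, x δ) ⟨γ, δ, hγ, hmem, rfl⟩ (agr_trans hag hγ') (agr_trans hag' hδ')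
        · exact ⟨α, rfl, by simp only [hl]; exact agr_symm hag⟩
        · exact Or.inr ⟨_, ⟨β, rfl, by simp only [hl']; exact agr_symm hag'⟩, rfl⟩
    · by_cases hξ : ξ ∈ P0
      · exact Or.inr (Or.inl (Or.inr (mem_biUnion hξ ⟨ell α, ⟨α, rfl⟩, rfl⟩)))
      · exact Or.inr (Or.inr (Or.inr (Or.inl ⟨hp, Or.inr ⟨_, ⟨ξ, hξ, rfl⟩, rfl⟩⟩)))

theorem cov_univ {A A' : Set Y} (hA : IsClosed A) (hA' : IsClosed A') (hd : Disjoint A A') :
    Cov A A' univ := by
  have c1 : Cov A A' (⋃ n : ℕ, ({nu n} : Set X) ×ˢ (univ : Set (OnePoint X))) := by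
    refine Cov.iUnion fun n => ?_
    refine cov_discrete hA hA' hd _ isClosed_singleton ?_
    rintro z rfl
    exact ⟨univ, isOpen_univ, mem_univ _, inter_subset_right⟩
  have c2 : Cov A A' (range pip ×ˢ (univ : Set (OnePoint X))) := by
    refine cov_discrete hA hA' hd _ isClosed_P ?_
    rintro _ ⟨ξ, rfl⟩
    refine ⟨B lad (Sum.inr ξ) 0, isOpen_B _ _, self_mem _ _, ?_⟩
    rintro _ ⟨hη, ⟨η, rfl⟩⟩
    rw [pip_memP hη]
    rfl
  -- the part at infinity
  have hcinf : Continuous fun p : X => (p, (∞ : OnePoint X)) := by fun_prop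
  let D : Set I := {α | (ell α, (∞ : OnePoint X)) ∈ A}
  let D' : Set I := {α | (ell α, (∞ : OnePoint X)) ∈ A'}
  have hD : IsClosed (ell '' D) := by
    have : ell '' D = range ell ∩ (fun p : X => (p, (∞ : OnePoint X))) ⁻¹' A := by
      ext p; constructor
      · rintro ⟨α, hα, rfl⟩
        exact ⟨⟨α, rfl⟩, hα⟩
      · rintro ⟨⟨α, rfl⟩, hα⟩
        exact ⟨α, hα, rfl⟩
    rw [this]
    exact isClosed_L.inter (hA.preimage hcinf)
  have hD' : IsClosed (ell '' D') := by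
    have : ell '' D' = range ell ∩ (fun p : X => (p, (∞ : OnePoint X))) ⁻¹' A' := by
      ext p; constructor
      · rintro ⟨α, hα, rfl⟩
        exact ⟨⟨α, rfl⟩, hα⟩
      · rintro ⟨⟨α, rfl⟩, hα⟩
        exact ⟨α, hα, rfl⟩
    rw [this]
    exact isClosed_L.inter (hA'.preimage hcinf)
  have hdis : Disjoint D D' := by
    rw [Set.disjoint_left]
    intro α h1 h2
    exact Set.disjoint_left.1 hd h1 h2
  have hK := sep_cl D D' hD hD' hdis
  have hK' : {α : I | x α ∈ closure (x '' D) ∩ closure (x '' D')}.Countable :=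
    hK.preimage_of_injOn x_inj.injOn
  have hElL : ∀ l, El l ⊆ range ell := by
    rintro l _ ⟨α, rfl, -⟩
    exact ⟨α, rfl⟩
  have c3 : Cov A A' (⋃ l ∈ {l : List Bool | ∀ β ∈ D, ell β ∉ El l},
      El l ×ˢ (univ : Set (OnePoint X))) := by
    refine Cov.biUnion (to_countable _) fun l hl => ?_
    refine cov_F hA hA' hd (isClosed_El l) (hElL l) ?_
    intro p hp hpA
    obtain ⟨α, rfl, -⟩ := id hp
    exact hl α hpA hp
  have c4 : Cov A A' (⋃ l ∈ {l : List Bool | ∀ β ∈ D', ell β ∉ El l},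
      El l ×ˢ (univ : Set (OnePoint X))) := by
    refine Cov.biUnion (to_countable _) fun l hl => ?_
    refine (cov_F hA' hA hd.symm (isClosed_El l) (hElL l) ?_).symm
    intro p hp hpA
    obtain ⟨α, rfl, -⟩ := id hp
    exact hl α hpA hp
  have c5 : Cov A A' (⋃ α ∈ {α : I | x α ∈ closure (x '' D) ∩ closure (x '' D')},
      ({ell α} : Set X) ×ˢ (univ : Set (OnePoint X))) := by
    refine Cov.biUnion hK' fun α _ => ?_
    refine cov_discrete hA hA' hd _ isClosed_singleton ?_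
    rintro z rfl
    exact ⟨univ, isOpen_univ, mem_univ _, inter_subset_right⟩
  refine ((c1.union c2).union (c3.union (c4.union c5))).mono ?_
  rintro ⟨p, q⟩ -
  rcases xcases p with ⟨n, rfl⟩ | ⟨α, rfl⟩ | ⟨ξ, rfl⟩
  · exact Or.inl (Or.inl (mem_iUnion.2 ⟨n, rfl, mem_univ _⟩))
  · by_cases ha : x α ∈ closure (x '' D)
    · by_cases hb : x α ∈ closure (x '' D')
      · exact Or.inr (Or.inr (Or.inr (mem_biUnion
          (show α ∈ {α : I | x α ∈ closure (x '' D) ∩ closure (x '' D')} from ⟨ha, hb⟩)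
          ⟨rfl, mem_univ _⟩)))
      · obtain ⟨l, hl, hl'⟩ := exists_El hb
        exact Or.inr (Or.inr (Or.inl (mem_biUnion
          (show l ∈ {l : List Bool | ∀ β ∈ D', ell β ∉ El l} from hl') ⟨hl, mem_univ _⟩)))
    · obtain ⟨l, hl, hl'⟩ := exists_El ha
      exact Or.inr (Or.inl (mem_biUnion
        (show l ∈ {l : List Bool | ∀ β ∈ D, ell β ∉ El l} from hl') ⟨hl, mem_univ _⟩))
  · exact Or.inl (Or.inr ⟨⟨ξ, rfl⟩, mem_univ _⟩)

end Pool.Agent.Helper102.CoverMain
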