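import Mathlib

set_option autoImplicit false

namespace Pool.Agent.Helper102.IdxC

open Set Cardinal

/-- index type of order type the initial ordinal of the continuum -/
abbrev I : Type := (Cardinal.continuum.{0}).ord.ToType

theorem mk_I : #I = 𝔠 := mk_ord_toType _

theorem mk_Iio_lt' (i : I) : #(Iio i) < 𝔠 := by
  have := mk_Iio_lt (α := I) i (by simp)
  rwa [mk_I] at this

theorem mk_Iic_lt' (i : I) : #(Iic i) < 𝔠 := by
  have h : Iic i = insert i (Iio i) := by
    ext x; simp [le_iff_eq_or_lt]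
  rw [h]
  refine lt_of_le_of_lt (mk_insert_le) ?_
  exact add_lt_of_lt aleph0_le_continuum (mk_Iio_lt' i) (lt_of_lt_of_le one_lt_aleph0 aleph0_le_continuum)

theorem bdd_countable (s : Set I) (hs : s.Countable) : ∃ x, ∀ y ∈ s, y < x := by
  rw [← not_isCofinal_iff]
  intro hc
  have h1 : Order.cof I ≤ #s := Order.cof_le hc
  have h2 : #s ≤ ℵ₀ := hs.le_aleph0
  have h3 : ℵ₀ < Order.cof I := by
    have h4 := lt_cof_ord_power (a := ℵ₀) (b := 2) le_rfl one_lt_two
    rw [two_power_aleph0] at h4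
    have h5 : Order.cof I = (Cardinal.continuum.{0}).ord.cof := Ordinal.cof_toType _
    rw [h5]
    exact h4
  exact absurd (h1.trans h2) (not_le.2 h3)

theorem exists_rec {T : Type} (Q : (i : I) → ((j : I) → j < i → T) → T → Prop)
    (h : ∀ i f, ∃ t, Q i f t) : ∃ F : I → T, ∀ i, Q i (fun j _ => F j) (F i) := by
  classical
  let F : I → T := (wellFounded_lt (α := I)).fix (fun i f => Classical.choose (h i f))
  refine ⟨F, fun i => ?_⟩
  have hF : F i = Classical.choose (h i (fun j _ => F j)) := by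
    change (wellFounded_lt (α := I)).fix (fun i f => Classical.choose (h i f)) i = _
    rw [WellFounded.fix_eq]
  rw [hF]
  exact Classical.choose_spec (h i (fun j _ => F j))

theorem exists_enum (T : Type) [Nonempty T] (hT : #T ≤ 𝔠) :
    ∃ e : I → T, ∀ t, ∀ x : I, 𝔠 ≤ #{i | e i = t ∧ x < i} := by
  have h1 : #(T × I) = #I := by
    rw [mk_prod, lift_id, lift_id, mk_I]
    refine mul_eq_right aleph0_le_continuum hT ?_
    exact mk_ne_zero T
  obtain ⟨φ⟩ := Cardinal.eq.1 h1
  refine ⟨fun i => (φ.symm i).1, fun t x => ?_⟩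
  by_contra hlt
  rw [not_le] at hlt
  -- the whole fibre
  have hfib : 𝔠 ≤ #{i | (φ.symm i).1 = t} := by
    rw [← mk_I]
    refine mk_le_of_injective (f := fun i : I => (⟨φ (t, i), by simp⟩ : {i | (φ.symm i).1 = t})) ?_
    intro a b hab
    simp only [Subtype.mk.injEq, EmbeddingLike.apply_eq_iff_eq, Prod.mk.injEq, true_and] at hab
    exact hab
  have hsub : {i | (φ.symm i).1 = t} ⊆ {i | (φ.symm i).1 = t ∧ x < i} ∪ Iic x := by
    intro i hi
    by_cases hx : x < i
    · exact Or.inl ⟨hi, hx⟩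
    · exact Or.inr (not_lt.1 hx)
  have := (mk_le_mk_of_subset hsub).trans (mk_union_le _ _)
  exact absurd (hfib.trans this) (not_le.2 (add_lt_of_lt aleph0_le_continuum hlt (mk_Iic_lt' x)))

end Pool.Agent.Helper102.IdxC
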