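import Pool.Agent.Helper102.Ladder
import Pool.Agent.Helper102.IdxC
import Pool.Agent.Helper102.CantorBig

set_option autoImplicit false

namespace Pool.Agent.Helper102.LSpace

open Set Cardinal Topology
open Pool.Agent.Helper102.Ladder Pool.Agent.Helper102.IdxC Pool.Agent.Helper102.CantorBig

/-- tasks -/
abbrev Task : Type := Fin 3 × (ℕ → C × C)

/-- target set of a task -/
def tgt (t : Task) : Set (C × C) :=
  {p | (t.1 = 0 → p ∈ closure (range t.2)) ∧
    (t.1 = 1 → p.1 ∈ closure (range fun n => (t.2 n).1) ∧ p.1 ∈ closure (range fun n => (t.2 n).2)) ∧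
    (t.1 = 2 → p.2 ∈ closure (range fun n => (t.2 n).1))}

/-- big sets of pairs -/
def Big (F : Set (C × C)) : Prop :=
  ∀ Z : Set C, #Z < 𝔠 → ∃ p ∈ F, p.1 ∉ Z ∧ p.2 ∉ Z ∧ p.1 ≠ p.2

theorem not_countable_univ : ¬ (univ : Set C).Countable := by
  intro h
  have h1 : #(univ : Set C) ≤ ℵ₀ := h.le_aleph0
  have h2 : #(univ : Set C) = 𝔠 := by simp
  rw [h2] at h1
  exact absurd h1 (not_le.2 aleph0_lt_continuum)

theorem exists_new (Z : Set C) (hZ : #Z < 𝔠) : ∃ x, x ∉ Z := by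
  obtain ⟨x, -, hx⟩ := one_dim univ isClosed_univ not_countable_univ Z hZ
  exact ⟨x, hx⟩

theorem insert_lt {Z : Set C} (hZ : #Z < 𝔠) (x : C) : #(insert x Z : Set C) < 𝔠 := by
  refine lt_of_le_of_lt mk_insert_le ?_
  exact add_lt_of_lt aleph0_le_continuum hZ (lt_of_lt_of_le one_lt_aleph0 aleph0_le_continuum)

theorem union_lt {Z Z' : Set C} (hZ : #Z < 𝔠) (hZ' : #Z' < 𝔠) : #(Z ∪ Z' : Set C) < 𝔠 :=
  lt_of_le_of_lt (mk_union_le _ _) (add_lt_of_lt aleph0_le_continuum hZ hZ')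

theorem big0 (D : ℕ → C × C)
    (h : ¬ ∃ K : Set C, K.Countable ∧ ∀ p ∈ closure (range D), p.1 = p.2 ∨ p.1 ∈ K ∨ p.2 ∈ K) :
    Big (tgt (0, D)) := by
  intro Z hZ
  obtain ⟨p, hp, h1, h2, h3⟩ := two_dim _ isClosed_closure h Z hZ
  exact ⟨p, ⟨fun _ => hp, fun h => by simp at h, fun h => by simp at h⟩, h1, h2, h3⟩

theorem big1 (D : ℕ → C × C)
    (h : ¬ (closure (range fun n => (D n).1) ∩ closure (range fun n => (D n).2)).Countable) :
    Big (tgt (1, D)) := by
  intro Z hZ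
  obtain ⟨a, ha, haZ⟩ := one_dim _ (isClosed_closure.inter isClosed_closure) h Z hZ
  obtain ⟨b, hb⟩ := exists_new _ (insert_lt hZ a)
  simp only [mem_insert_iff, not_or] at hb
  exact ⟨(a, b), ⟨fun h => by simp at h, fun _ => ha, fun h => by simp at h⟩, haZ, hb.2,
    fun h => hb.1 h.symm⟩

theorem big2 (D : ℕ → C × C) (h : ¬ (closure (range fun n => (D n).1)).Countable) :
    Big (tgt (2, D)) := by
  intro Z hZ
  obtain ⟨b, hb, hbZ⟩ := one_dim _ isClosed_closure h Z hZ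
  obtain ⟨a, ha⟩ := exists_new _ (insert_lt hZ b)
  simp only [mem_insert_iff, not_or] at ha
  exact ⟨(a, b), ⟨fun h => by simp at h, fun h => by simp at h, fun _ => hb⟩, ha.2, hbZ, ha.1⟩

theorem mk_task : #Task ≤ 𝔠 := by
  have h1 : #(C × C) = 𝔠 := by simp
  have h2 : #(ℕ → C × C) = 𝔠 := by
    rw [← power_def, h1]
    simp
  rw [mk_prod, lift_id, lift_id, h2]
  refine mul_le_of_le aleph0_le_continuum ?_ le_rfl
  simp only [mk_fin]
  exact (natCast_lt_aleph0 (n := 3)).le.trans aleph0_le_continuum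

/-- the enumeration of tasks -/
noncomputable def T : I → Task := Classical.choose (exists_enum Task mk_task)

theorem T_spec (t : Task) (x : I) : 𝔠 ≤ #{i | T i = t ∧ x < i} :=
  Classical.choose_spec (exists_enum Task mk_task) t x

theorem T_exists (t : Task) (x : I) : ∃ i, T i = t ∧ x < i := by
  by_contra hcon
  push Not at hcon
  have h := T_spec t x
  have : {i | T i = t ∧ x < i} = ∅ := by
    ext i
    simp only [mem_ofPred_eq, mem_empty_iff_false, iff_false, not_and, not_lt]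
    exact hcon i
  rw [this] at h
  simp only [mk_emptyCollection, nonpos_iff_eq_zero] at h
  exact absurd h continuum_ne_zero

theorem exists_xy : ∃ F : I → C × C, ∀ i, ((F i).1 ≠ (F i).2 ∧
    (∀ j, j < i → (F i).1 ≠ (F j).1 ∧ (F i).1 ≠ (F j).2 ∧ (F i).2 ≠ (F j).1 ∧ (F i).2 ≠ (F j).2) ∧
    (Big (tgt (T i)) → F i ∈ tgt (T i))) := by
  refine exists_rec (T := C × C) (fun i f t => (t.1 ≠ t.2 ∧
    (∀ j, ∀ h : j < i, t.1 ≠ (f j h).1 ∧ t.1 ≠ (f j h).2 ∧ t.2 ≠ (f j h).1 ∧ t.2 ≠ (f j h).2) ∧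
    (Big (tgt (T i)) → t ∈ tgt (T i)))) ?_
  intro i f
  let Z : Set C := range (fun j : Iio i => (f j.1 j.2).1) ∪ range (fun j : Iio i => (f j.1 j.2).2)
  have hZ : #Z < 𝔠 := union_lt (lt_of_le_of_lt mk_range_le (mk_Iio_lt' i))
    (lt_of_le_of_lt mk_range_le (mk_Iio_lt' i))
  have hin : ∀ t : C × C, t.1 ∉ Z → t.2 ∉ Z → (∀ j, ∀ h : j < i, t.1 ≠ (f j h).1 ∧
      t.1 ≠ (f j h).2 ∧ t.2 ≠ (f j h).1 ∧ t.2 ≠ (f j h).2) := by
    intro t h1 h2 j h
    refine ⟨fun he => h1 (Or.inl ⟨⟨j, h⟩, he.symm⟩), fun he => h1 (Or.inr ⟨⟨j, h⟩, he.symm⟩),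
      fun he => h2 (Or.inl ⟨⟨j, h⟩, he.symm⟩), fun he => h2 (Or.inr ⟨⟨j, h⟩, he.symm⟩)⟩
  by_cases hb : Big (tgt (T i))
  · obtain ⟨p, hp, h1, h2, h3⟩ := hb Z hZ
    exact ⟨p, h3, hin p h1 h2, fun _ => hp⟩
  · obtain ⟨a, ha⟩ := exists_new Z hZ
    obtain ⟨b, hb'⟩ := exists_new _ (insert_lt hZ a)
    simp only [mem_insert_iff, not_or] at hb'
    exact ⟨(a, b), fun h => hb'.1 h.symm, hin (a, b) ha hb'.2, fun h => absurd h hb⟩

/-- the chosen pairs -/
noncomputable def xy : I → C × C := Classical.choose exists_xy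
theorem xy_spec (i : I) : ((xy i).1 ≠ (xy i).2 ∧
    (∀ j, j < i → (xy i).1 ≠ (xy j).1 ∧ (xy i).1 ≠ (xy j).2 ∧ (xy i).2 ≠ (xy j).1 ∧
      (xy i).2 ≠ (xy j).2) ∧
    (Big (tgt (T i)) → xy i ∈ tgt (T i))) := Classical.choose_spec exists_xy i

/-- location of the point `i` -/
noncomputable def x (i : I) : C := (xy i).1
/-- forbidden real -/
noncomputable def y (i : I) : C := (xy i).2

theorem x_inj : Function.Injective x := by
  intro i j h
  rcases lt_trichotomy i j with hlt | he | hlt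
  · exact absurd h.symm ((xy_spec j).2.1 i hlt).1
  · exact he
  · exact absurd h ((xy_spec i).2.1 j hlt).1

theorem y_inj : Function.Injective y := by
  intro i j h
  rcases lt_trichotomy i j with hlt | he | hlt
  · exact absurd h.symm ((xy_spec j).2.1 i hlt).2.2.2
  · exact he
  · exact absurd h ((xy_spec i).2.1 j hlt).2.2.2

theorem x_ne_y (i j : I) : x i ≠ y j := by
  intro h
  rcases lt_trichotomy i j with hlt | he | hlt
  · exact ((xy_spec j).2.1 i hlt).2.2.1 h.symm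
  · subst he
    exact (xy_spec i).1 h
  · exact ((xy_spec i).2.1 j hlt).2.1 h

theorem xy_mem {i : I} (h : Big (tgt (T i))) : (x i, y i) ∈ tgt (T i) := (xy_spec i).2.2 h

/-- positions of the isolated points -/
noncomputable def pos (n : ℕ) : C :=
  fun i => ((Encodable.decode (α := ℕ × List Bool) n).getD (0, [])).2.getD i false

theorem pos_dense (z : C) (k N : ℕ) : ∃ n, N ≤ n ∧ agr k z (pos n) := by
  let l : List Bool := List.ofFn (fun i : Fin k => z i)
  let g : ℕ → ℕ := fun m => Encodable.encode ((m, l) : ℕ × List Bool)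
  have hg : Function.Injective g := by
    intro a b hab
    have := Encodable.encode_injective hab
    exact (Prod.mk.inj this).1
  obtain ⟨n, ⟨m, rfl⟩, hn⟩ := (infinite_range_of_injective hg).exists_gt N
  refine ⟨g m, hn.le, ?_⟩
  intro i hi
  simp only [pos, g, Encodable.encodek]
  simp [l, List.getD_eq_getElem?_getD, hi]

/-- location -/
noncomputable def loc : ℕ ⊕ I → C := Sum.elim pos x

/-- the requirements on the ladder at `α` -/
def LadSpec (α : I) (a : ℕ → ℕ ⊕ I) : Prop :=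
  (∀ k n, a k = Sum.inl n → k ≤ n) ∧ (∀ k β, a k = Sum.inr β → β < α) ∧
  (∀ k, agr k (x α) (loc (a k))) ∧
  (∀ D, T α = (0, D) → Big (tgt (0, D)) → (∀ n, ∃ β < α, x β = (D n).1) →
    ∀ k, ∃ n β, a k = Sum.inr β ∧ x β = (D n).1 ∧ agr k (y α) (D n).2) ∧
  (∀ D, T α = (1, D) → Big (tgt (1, D)) →
    (∀ n, (∃ β < α, x β = (D n).1) ∧ ∃ β < α, x β = (D n).2) →
    ∀ k, (∃ n β, a (2 * k) = Sum.inr β ∧ x β = (D n).1) ∧
      ∃ n β, a (2 * k + 1) = Sum.inr β ∧ x β = (D n).2)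

theorem exists_lad (α : I) : ∃ a, LadSpec α a := by
  classical
  by_cases h0 : ∃ D, T α = (0, D) ∧ Big (tgt (0, D)) ∧ (∀ n, ∃ β < α, x β = (D n).1)
  · obtain ⟨D, hT, hB, hβ⟩ := h0
    have hmem := xy_mem (i := α) (by rw [hT]; exact hB)
    rw [hT] at hmem
    have hcl : (x α, y α) ∈ closure (range D) := hmem.1 rfl
    rw [mem_closure_agr2] at hcl
    have hch : ∀ k, ∃ n β, β < α ∧ x β = (D n).1 ∧ agr k (x α) (x β) ∧ agr k (y α) (D n).2 := by
      intro k
      obtain ⟨q, ⟨n, rfl⟩, h1, h2⟩ := hcl k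
      obtain ⟨β, hβα, hx⟩ := hβ n
      exact ⟨n, β, hβα, hx, by rw [hx]; exact h1, h2⟩
    choose nn bb h1 h2 h3 h4 using hch
    refine ⟨fun k => Sum.inr (bb k), ?_, ?_, ?_, ?_, ?_⟩
    · intro k n h; simp at h
    · intro k β h
      obtain rfl := Sum.inr_injective h
      exact h1 k
    · intro k; exact h3 k
    · intro D' hT' _ _ k
      rw [hT] at hT'
      obtain rfl := (Prod.mk.inj hT').2
      exact ⟨nn k, bb k, rfl, h2 k, h4 k⟩
    · intro D' hT'
      rw [hT] at hT'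
      exact absurd (Prod.mk.inj hT').1 (by decide)
  by_cases h1 : ∃ D, T α = (1, D) ∧ Big (tgt (1, D)) ∧
      (∀ n, (∃ β < α, x β = (D n).1) ∧ ∃ β < α, x β = (D n).2)
  · obtain ⟨D, hT, hB, hβ⟩ := h1
    have hmem := xy_mem (i := α) (by rw [hT]; exact hB)
    rw [hT] at hmem
    have hcl := hmem.2.1 rfl
    have hcl1 := hcl.1
    have hcl2 := hcl.2
    rw [mem_closure_agr] at hcl1 hcl2
    have hch1 : ∀ k, ∃ n β, β < α ∧ x β = (D n).1 ∧ agr k (x α) (x β) := by
      intro k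
      obtain ⟨q, ⟨n, rfl⟩, h1⟩ := hcl1 k
      obtain ⟨β, hβα, hx⟩ := (hβ n).1
      exact ⟨n, β, hβα, hx, by rw [hx]; exact h1⟩
    have hch2 : ∀ k, ∃ n β, β < α ∧ x β = (D n).2 ∧ agr k (x α) (x β) := by
      intro k
      obtain ⟨q, ⟨n, rfl⟩, h1⟩ := hcl2 k
      obtain ⟨β, hβα, hx⟩ := (hβ n).2
      exact ⟨n, β, hβα, hx, by rw [hx]; exact h1⟩
    choose n1 b1 p1 q1 r1 using hch1
    choose n2 b2 p2 q2 r2 using hch2
    refine ⟨fun k => Sum.inr (if k % 2 = 0 then b1 k else b2 k), ?_, ?_, ?_, ?_, ?_⟩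
    · intro k n h; simp at h
    · intro k β h
      obtain rfl := Sum.inr_injective h
      split_ifs
      · exact p1 k
      · exact p2 k
    · intro k
      change agr k (x α) (x (if k % 2 = 0 then b1 k else b2 k))
      split_ifs
      · exact r1 k
      · exact r2 k
    · intro D' hT'
      rw [hT] at hT'
      exact absurd (Prod.mk.inj hT').1 (by decide)
    · intro D' hT' _ _ k
      rw [hT] at hT'
      obtain rfl := (Prod.mk.inj hT').2
      refine ⟨⟨n1 (2*k), b1 (2*k), ?_, q1 _⟩, ⟨n2 (2*k+1), b2 (2*k+1), ?_, q2 _⟩⟩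
      · simp
      · simp [Nat.add_mod]
  · have hch : ∀ k, ∃ n, k ≤ n ∧ agr k (x α) (pos n) := fun k => pos_dense (x α) k k
    choose nn hn1 hn2 using hch
    refine ⟨fun k => Sum.inl (nn k), ?_, ?_, ?_, ?_, ?_⟩
    · intro k n h
      obtain rfl := Sum.inl_injective h
      exact hn1 k
    · intro k β h; simp at h
    · intro k; exact hn2 k
    · intro D hT hB hβ
      exact absurd ⟨D, hT, hB, hβ⟩ h0
    · intro D hT hB hβ
      exact absurd ⟨D, hT, hB, hβ⟩ h1

/-- the ladder system -/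
noncomputable def lad0 (α : I) : ℕ → ℕ ⊕ I := Classical.choose (exists_lad α)
theorem lad0_spec (α : I) : LadSpec α (lad0 α) := Classical.choose_spec (exists_lad α)

theorem B_loc {α : I} {m : ℕ} {q : ℕ ⊕ I} (h : Mem lad0 α m q) : agr m (x α) (loc q) := by
  induction h with
  | self j m => exact agr_refl _ _
  | nat j m k n hk hl =>
      have := (lad0_spec j).2.2.1 k
      rw [hl] at this
      exact agr_mono hk this
  | step j m k i q hk hl hm ih =>
      have := (lad0_spec j).2.2.1 k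
      rw [hl] at this
      exact agr_mono hk (agr_trans this ih)

theorem good0 : IsGood lad0 where
  ex_wf := ⟨(· < ·), wellFounded_lt, fun j k i h => (lad0_spec j).2.1 k i h⟩
  nat_le := fun j k n h => (lad0_spec j).1 k n h
  sep := by
    intro i j hij
    obtain ⟨m, hm⟩ := exists_not_agr (fun h => hij (x_inj h) : x i ≠ x j)
    refine ⟨m, ?_⟩
    rw [Set.disjoint_left]
    intro q h1 h2
    exact hm m le_rfl (agr_trans (B_loc h1) (agr_symm (B_loc h2)))

end Pool.Agent.Helper102.LSpace
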