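import Mathlib

set_option autoImplicit false

namespace Pool.Agent.Helper102.Ladder

open Set Topology

universe u

variable {J : Type u}

/-- membership in the basic neighbourhoods of a ladder space on `ℕ ⊕ J` -/
inductive Mem (lad : J → ℕ → ℕ ⊕ J) : J → ℕ → (ℕ ⊕ J) → Prop
  | self (j : J) (m : ℕ) : Mem lad j m (Sum.inr j)
  | nat (j : J) (m k n : ℕ) : m ≤ k → lad j k = Sum.inl n → Mem lad j m (Sum.inl n)
  | step (j : J) (m k : ℕ) (i : J) (q : ℕ ⊕ J) :
      m ≤ k → lad j k = Sum.inr i → Mem lad i k q → Mem lad j m q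

/-- the underlying set of the ladder space -/
def Sp (_lad : J → ℕ → ℕ ⊕ J) : Type u := ℕ ⊕ J

variable (lad : J → ℕ → ℕ ⊕ J)

/-- isolated point -/
def nt (n : ℕ) : Sp lad := (Sum.inl n : ℕ ⊕ J)
/-- ladder point -/
def pt (j : J) : Sp lad := (Sum.inr j : ℕ ⊕ J)

/-- basic neighbourhood -/
def B (j : J) (m : ℕ) : Set (Sp lad) := {q | Mem lad j m q}

variable {lad}

theorem cases' (x : Sp lad) : (∃ n, x = nt lad n) ∨ ∃ j, x = pt lad j := by
  rcases x with n | j
  · exact Or.inl ⟨n, rfl⟩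
  · exact Or.inr ⟨j, rfl⟩

theorem nt_inj {n m : ℕ} (h : nt lad n = nt lad m) : n = m := Sum.inl_injective h
theorem pt_inj {i j : J} (h : pt lad i = pt lad j) : i = j := Sum.inr_injective h
theorem nt_ne_pt (n : ℕ) (j : J) : nt lad n ≠ pt lad j := fun h => by
  have : (Sum.inl n : ℕ ⊕ J) = Sum.inr j := h
  simp at this
theorem pt_ne_nt (n : ℕ) (j : J) : pt lad j ≠ nt lad n := fun h => nt_ne_pt n j h.symm

theorem self_mem (j : J) (m : ℕ) : pt lad j ∈ B lad j m := Mem.self j m

theorem Mem.mono {j : J} {m m' : ℕ} (h : m ≤ m') {q : ℕ ⊕ J} (hq : Mem lad j m' q) :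
    Mem lad j m q := by
  cases hq with
  | self => exact Mem.self j m
  | nat _ _ k n hk hl => exact Mem.nat j m k n (h.trans hk) hl
  | step _ _ k i _ hk hl hm => exact Mem.step j m k i q (h.trans hk) hl hm

theorem B_anti {j : J} {m m' : ℕ} (h : m ≤ m') : B lad j m' ⊆ B lad j m :=
  fun _ hq => Mem.mono h hq

instance : TopologicalSpace (Sp lad) where
  IsOpen U := ∀ j : J, pt lad j ∈ U → ∃ m, B lad j m ⊆ U
  isOpen_univ := fun j _ => ⟨0, fun _ _ => trivial⟩
  isOpen_inter := by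
    intro U V hU hV j hj
    obtain ⟨m, hm⟩ := hU j hj.1
    obtain ⟨m', hm'⟩ := hV j hj.2
    exact ⟨max m m', fun q hq => ⟨hm (B_anti (le_max_left _ _) hq), hm' (B_anti (le_max_right _ _) hq)⟩⟩
  isOpen_sUnion := by
    intro S hS j hj
    obtain ⟨U, hU, hjU⟩ := hj
    obtain ⟨m, hm⟩ := hS U hU j hjU
    exact ⟨m, fun q hq => ⟨U, hU, hm hq⟩⟩

theorem isOpen_iff {U : Set (Sp lad)} : IsOpen U ↔ ∀ j : J, pt lad j ∈ U → ∃ m, B lad j m ⊆ U :=
  Iff.rfl

theorem isOpen_B (j : J) (m : ℕ) : IsOpen (B lad j m) := by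
  rw [isOpen_iff]
  intro i hi
  have key : ∀ (j : J) (m : ℕ) (q : ℕ ⊕ J), Mem lad j m q → ∀ i, q = Sum.inr i →
      ∃ m', ∀ p, Mem lad i m' p → Mem lad j m p := by
    intro j m q hq
    induction hq with
    | self j m =>
        intro i hi
        obtain rfl := Sum.inr_injective hi
        exact ⟨m, fun p hp => hp⟩
    | nat j m k n hk hl => intro i hi; simp at hi
    | step j m k i' q hk hl hm ih =>
        intro i hi
        obtain ⟨m', hm'⟩ := ih i hi
        exact ⟨m', fun p hp => Mem.step j m k i' p hk hl (hm' p hp)⟩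
  obtain ⟨m', hm'⟩ := key j m _ hi i rfl
  exact ⟨m', fun p hp => hm' p hp⟩

theorem isOpen_of_subset_nt {U : Set (Sp lad)} (h : ∀ j, pt lad j ∉ U) : IsOpen U := by
  rw [isOpen_iff]
  intro j hj
  exact absurd hj (h j)

theorem isOpen_singleton_nt (n : ℕ) : IsOpen ({nt lad n} : Set (Sp lad)) :=
  isOpen_of_subset_nt fun j h => pt_ne_nt n j h

theorem nhds_pt (j : J) : (𝓝 (pt lad j)).HasBasis (fun _ : ℕ => True) (fun m => B lad j m) := by
  constructor
  intro t
  rw [mem_nhds_iff]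
  constructor
  · rintro ⟨U, hUt, hU, hj⟩
    obtain ⟨m, hm⟩ := (isOpen_iff.1 hU) j hj
    exact ⟨m, trivial, hm.trans hUt⟩
  · rintro ⟨m, -, hm⟩
    exact ⟨B lad j m, hm, isOpen_B j m, self_mem j m⟩

theorem mem_closure_pt {j : J} {S : Set (Sp lad)} :
    pt lad j ∈ closure S ↔ ∀ m, (B lad j m ∩ S).Nonempty := by
  rw [mem_closure_iff_nhds_basis (nhds_pt j)]
  constructor
  · intro h m
    obtain ⟨q, hq, hq'⟩ := h m trivial
    exact ⟨q, hq', hq⟩
  · intro h m _
    obtain ⟨q, hq, hq'⟩ := h m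
    exact ⟨q, hq', hq⟩

/-- the good ladder systems -/
structure IsGood (lad : J → ℕ → ℕ ⊕ J) : Prop where
  ex_wf : ∃ r : J → J → Prop, WellFounded r ∧ ∀ j k i, lad j k = Sum.inr i → r i j
  nat_le : ∀ j k n, lad j k = Sum.inl n → k ≤ n
  sep : ∀ i j : J, i ≠ j → ∃ m, Disjoint (B lad i m) (B lad j m)

theorem nat_part (hn : ∀ j k n, lad j k = Sum.inl n → k ≤ n) {j : J} {m n : ℕ}
    (h : nt lad n ∈ B lad j m) : m ≤ n := by
  have key : ∀ (j : J) (m : ℕ) (q : ℕ ⊕ J), Mem lad j m q → ∀ n, q = Sum.inl n → m ≤ n := by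
    intro j m q hq
    induction hq with
    | self j m => intro n hn; simp at hn
    | nat j m k n hk hl =>
        intro n' hn'
        obtain rfl := Sum.inl_injective hn'
        exact hk.trans (hn _ _ _ hl)
    | step j m k i' q hk hl hm ih =>
        intro n' hn'
        exact hk.trans (ih n' hn')
  exact key j m _ h n rfl

theorem B_decomp (j : J) (m : ℕ) (q : Sp lad) (hq : q ∈ B lad j m) : q = pt lad j ∨
    ∃ k, m ≤ k ∧ ((∃ n, lad j k = Sum.inl n ∧ q = nt lad n) ∨
      ∃ i, lad j k = Sum.inr i ∧ q ∈ B lad i k) := by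
  change Mem lad j m q at hq
  cases hq with
  | self => exact Or.inl rfl
  | nat _ _ k n hk hl => exact Or.inr ⟨k, hk, Or.inl ⟨n, hl, rfl⟩⟩
  | step _ _ k i _ hk hl hm => exact Or.inr ⟨k, hk, Or.inr ⟨i, hl, hm⟩⟩

theorem isCompact_B (hg : IsGood lad) (j : J) (m : ℕ) : IsCompact (B lad j m) := by
  obtain ⟨r, hwf, hr⟩ := hg.ex_wf
  revert m
  induction j using hwf.induction with
  | _ j ih =>
    intro m
    rw [isCompact_iff_finite_subcover]
    intro ι U hUo hcov
    obtain ⟨i0, hi0⟩ := mem_iUnion.1 (hcov (self_mem j m))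
    obtain ⟨m', hm'⟩ := (isOpen_iff.1 (hUo i0)) j hi0
    -- the pieces
    have hpiece : ∀ k, m ≤ k → ∃ t : Finset ι, (∀ q, ((∃ n, lad j k = Sum.inl n ∧ q = nt lad n) ∨
      ∃ i, lad j k = Sum.inr i ∧ q ∈ B lad i k) → q ∈ ⋃ i ∈ t, U i) := by
      intro k hk
      rcases hl : lad j k with n | i
      · have h1 : nt lad n ∈ B lad j m := Mem.nat j m k n hk hl
        obtain ⟨i1, hi1⟩ := mem_iUnion.1 (hcov h1)
        refine ⟨{i1}, ?_⟩
        rintro q (⟨n', hn', rfl⟩ | ⟨i, hi, _⟩)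
        · obtain rfl := Sum.inl_injective hn'
          simpa using hi1
        · simp at hi
      · have hsub : B lad i k ⊆ ⋃ i, U i := by
          intro q hq
          exact hcov (Mem.step j m k i q hk hl hq)
        obtain ⟨t, ht⟩ := (isCompact_iff_finite_subcover.1 (ih i (hr j k i hl) k)) U hUo hsub
        refine ⟨t, ?_⟩
        rintro q (⟨n', hn', rfl⟩ | ⟨i', hi', hq⟩)
        · simp at hn'
        · obtain rfl := Sum.inr_injective hi'
          exact ht hq
    classical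
    have hpiece' : ∀ k, ∃ t : Finset ι, m ≤ k → (∀ q, ((∃ n, lad j k = Sum.inl n ∧ q = nt lad n) ∨
      ∃ i, lad j k = Sum.inr i ∧ q ∈ B lad i k) → q ∈ ⋃ i ∈ t, U i) := by
      intro k
      by_cases hk : m ≤ k
      · obtain ⟨t, ht⟩ := hpiece k hk
        exact ⟨t, fun _ => ht⟩
      · exact ⟨∅, fun h => absurd h hk⟩
    choose t ht using hpiece'
    refine ⟨insert i0 ((Finset.range m').biUnion t), ?_⟩
    intro q hq
    rcases B_decomp j m q hq with rfl | ⟨k, hk, hqk⟩
    · simp only [mem_iUnion, Finset.mem_insert]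
      exact ⟨i0, Or.inl rfl, hi0⟩
    · by_cases hkm : m' ≤ k
      · have : q ∈ B lad j m' := by
          rcases hqk with ⟨n, hl, rfl⟩ | ⟨i, hl, hqi⟩
          · exact Mem.nat j m' k n hkm hl
          · exact Mem.step j m' k i q hkm hl hqi
        simp only [mem_iUnion, Finset.mem_insert]
        exact ⟨i0, Or.inl rfl, hm' this⟩
      · have := ht k hk q hqk
        simp only [mem_iUnion] at this
        obtain ⟨i, hi, hqi⟩ := this
        simp only [mem_iUnion, Finset.mem_insert, Finset.mem_biUnion, Finset.mem_range]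
        exact ⟨i, Or.inr ⟨k, not_le.1 hkm, hi⟩, hqi⟩

theorem countable_B (hg : IsGood lad) (j : J) (m : ℕ) : (B lad j m).Countable := by
  obtain ⟨r, hwf, hr⟩ := hg.ex_wf
  revert m
  induction j using hwf.induction with
  | _ j ih =>
    intro m
    have hsub : B lad j m ⊆ {pt lad j} ∪ ⋃ k : ℕ, {q | (∃ n, lad j k = Sum.inl n ∧ q = nt lad n) ∨
      ∃ i, lad j k = Sum.inr i ∧ q ∈ B lad i k} := by
      intro q hq
      rcases B_decomp j m q hq with rfl | ⟨k, hk, hqk⟩
      · exact Or.inl rfl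
      · exact Or.inr (mem_iUnion.2 ⟨k, hqk⟩)
    refine Countable.mono hsub ((countable_singleton _).union (countable_iUnion fun k => ?_))
    rcases hl : lad j k with n | i
    · refine Countable.mono ?_ (countable_singleton (nt lad n))
      rintro q (⟨n', hn', rfl⟩ | ⟨i, hi, _⟩)
      · obtain rfl := Sum.inl_injective hn'
        rfl
      · simp at hi
    · refine Countable.mono ?_ (ih i (hr j k i hl) k)
      rintro q (⟨n', hn', rfl⟩ | ⟨i', hi', hq⟩)
      · simp at hn'
      · obtain rfl := Sum.inr_injective hi'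
        exact hq

theorem t2 (hg : IsGood lad) : T2Space (Sp lad) := by
  refine ⟨fun x y hxy => ?_⟩
  rcases cases' x with ⟨n, rfl⟩ | ⟨i, rfl⟩
  · rcases cases' y with ⟨n', rfl⟩ | ⟨j, rfl⟩
    · exact ⟨{nt lad n}, {nt lad n'}, isOpen_singleton_nt n, isOpen_singleton_nt n', rfl, rfl, by
        rw [disjoint_singleton]; exact hxy⟩
    · refine ⟨{nt lad n}, B lad j (n+1), isOpen_singleton_nt n, isOpen_B j _, rfl, self_mem _ _, ?_⟩
      rw [disjoint_singleton_left]
      intro h
      have := nat_part hg.nat_le h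
      omega
  · rcases cases' y with ⟨n', rfl⟩ | ⟨j, rfl⟩
    · refine ⟨B lad i (n'+1), {nt lad n'}, isOpen_B i _, isOpen_singleton_nt n', self_mem _ _, rfl, ?_⟩
      rw [disjoint_singleton_right]
      intro h
      have := nat_part hg.nat_le h
      omega
    · obtain ⟨m, hm⟩ := hg.sep i j (fun h => hxy (by rw [h]))
      exact ⟨B lad i m, B lad j m, isOpen_B _ _, isOpen_B _ _, self_mem _ _, self_mem _ _, hm⟩

theorem isClosed_B (hg : IsGood lad) (j : J) (m : ℕ) : IsClosed (B lad j m) := by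
  have := t2 hg
  exact (isCompact_B hg j m).isClosed

theorem locallyCompact (hg : IsGood lad) : LocallyCompactSpace (Sp lad) := by
  have := t2 hg
  have hw : WeaklyLocallyCompactSpace (Sp lad) := by
    refine ⟨fun x => ?_⟩
    rcases cases' x with ⟨n, rfl⟩ | ⟨i, rfl⟩
    · exact ⟨{nt lad n}, isCompact_singleton, (isOpen_singleton_nt n).mem_nhds rfl⟩
    · exact ⟨B lad i 0, isCompact_B hg i 0, (isOpen_B i 0).mem_nhds (self_mem _ _)⟩
  infer_instance

end Pool.Agent.Helper102.Ladder
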