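import Mathlib

set_option autoImplicit false

namespace Pool.Agent.Helper102.MonoMono

open Set Topology

variable {X : Type} [TopologicalSpace X]

/-- `W` decides `N`. -/
def Dec (W N : Set X) : Prop := W ∩ N = ∅ ∨ W ⊆ closure N

lemma Dec.mono {W W' N : Set X} (h : Dec W N) (hW : W' ⊆ W) : Dec W' N := by
  rcases h with h | h
  · left
    exact eq_empty_of_subset_empty (fun x hx => by
      have : x ∈ W ∩ N := ⟨hW hx.1, hx.2⟩
      rw [h] at this
      exact this)
  · right
    exact hW.trans h

lemma exists_dec_one (V N : Set X) (hV : IsOpen V) (hne : V.Nonempty) :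
    ∃ W, IsOpen W ∧ W.Nonempty ∧ W ⊆ V ∧ Dec W N := by
  by_cases h : V ⊆ closure N
  · exact ⟨V, hV, hne, Subset.rfl, Or.inr h⟩
  · obtain ⟨x, hx, hxN⟩ := not_subset.1 h
    refine ⟨V ∩ (closure N)ᶜ, hV.inter isClosed_closure.isOpen_compl, ⟨x, hx, hxN⟩,
      inter_subset_left, Or.inl ?_⟩
    apply eq_empty_of_subset_empty
    rintro y ⟨⟨-, hy⟩, hyN⟩
    exact hy (subset_closure hyN)

lemma exists_dec (L : Finset (Set X)) (V : Set X) (hV : IsOpen V) (hne : V.Nonempty) :
    ∃ W, IsOpen W ∧ W.Nonempty ∧ W ⊆ V ∧ ∀ N ∈ L, Dec W N := by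
  classical
  induction L using Finset.induction_on with
  | empty => exact ⟨V, hV, hne, Subset.rfl, by simp⟩
  | insert N L hN ih =>
    obtain ⟨W, h1, h2, h3, h4⟩ := ih
    obtain ⟨W', k1, k2, k3, k4⟩ := exists_dec_one W N h1 h2
    refine ⟨W', k1, k2, k3.trans h3, ?_⟩
    intro M hM
    rcases Finset.mem_insert.1 hM with rfl | hM
    · exact k4
    · exact (h4 M hM).mono k3

/-- Existence of the children: a disjoint family of good open sets with dense union in `V`. -/
lemma exists_family [RegularSpace X] (L : Finset (Set X)) (V : Set X) (hV : IsOpen V) :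
    ∃ C : Set (Set X), (∀ W ∈ C, IsOpen W ∧ W.Nonempty ∧ closure W ⊆ V ∧ ∀ N ∈ L, Dec W N) ∧
      C.PairwiseDisjoint id ∧ V ⊆ closure (⋃₀ C) := by
  let P : Set X → Prop := fun W => IsOpen W ∧ W.Nonempty ∧ closure W ⊆ V ∧ ∀ N ∈ L, Dec W N
  obtain ⟨C, hC⟩ := zorn_subset {C : Set (Set X) | (∀ W ∈ C, P W) ∧ C.PairwiseDisjoint id} (by
    intro c hc hchain
    refine ⟨⋃₀ c, ⟨?_, ?_⟩, fun s hs => subset_sUnion_of_mem hs⟩
    · rintro W ⟨C, hCc, hW⟩
      exact (hc hCc).1 W hW
    · rw [pairwiseDisjoint_sUnion hchain.directedOn]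
      intro C hCc
      exact (hc hCc).2)
  refine ⟨C, hC.prop.1, hC.prop.2, ?_⟩
  intro x hx
  by_contra hcon
  have hopen : IsOpen (V ∩ (closure (⋃₀ C))ᶜ) := hV.inter isClosed_closure.isOpen_compl
  obtain ⟨W0, hW0, hxW0, hcl⟩ : ∃ W0, IsOpen W0 ∧ x ∈ W0 ∧ closure W0 ⊆ V ∩ (closure (⋃₀ C))ᶜ := by
    have h := hopen.mem_nhds (show x ∈ V ∩ (closure (⋃₀ C))ᶜ from ⟨hx, hcon⟩)
    obtain ⟨K, hK, hKc, hKV⟩ := exists_mem_nhds_isClosed_subset h
    exact ⟨interior K, isOpen_interior, mem_interior_iff_mem_nhds.2 hK,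
      (closure_minimal interior_subset hKc).trans hKV⟩
  obtain ⟨W, h1, h2, h3, h4⟩ := exists_dec L W0 hW0 ⟨x, hxW0⟩
  have hclW : closure W ⊆ V ∩ (closure (⋃₀ C))ᶜ := (closure_mono h3).trans hcl
  have hPW : P W := ⟨h1, h2, hclW.trans inter_subset_left, h4⟩
  have hdisj : ∀ W' ∈ C, Disjoint W W' := by
    intro W' hW'
    rw [Set.disjoint_left]
    intro y hy hy'
    exact (hclW (subset_closure hy)).2 (subset_closure ⟨W', hW', hy'⟩)
  have hnot : W ∉ C := by
    intro hmem
    obtain ⟨y, hy⟩ := h2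
    exact (Set.disjoint_left.1 (hdisj W hmem)) hy hy
  have hins : insert W C ⊆ C := by
    apply hC.2 (y := insert W C)
    · refine ⟨?_, ?_⟩
      · intro W' hW'
        rcases mem_insert_iff.1 hW' with rfl | h
        · exact hPW
        · exact hC.prop.1 W' h
      · rw [pairwiseDisjoint_insert]
        exact ⟨hC.prop.2, fun W' hW' _ => hdisj W' hW'⟩
    · exact subset_insert _ _
  exact hnot (hins (mem_insert _ _))

section Main

/-- The levels of the tree. -/
def child [RegularSpace X] (D : List X → Finset (Set X)) (U : Set X) (l : List X) :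
    Set (Set X × List X) :=
  {p | ∃ (h : IsOpen U) (W : Set X) (hW : W ∈ (exists_family (D l) U h).choose),
      p = (W, (((exists_family (D l) U h).choose_spec.1 W hW).2.1).some :: l)}

variable [RegularSpace X] (D : List X → Finset (Set X))

lemma child_prop {U : Set X} {l : List X} {p : Set X × List X} (hp : p ∈ child D U l) :
    IsOpen p.1 ∧ closure p.1 ⊆ U ∧ (∀ N ∈ D l, Dec p.1 N) ∧ ∃ y ∈ p.1, p.2 = y :: l := by
  obtain ⟨h, W, hW, rfl⟩ := hp
  have hs := (exists_family (D l) U h).choose_spec.1 W hW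
  exact ⟨hs.1, hs.2.2.1, hs.2.2.2, _, hs.2.1.some_mem, rfl⟩

lemma child_disj {U : Set X} {l : List X} {p q : Set X × List X} (hp : p ∈ child D U l)
    (hq : q ∈ child D U l) (hne : p ≠ q) : Disjoint p.1 q.1 := by
  obtain ⟨h, W, hW, rfl⟩ := hp
  obtain ⟨h', W', hW', rfl⟩ := hq
  have hWW : W ≠ W' := by
    rintro rfl
    exact hne rfl
  exact (exists_family (D l) U h).choose_spec.2.1 hW hW' hWW

lemma child_dense {U : Set X} (hU : IsOpen U) (l : List X) :
    U ⊆ closure (⋃ p ∈ child D U l, p.1) := by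
  refine (exists_family (D l) U hU).choose_spec.2.2.trans (closure_mono ?_)
  rintro x ⟨W, hW, hx⟩
  exact mem_iUnion₂.2 ⟨_, ⟨hU, W, hW, rfl⟩, hx⟩

/-- The levels. -/
def lev : ℕ → Set (Set X × List X)
  | 0 => {(univ, [])}
  | n + 1 => {q | ∃ p ∈ lev n, q ∈ child D p.1 p.2}

lemma lev_open (n : ℕ) : ∀ p ∈ lev D n, IsOpen p.1 := by
  cases n with
  | zero =>
    rintro p hp
    rw [lev, mem_singleton_iff] at hp
    rw [hp]
    exact isOpen_univ
  | succ n =>
    rintro p ⟨q, -, hp⟩
    exact (child_prop D hp).1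

lemma lev_disj (n : ℕ) : ∀ p ∈ lev D n, ∀ q ∈ lev D n, p ≠ q → Disjoint p.1 q.1 := by
  induction n with
  | zero =>
    intro p hp q hq hne
    rw [lev, mem_singleton_iff] at hp hq
    exact absurd (hp.trans hq.symm) hne
  | succ n ih =>
    rintro p ⟨p', hp', hp⟩ q ⟨q', hq', hq⟩ hne
    by_cases h : p' = q'
    · subst h
      exact child_disj D hp hq hne
    · exact (ih p' hp' q' hq' h).mono (subset_closure.trans (child_prop D hp).2.1)
        (subset_closure.trans (child_prop D hq).2.1)

lemma lev_dense (n : ℕ) : Dense (⋃ p ∈ lev D n, p.1) := by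
  induction n with
  | zero =>
    simp [lev]
  | succ n ih =>
    rw [dense_iff_closure_eq, eq_univ_iff_forall] at ih ⊢
    intro x
    have h : (⋃ p ∈ lev D n, p.1) ⊆ closure (⋃ p ∈ lev D (n + 1), p.1) := by
      intro y hy
      obtain ⟨p, hp, hyp⟩ := mem_iUnion₂.1 hy
      refine closure_mono ?_ (child_dense D (lev_open D n p hp) p.2 hyp)
      intro z hz
      obtain ⟨q, hq, hzq⟩ := mem_iUnion₂.1 hz
      exact mem_iUnion₂.2 ⟨q, ⟨p, hp, hq⟩, hzq⟩
    exact closure_minimal h isClosed_closure (ih x)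

/-- The dense set. -/
def G : Set X := ⋂ n, ⋃ p ∈ lev D n, p.1

lemma exists_node (x : X) (hx : x ∈ G D) (n : ℕ) : ∃ p ∈ lev D n, x ∈ p.1 := by
  obtain ⟨p, hp, hxp⟩ := mem_iUnion₂.1 (mem_iInter.1 hx n)
  exact ⟨p, hp, hxp⟩

/-- The node. -/
noncomputable def node (x : G D) (n : ℕ) : Set X × List X := (exists_node D x.1 x.2 n).choose

lemma node_mem (x : G D) (n : ℕ) : node D x n ∈ lev D n := (exists_node D x.1 x.2 n).choose_spec.1

lemma mem_node (x : G D) (n : ℕ) : x.1 ∈ (node D x n).1 := (exists_node D x.1 x.2 n).choose_spec.2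

lemma node_eq (x : G D) (n : ℕ) (p : Set X × List X) (hp : p ∈ lev D n) (hx : x.1 ∈ p.1) :
    node D x n = p := by
  by_contra hne
  exact Set.disjoint_left.1 (lev_disj D n _ (node_mem D x n) p hp hne) (mem_node D x n) hx

lemma node_succ (x : G D) (n : ℕ) :
    node D x (n + 1) ∈ child D (node D x n).1 (node D x n).2 := by
  obtain ⟨q, hq, hmem⟩ := node_mem D x (n + 1)
  have : x.1 ∈ q.1 := (child_prop D hmem).2.1 (subset_closure (mem_node D x (n + 1)))
  rw [node_eq D x n q hq this]
  exact hmem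

lemma node_zero (x : G D) : (node D x 0).2 = [] := by
  have h := node_mem D x 0
  rw [lev, mem_singleton_iff] at h
  rw [h]

/-- Main property of the tree. -/
theorem key [CompactSpace X] [T2Space X] 
    (hD : ∀ (y : ℕ → X) (l : ℕ → List X), l 0 = [] → (∀ n, l (n + 1) = y n :: l n) →
      ∀ z ∈ closure (range y), ∀ U : Set X, IsOpen U → z ∈ U → ∃ n, ∃ N ∈ D (l n), z ∈ N ∧ N ⊆ U)
    (x : G D) (V : Set X) (hV : IsOpen V) (hx : x.1 ∈ V) : ∃ n, (node D x n).1 ⊆ V := by
  choose hop hcl hdec y hy hl using fun n => child_prop D (node_succ D x n)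
  have hanti : Antitone fun n => closure (node D x n).1 := by
    apply antitone_nat_of_succ_le
    intro n
    exact (hcl n).trans subset_closure
  obtain ⟨z, hz⟩ : (⋂ n, closure (y '' Ici n)).Nonempty := by
    apply IsCompact.nonempty_iInter_of_sequence_nonempty_isCompact_isClosed
    · intro n
      exact closure_mono (image_mono (Ici_subset_Ici.2 (Nat.le_succ n)))
    · intro n
      exact ⟨y n, subset_closure ⟨n, mem_Ici.2 le_rfl, rfl⟩⟩
    · exact isClosed_closure.isCompact
    · intro n
      exact isClosed_closure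
  have hzr : z ∈ closure (range y) := closure_mono (image_subset_range _ _) (mem_iInter.1 hz 0)
  have hzn : ∀ n, z ∈ (node D x n).1 := by
    intro n
    apply hcl n
    apply closure_mono ?_ (mem_iInter.1 hz n)
    rintro _ ⟨m, hm, rfl⟩
    have hm' : n ≤ m := hm
    have h1 : ∀ k, (node D x (n + 1 + k)).1 ⊆ (node D x (n + 1)).1 := by
      intro k
      induction k with
      | zero => exact Subset.rfl
      | succ k ih => exact (subset_closure.trans (hcl (n + 1 + k))).trans ih
    have h2 := h1 (m - n)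
    have h3 : n + 1 + (m - n) = m + 1 := by omega
    rw [h3] at h2
    exact h2 (hy m)
  have hshrink : ∀ U : Set X, IsOpen U → z ∈ U → ∃ n, (node D x n).1 ⊆ U := by
    intro U hU hzU
    obtain ⟨K, hK, hKc, hKU⟩ := exists_mem_nhds_isClosed_subset (hU.mem_nhds hzU)
    obtain ⟨n, N, hN, hzN, hNK⟩ := hD y (fun n => (node D x n).2) (node_zero D x) hl z hzr
      (interior K) isOpen_interior (mem_interior_iff_mem_nhds.2 hK)
    rcases hdec n N hN with h | h
    · exfalso
      have : z ∈ (node D x (n + 1)).1 ∩ N := ⟨hzn _, hzN⟩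
      rw [h] at this
      exact this
    · refine ⟨n + 1, h.trans ((closure_minimal ?_ hKc).trans hKU)⟩
      exact hNK.trans interior_subset
  have hxz : x.1 = z := by
    by_contra hne
    obtain ⟨U, V', hU, hV', hzU, hxV', hdisj⟩ := t2_separation (Ne.symm hne)
    obtain ⟨n, hn⟩ := hshrink U hU hzU
    exact Set.disjoint_left.1 hdisj (hn (mem_node D x n)) hxV'
  exact hshrink V hV (hxz ▸ hx)

theorem metr [CompactSpace X] [T2Space X] 
    (hD : ∀ (y : ℕ → X) (l : ℕ → List X), l 0 = [] → (∀ n, l (n + 1) = y n :: l n) →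
      ∀ z ∈ closure (range y), ∀ U : Set X, IsOpen U → z ∈ U → ∃ n, ∃ N ∈ D (l n), z ∈ N ∧ N ⊆ U) :
    Dense (G D) ∧ TopologicalSpace.MetrizableSpace (G D) := by
  constructor
  · apply dense_iInter_of_isOpen_nat
    · intro n
      exact isOpen_biUnion (lev_open D n)
    · exact lev_dense D
  let _ : ∀ n : ℕ, UniformSpace (lev D n) := fun _ => ⊥
  have _ : ∀ n : ℕ, DiscreteUniformity (lev D n) := fun _ => ⟨rfl⟩
  let Φ : G D → ∀ n : ℕ, lev D n := fun x n => ⟨node D x n, node_mem D x n⟩
  have hcont : Continuous Φ := by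
    apply continuous_pi
    intro n
    rw [continuous_iff_continuousAt]
    intro x
    have hev : ∀ᶠ x' in 𝓝 x, Φ x' n = Φ x n := by
      have ho : IsOpen {x' : G D | x'.1 ∈ (node D x n).1} :=
        (lev_open D n _ (node_mem D x n)).preimage continuous_subtype_val
      filter_upwards [ho.mem_nhds (mem_node D x n)] with x' hx'
      apply Subtype.ext
      exact node_eq D x' n _ (node_mem D x n) hx'
    exact (continuousAt_const.congr (hev.mono fun _ h => h.symm))
  have hind : IsInducing Φ := by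
    rw [isInducing_iff_nhds]
    intro x
    apply le_antisymm
    · exact hcont.tendsto x |>.le_comap
    · intro s hs
      rw [mem_nhds_subtype] at hs
      obtain ⟨V, hV, hVs⟩ := hs
      obtain ⟨V', hV'V, hV', hxV'⟩ := mem_nhds_iff.1 hV
      obtain ⟨n, hn⟩ := key D hD x V' hV' hxV'
      rw [Filter.mem_comap]
      refine ⟨{φ | φ n = Φ x n}, ?_, ?_⟩
      · have : IsOpen ((fun φ : ∀ n : ℕ, lev D n => φ n) ⁻¹' {Φ x n}) :=
          (isOpen_discrete _).preimage (continuous_apply n)
        exact this.mem_nhds rfl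
      · intro x' hx'
        have hx'' : Φ x' n = Φ x n := hx'
        have h1 : node D x' n = node D x n := congrArg Subtype.val hx''
        apply hVs
        apply hV'V
        apply hn
        rw [← h1]
        exact mem_node D x' n
  exact hind.isEmbedding.metrizableSpace

end Main

section Operator

/-- Two operators: `O` is a function from sets to families. -/
structure MM (O : Set X → Set (Set X)) : Prop where
  cnt : ∀ A : Set X, A.Finite → (O A).Countable
  net : ∀ A : Set X, ∀ x ∈ closure A, ∀ U : Set X, IsOpen U → x ∈ U → ∃ N ∈ O A, x ∈ N ∧ N ⊆ U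
  cont : ∀ A : ℕ → Set X, Monotone A → O (⋃ n, A n) = ⋃ n, O (A n)

omit [TopologicalSpace X] in
/-- Enumeration of a countable family, with the empty set added. -/
lemma exists_enum (C : Set (Set X)) (hC : C.Countable) : ∃ e : ℕ → Set X, C ⊆ range e := by
  rcases C.eq_empty_or_nonempty with rfl | hne
  · exact ⟨fun _ => ∅, empty_subset _⟩
  · obtain ⟨e, he⟩ := hC.exists_eq_range hne
    exact ⟨e, he.subset⟩

theorem exists_dense_metrizable [CompactSpace X] [T2Space X] {O : Set X → Set (Set X)}
    (hO : MM O) : ∃ D : Set X, Dense D ∧ TopologicalSpace.MetrizableSpace D := by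
  classical
  have henum : ∀ t : List X, ∃ e : ℕ → Set X, O {x | x ∈ t} ⊆ range e := fun t =>
    exists_enum _ (hO.cnt _ t.finite_toSet)
  choose e he using henum
  let D : List X → Finset (Set X) := fun l =>
    (l.tails.toFinset ×ˢ Finset.range (l.length + 1)).image fun p => e p.1 p.2
  have hmain := metr D (fun y l h0 hs z hz U hU hzU => by
    have hmem : ∀ n, {x | x ∈ l n} = y '' Iio n := by
      intro n
      induction n with
      | zero => simp [h0]
      | succ n ih =>
        ext x
        show x ∈ l (n + 1) ↔ x ∈ y '' Iio (n + 1)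
        rw [hs n, List.mem_cons]
        have ih' : x ∈ l n ↔ x ∈ y '' Iio n := by rw [← ih]; rfl
        rw [ih']
        constructor
        · rintro (rfl | ⟨m, hm, rfl⟩)
          · exact ⟨n, mem_Iio.2 (Nat.lt_succ_self n), rfl⟩
          · exact ⟨m, mem_Iio.2 ((mem_Iio.1 hm).trans (Nat.lt_succ_self n)), rfl⟩
        · rintro ⟨m, hm, rfl⟩
          rcases Nat.lt_succ_iff_lt_or_eq.1 (mem_Iio.1 hm) with h | h
          · exact Or.inr ⟨m, h, rfl⟩
          · exact Or.inl (by rw [h])
    have hmonoA : Monotone fun n : ℕ => y '' Iio n := fun a b hab =>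
      image_mono (Iio_subset_Iio hab)
    have hUn : (⋃ n : ℕ, y '' Iio n) = range y := by
      ext x
      simp only [mem_iUnion]
      constructor
      · rintro ⟨n, m, -, rfl⟩
        exact ⟨m, rfl⟩
      · rintro ⟨m, rfl⟩
        exact ⟨m + 1, m, mem_Iio.2 (Nat.lt_succ_self m), rfl⟩
    obtain ⟨N, hN, hzN, hNU⟩ := hO.net (range y) z hz U hU hzU
    rw [← hUn, hO.cont _ hmonoA] at hN
    obtain ⟨k, hk⟩ := mem_iUnion.1 hN
    have hk' : N ∈ O {x | x ∈ l k} := by
      rw [hmem k]
      exact hk
    obtain ⟨j, hj⟩ := he (l k) hk'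
    refine ⟨max k j, N, ?_, hzN, hNU⟩
    have hlen : ∀ n, (l n).length = n := by
      intro n
      induction n with
      | zero => simp [h0]
      | succ n ih => rw [hs n, List.length_cons, ih]
    have htail : ∀ n, k ≤ n → l k ∈ (l n).tails := by
      intro n hn
      induction n, hn using Nat.le_induction with
      | base => exact (List.mem_tails _ _).2 (List.suffix_refl _)
      | succ n hn ih =>
        rw [hs n]
        rw [List.mem_tails] at ih ⊢
        exact ih.trans (List.suffix_cons _ _)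
    show N ∈ (((l (max k j)).tails.toFinset ×ˢ Finset.range ((l (max k j)).length + 1)).image
      fun p => e p.1 p.2)
    rw [Finset.mem_image]
    refine ⟨(l k, j), ?_, hj⟩
    rw [Finset.mem_product, List.mem_toFinset, Finset.mem_range, hlen]
    exact ⟨htail _ (le_max_left _ _), Nat.lt_succ_of_le (le_max_right _ _)⟩)
  exact ⟨G D, hmain⟩

/-- A compact Hausdorff space with a countable network is metrizable. -/
theorem metrizable_of_network [CompactSpace X] [T2Space X] (C : Set (Set X)) (hC : C.Countable)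
    (hnet : ∀ x, ∀ U : Set X, IsOpen U → x ∈ U → ∃ N ∈ C, x ∈ N ∧ N ⊆ U) :
    TopologicalSpace.MetrizableSpace X := by
  classical
  let P : Set (Set X × Set X) := {p | p ∈ C ×ˢ C ∧ Disjoint (closure p.1) (closure p.2)}
  have hP : P.Countable := (hC.prod hC).mono fun p hp => hp.1
  have : Countable P := hP.to_subtype
  have hf : ∀ p : P, ∃ f : C(X, ℝ), EqOn f 0 (closure p.1.1) ∧ EqOn f 1 (closure p.1.2) := by
    intro p
    obtain ⟨f, h0, h1, -⟩ := exists_continuous_zero_one_of_isClosed
      (isClosed_closure (s := p.1.1)) (isClosed_closure (s := p.1.2)) p.2.2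
    exact ⟨f, h0, h1⟩
  choose f hf0 hf1 using hf
  let Φ : X → P → ℝ := fun x p => f p x
  have hcont : Continuous Φ := continuous_pi fun p => (f p).continuous
  have hinj : Function.Injective Φ := by
    intro x y hxy
    by_contra hne
    obtain ⟨U, V, hU, hV, hxU, hyV, hdisj⟩ := t2_separation hne
    obtain ⟨K, hK, hKc, hKU⟩ := exists_mem_nhds_isClosed_subset (hU.mem_nhds hxU)
    obtain ⟨L, hL, hLc, hLV⟩ := exists_mem_nhds_isClosed_subset (hV.mem_nhds hyV)
    obtain ⟨N, hN, hxN, hNK⟩ := hnet x (interior K) isOpen_interior (mem_interior_iff_mem_nhds.2 hK)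
    obtain ⟨M, hM, hyM, hML⟩ := hnet y (interior L) isOpen_interior (mem_interior_iff_mem_nhds.2 hL)
    have hNU : closure N ⊆ U := (closure_minimal (hNK.trans interior_subset) hKc).trans hKU
    have hMV : closure M ⊆ V := (closure_minimal (hML.trans interior_subset) hLc).trans hLV
    have hp : (N, M) ∈ P := ⟨⟨hN, hM⟩, hdisj.mono hNU hMV⟩
    have h := congrFun hxy ⟨(N, M), hp⟩
    have h0 : f ⟨(N, M), hp⟩ x = 0 := hf0 ⟨(N, M), hp⟩ (subset_closure hxN)
    have h1 : f ⟨(N, M), hp⟩ y = 1 := hf1 ⟨(N, M), hp⟩ (subset_closure hyM)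
    have h' : f ⟨(N, M), hp⟩ x = f ⟨(N, M), hp⟩ y := h
    rw [h0, h1] at h'
    exact zero_ne_one h'
  exact (hcont.isClosedEmbedding hinj).isEmbedding.metrizableSpace

theorem metrizable_of_ccc [CompactSpace X] [T2Space X] {O : Set X → Set (Set X)}
    (hO : MM O) (hcnt : ∀ A : Set X, A.Countable → (O A).Countable)
    (hccc : ∀ F : Set (Set X), (∀ U ∈ F, IsOpen U ∧ U.Nonempty) → F.PairwiseDisjoint id →
      F.Countable) : TopologicalSpace.MetrizableSpace X := by
  classical
  obtain ⟨D, hD, hmet⟩ := exists_dense_metrizable hO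
  letI : MetricSpace D := TopologicalSpace.metrizableSpaceMetric D
  -- maximal separated sets are countable
  have hsep : ∀ n : ℕ, ∃ S : Set D, S.Countable ∧ ∀ x, ∃ y ∈ S, dist x y < 1 / ((n : ℝ) + 1) := by
    intro n
    have hpos : (0 : ℝ) < 1 / ((n : ℝ) + 1) := Nat.one_div_pos_of_nat
    obtain ⟨S, hS⟩ := zorn_subset {S : Set D | S.Pairwise fun x y => 1 / ((n : ℝ) + 1) ≤ dist x y} (by
      intro c hc hchain
      refine ⟨⋃₀ c, ?_, fun s hs => subset_sUnion_of_mem hs⟩
      show (⋃₀ c).Pairwise _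
      rw [pairwise_sUnion hchain.directedOn]
      exact hc)
    refine ⟨S, ?_, ?_⟩
    · -- open sets in X
      have hball : ∀ x : D, ∃ U : Set X, IsOpen U ∧ (Subtype.val ⁻¹' U : Set D) =
          Metric.ball x (1 / ((n : ℝ) + 1) / 2) := fun x => by
        obtain ⟨U, hU, h⟩ := isOpen_induced_iff.1
          (Metric.isOpen_ball (x := x) (ε := 1 / ((n : ℝ) + 1) / 2))
        exact ⟨U, hU, h⟩
      choose U hU hUb using hball
      have hdisj : ∀ x ∈ S, ∀ y ∈ S, x ≠ y → Disjoint (U x) (U y) := by
        intro x hx y hy hxy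
        rw [Set.disjoint_iff_inter_eq_empty]
        by_contra hne
        obtain ⟨z, hz, hzD⟩ := hD.inter_open_nonempty _ ((hU x).inter (hU y))
          (nonempty_iff_ne_empty.2 hne)
        have h1 : (⟨z, hzD⟩ : D) ∈ Metric.ball x (1 / ((n : ℝ) + 1) / 2) := by
          rw [← hUb x]
          exact hz.1
        have h2 : (⟨z, hzD⟩ : D) ∈ Metric.ball y (1 / ((n : ℝ) + 1) / 2) := by
          rw [← hUb y]
          exact hz.2
        rw [Metric.mem_ball] at h1 h2
        have h3 := dist_triangle_left x y (⟨z, hzD⟩ : D)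
        have h4 := hS.prop hx hy hxy
        linarith
      have hmemU : ∀ x : D, x.1 ∈ U x := by
        intro x
        have : x ∈ (Subtype.val ⁻¹' U x : Set D) := by
          rw [hUb x]
          exact Metric.mem_ball_self (by positivity)
        exact this
      have hF := hccc (U '' S) (by
        rintro _ ⟨x, -, rfl⟩
        exact ⟨hU x, x.1, hmemU x⟩) (by
        rintro _ ⟨x, hx, rfl⟩ _ ⟨y, hy, rfl⟩ hne
        exact hdisj x hx y hy (fun h => hne (by rw [h])))
      have hinj : InjOn U S := by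
        intro x hx y hy hxy
        by_contra hne
        have h := hdisj x hx y hy hne
        rw [← hxy] at h
        exact Set.disjoint_left.1 h (hmemU x) (hmemU x)
      exact countable_of_injective_of_countable_image hinj hF
    · intro x
      by_contra hcon
      push Not at hcon
      have hx : x ∉ S := fun hx => by
        have := hcon x hx
        rw [dist_self] at this
        linarith
      have hins : insert x S ⊆ S := by
        apply hS.2 (y := insert x S)
        · show (insert x S).Pairwise _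
          apply hS.prop.insert
          intro y hy _
          exact ⟨hcon y hy, by rw [dist_comm]; exact hcon y hy⟩
        · exact subset_insert _ _
      exact hx (hins (mem_insert _ _))
  choose S hS hSd using hsep
  let A : Set X := ⋃ n, Subtype.val '' S n
  have hA : A.Countable := countable_iUnion fun n => (hS n).image _
  have hAd : Dense A := by
    rw [dense_iff_inter_open]
    intro U hU hne
    obtain ⟨z, hz, hzD⟩ := hD.inter_open_nonempty U hU hne
    have hUo : IsOpen (Subtype.val ⁻¹' U : Set D) := hU.preimage continuous_subtype_val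
    obtain ⟨ε, hε, hball⟩ := Metric.isOpen_iff.1 hUo ⟨z, hzD⟩ hz
    obtain ⟨n, hn⟩ := exists_nat_one_div_lt hε
    obtain ⟨y, hy, hyd⟩ := hSd n ⟨z, hzD⟩
    have hyU : y ∈ (Subtype.val ⁻¹' U : Set D) := by
      apply hball
      rw [Metric.mem_ball, dist_comm]
      exact hyd.trans hn
    exact ⟨y.1, hyU, mem_iUnion.2 ⟨n, y, hy, rfl⟩⟩
  apply metrizable_of_network (O A) (hcnt A hA)
  intro x U hU hx
  exact hO.net A x (hAd x) U hU hx

end Operator

end Pool.Agent.Helper102.MonoMono
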