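import Pool.Agent.Helper102.LSpace

set_option autoImplicit false

namespace Pool.Agent.Helper102.PSpace

open Set Cardinal Topology Filter
open Pool.Agent.Helper102.Ladder Pool.Agent.Helper102.IdxC Pool.Agent.Helper102.CantorBig
open Pool.Agent.Helper102.LSpace

/-- limit locations of a set of isolated points -/
def dv (A : Set ℕ) : Set C := {z | ∀ k N, ∃ n ∈ A, N ≤ n ∧ agr k z (pos n)}
/-- convergence of a set of isolated points -/
def conv (E : Set ℕ) (z : C) : Prop := ∀ k, {n ∈ E | ¬ agr k z (pos n)}.Finite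
/-- convergence to two points -/
def conv2 (S : Set ℕ) (z w : C) : Prop := ∀ k, {n ∈ S | ¬ agr k z (pos n) ∧ ¬ agr k w (pos n)}.Finite
/-- closed discrete in the first space -/
def CD (E : Set ℕ) : Prop := ∀ α : I, ∃ m, ∀ n ∈ E, ¬ Mem lad0 α m (Sum.inl n)

theorem isClosed_dv (A : Set ℕ) : IsClosed (dv A) := by
  rw [← closure_subset_iff_isClosed]
  intro z hz k N
  rw [mem_closure_agr] at hz
  obtain ⟨w, hw, hag⟩ := hz k
  obtain ⟨n, hn, hN, h⟩ := hw k N
  exact ⟨n, hn, hN, agr_trans hag h⟩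

theorem dv_mono {A B : Set ℕ} (h : A ⊆ B) : dv A ⊆ dv B := by
  intro z hz k N
  obtain ⟨n, hn, h'⟩ := hz k N
  exact ⟨n, h hn, h'⟩

theorem dv_sub {A : Set ℕ} {z : C} (h : z ∈ dv A) : ∃ E ⊆ A, E.Infinite ∧ conv E z := by
  have hch : ∀ k, ∃ n ∈ A, k ≤ n ∧ agr k z (pos n) := fun k => h k k
  choose f hf1 hf2 hf3 using hch
  refine ⟨range f, by rintro _ ⟨k, rfl⟩; exact hf1 k, ?_, ?_⟩
  · intro hfin
    obtain ⟨M, hM⟩ := hfin.bddAbove
    have := hM ⟨M+1, rfl⟩
    have h2 := hf2 (M+1)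
    omega
  · intro k
    refine ((finite_lt_nat k).image f).subset ?_
    rintro _ ⟨⟨j, rfl⟩, hj⟩
    refine ⟨j, ?_, rfl⟩
    by_contra hcon
    exact hj (agr_mono (not_lt.1 hcon) (hf3 j))

theorem conv_mem_dv {E : Set ℕ} {z : C} (hE : E.Infinite) (h : conv E z) : z ∈ dv E := by
  intro k N
  have : (E \ ({n ∈ E | ¬ agr k z (pos n)} ∪ {n | n < N})).Infinite :=
    hE.sdiff ((h k).union (finite_lt_nat N))
  obtain ⟨n, hn, hn'⟩ := this.nonempty
  simp only [mem_union, mem_ofPred_eq, not_or, not_and, not_not, not_lt] at hn'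
  exact ⟨n, hn, hn'.2, hn'.1 hn⟩

theorem exists_dv {A : Set ℕ} (hA : A.Infinite) : ∃ z, z ∈ dv A := by
  classical
  let a : ℕ → ℕ := Nat.nth (· ∈ A)
  have ha : StrictMono a := Nat.nth_strictMono hA
  have hmem : ∀ n, a n ∈ A := fun n => Nat.nth_mem_of_infinite hA n
  obtain ⟨z, φ, hφ, hz⟩ := CompactSpace.tendsto_subseq (fun n => pos (a n))
  refine ⟨z, ?_⟩
  intro k N
  have h1 : ∀ᶠ n in atTop, agr k z (pos (a (φ n))) := hz ((isOpen_agr k z).mem_nhds (agr_refl k z))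
  obtain ⟨n, hn, hn'⟩ := (h1.and (eventually_ge_atTop N)).exists
  refine ⟨a (φ n), hmem _, ?_, hn⟩
  exact hn'.trans ((hφ.id_le n).trans (ha.id_le _))

theorem fin_inter {E S : Set ℕ} {z z' w' : C} (h : conv E z) (h' : conv2 S z' w') (h1 : z ≠ z')
    (h2 : z ≠ w') : (E ∩ S).Finite := by
  obtain ⟨k1, hk1⟩ := exists_not_agr h1
  obtain ⟨k2, hk2⟩ := exists_not_agr h2
  let k := max k1 k2
  refine ((h k).union (h' k)).subset ?_
  rintro n ⟨hn, hn'⟩
  by_cases hag : agr k z (pos n)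
  · right
    refine ⟨hn', fun h3 => ?_, fun h3 => ?_⟩
    · exact hk1 k (le_max_left _ _) (agr_trans hag (agr_symm h3))
    · exact hk2 k (le_max_right _ _) (agr_trans hag (agr_symm h3))
  · exact Or.inl ⟨hn, hag⟩

theorem cd_of_conv {E : Set ℕ} {z : C} (h : conv E z) (hz : ∀ α, x α ≠ z) : CD E := by
  intro α
  obtain ⟨k, hk⟩ := exists_not_agr (hz α)
  obtain ⟨M, hM⟩ := (h k).bddAbove
  refine ⟨max k (M+1), fun n hn hm => ?_⟩
  have h1 : max k (M+1) ≤ n := nat_part good0.nat_le hm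
  have h2 := B_loc hm
  have h3 : agr k z (pos n) := by
    by_contra hcon
    have := hM ⟨hn, hcon⟩
    have : M + 1 ≤ n := (le_max_right _ _).trans h1
    omega
  exact hk k le_rfl (agr_trans (agr_mono (le_max_left _ _) h2) (agr_symm h3))

theorem cd_union {E E' : Set ℕ} (h : CD E) (h' : CD E') : CD (E ∪ E') := by
  intro α
  obtain ⟨m, hm⟩ := h α
  obtain ⟨m', hm'⟩ := h' α
  refine ⟨max m m', fun n hn hM => ?_⟩
  rcases hn with hn | hn
  · exact hm n hn (Mem.mono (le_max_left _ _) hM)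
  · exact hm' n hn (Mem.mono (le_max_right _ _) hM)

theorem cd_mono {E E' : Set ℕ} (h : CD E) (h' : E' ⊆ E) : CD E' := by
  intro α
  obtain ⟨m, hm⟩ := h α
  exact ⟨m, fun n hn => hm n (h' hn)⟩

theorem conv_mono {E E' : Set ℕ} {z : C} (h : conv E z) (h' : E' ⊆ E) : conv E' z := by
  intro k
  exact (h k).subset fun n hn => ⟨h' hn.1, hn.2⟩

theorem new_Y (F : Set C) (hF : IsClosed F) (hc : ¬ F.Countable) (Z : Set C) (hZ : #Z < 𝔠) :
    ∃ w ∈ F, (∀ α, x α ≠ w) ∧ w ∉ Z := by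
  have hne : F.Nonempty := by
    rw [nonempty_iff_ne_empty]
    rintro rfl
    exact hc countable_empty
  obtain ⟨D, hDF, hDc, hDd⟩ := TopologicalSpace.IsSeparable.exists_countable_dense_subset
    (TopologicalSpace.IsSeparable.of_separableSpace F)
  have hDne : D.Nonempty := by
    obtain ⟨a, ha⟩ := hne
    have := hDd ha
    exact closure_nonempty_iff.1 ⟨a, this⟩
  obtain ⟨u, hu⟩ := hDc.exists_eq_range hDne
  have hcl : closure (range u) = F := by
    rw [← hu]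
    exact Subset.antisymm (closure_minimal hDF hF) hDd
  have hB : Big (tgt (2, fun n => (u n, u n))) := by
    apply big2
    simp only
    rw [hcl]
    exact hc
  by_contra hcon
  push Not at hcon
  have hsub : ∀ i, T i = (2, fun n => (u n, u n)) → y i ∈ Z := by
    intro i hi
    have h1 := xy_mem (i := i) (by rw [hi]; exact hB)
    rw [hi] at h1
    have h2 := h1.2.2 rfl
    simp only at h2
    rw [hcl] at h2
    exact hcon _ h2 (fun α => x_ne_y α i)
  obtain ⟨i0, -⟩ := T_exists (2, fun n => (u n, u n)) (Classical.choice (by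
    have : #I ≠ 0 := by rw [mk_I]; exact continuum_ne_zero
    exact mk_ne_zero_iff.1 this))
  have h3 := T_spec (2, fun n => (u n, u n)) i0
  have h4 : #{i | T i = (2, fun n => (u n, u n)) ∧ i0 < i} ≤ #Z := by
    refine mk_le_of_injective (f := fun i => (⟨y i.1, hsub i.1 i.2.1⟩ : Z)) ?_
    intro a b hab
    exact Subtype.ext (y_inj (congrArg Subtype.val hab))
  exact absurd (h3.trans h4) (not_le.2 hZ)

/-- tasks for the second recursion -/
abbrev Task2 : Type := Bool × Set ℕ × Set ℕ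

theorem mk_task2 : #Task2 ≤ 𝔠 := by
  have h1 : #(Set ℕ) = 𝔠 := by simp
  rw [mk_prod, mk_prod]
  simp only [lift_id, h1, continuum_mul_self]
  refine mul_le_of_le aleph0_le_continuum ?_ le_rfl
  simp only [mk_bool]
  exact (natCast_lt_aleph0 (n := 2)).le.trans aleph0_le_continuum

/-- the enumeration of tasks of the second kind -/
noncomputable def T2 : I → Task2 := Classical.choose (exists_enum Task2 mk_task2)

theorem T2_exists (t : Task2) : ∃ i, T2 i = t := by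
  by_contra hcon
  push Not at hcon
  have hI : Nonempty I := by
    have : #I ≠ 0 := by rw [mk_I]; exact continuum_ne_zero
    exact mk_ne_zero_iff.1 this
  obtain ⟨i0⟩ := hI
  have h := Classical.choose_spec (exists_enum Task2 mk_task2) t i0
  have : {i | T2 i = t ∧ i0 < i} = ∅ := by
    ext i
    simp only [mem_ofPred_eq, mem_empty_iff_false, iff_false, not_and]
    exact fun h => absurd h (hcon i)
  change 𝔠 ≤ #{i | T2 i = t ∧ i0 < i} at h
  rw [this] at h
  simp only [mk_eq_zero, nonpos_iff_eq_zero] at h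
  exact absurd h continuum_ne_zero

/-- the requirements at stage `ξ` -/
def Req (ξ : I) (f : (j : I) → j < ξ → Set ℕ × C × C) (t : Set ℕ × C × C) : Prop :=
  conv2 t.1 t.2.1 t.2.2 ∧ (∃ R ⊆ t.1, R.Infinite ∧ conv R t.2.2) ∧
  (∀ η, ∀ h : η < ξ, t.2.2 ≠ (f η h).2.2) ∧
  (∀ η, ∀ h : η < ξ, (t.1 ∩ (f η h).1).Finite) ∧ CD t.1 ∧
  ((T2 ξ).1 = true → ¬ (dv (T2 ξ).2.1).Countable → ¬ (dv (T2 ξ).2.2).Countable →
    (t.1 ∩ (T2 ξ).2.1).Infinite ∧ (t.1 ∩ (T2 ξ).2.2).Infinite) ∧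
  ((T2 ξ).1 = false → (T2 ξ).2.1.Infinite → CD (T2 ξ).2.1 →
    ((T2 ξ).2.1 ∩ t.1).Infinite ∨ ∃ η, ∃ h : η < ξ, ((T2 ξ).2.1 ∩ (f η h).1).Infinite)

theorem exists_stage (ξ : I) (f : (j : I) → j < ξ → Set ℕ × C × C)
    (hf : ∀ η (h : η < ξ), conv2 (f η h).1 (f η h).2.1 (f η h).2.2) : ∃ t, Req ξ f t := by
  classical
  let Z : Set C := range (fun j : Iio ξ => (f j.1 j.2).2.1) ∪ range (fun j : Iio ξ => (f j.1 j.2).2.2)
  have hZ : #Z < 𝔠 := union_lt (lt_of_le_of_lt mk_range_le (mk_Iio_lt' ξ))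
    (lt_of_le_of_lt mk_range_le (mk_Iio_lt' ξ))
  have hZ' : ∀ w, w ∉ Z → ∀ η, ∀ h : η < ξ, w ≠ (f η h).2.1 ∧ w ≠ (f η h).2.2 := by
    intro w hw η h
    exact ⟨fun he => hw (Or.inl ⟨⟨η, h⟩, he.symm⟩), fun he => hw (Or.inr ⟨⟨η, h⟩, he.symm⟩)⟩
  by_cases hA : (T2 ξ).1 = true ∧ ¬ (dv (T2 ξ).2.1).Countable ∧ ¬ (dv (T2 ξ).2.2).Countable
  · obtain ⟨hfl, h1, h2⟩ := hA
    obtain ⟨z, hz, hzx, hzZ⟩ := new_Y _ (isClosed_dv _) h1 Z hZ
    obtain ⟨w, hw, hwx, hwZ⟩ := new_Y _ (isClosed_dv _) h2 Z hZ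
    obtain ⟨E, hEA, hEi, hEc⟩ := dv_sub hz
    obtain ⟨R, hRA, hRi, hRc⟩ := dv_sub hw
    refine ⟨(E ∪ R, z, w), ?_, ⟨R, subset_union_right, hRi, hRc⟩, ?_, ?_, ?_, ?_, ?_⟩
    · intro k
      refine ((hEc k).union (hRc k)).subset ?_
      rintro n ⟨hn | hn, h3, h4⟩
      · exact Or.inl ⟨hn, h3⟩
      · exact Or.inr ⟨hn, h4⟩
    · intro η h
      exact (hZ' w hwZ η h).2
    · intro η h
      simp only
      rw [union_inter_distrib_right]
      exact (fin_inter hEc (hf η h) (hZ' z hzZ η h).1 (hZ' z hzZ η h).2).union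
        (fin_inter hRc (hf η h) (hZ' w hwZ η h).1 (hZ' w hwZ η h).2)
    · exact cd_union (cd_of_conv hEc hzx) (cd_of_conv hRc hwx)
    · intro _ _ _
      exact ⟨hEi.mono fun n hn => ⟨Or.inl hn, hEA hn⟩, hRi.mono fun n hn => ⟨Or.inr hn, hRA hn⟩⟩
    · intro h3
      rw [hfl] at h3
      exact absurd h3 (by decide)
  -- a new private location
  obtain ⟨w, -, hwx, hwZ⟩ := new_Y univ isClosed_univ not_countable_univ Z hZ
  have hwu : w ∈ dv univ := by
    intro k N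
    obtain ⟨n, hn, h⟩ := pos_dense w k N
    exact ⟨n, mem_univ _, hn, h⟩
  obtain ⟨R, -, hRi, hRc⟩ := dv_sub hwu
  have hRf : ∀ η (h : η < ξ), (R ∩ (f η h).1).Finite := fun η h =>
    fin_inter hRc (hf η h) (hZ' w hwZ η h).1 (hZ' w hwZ η h).2
  by_cases hB : (T2 ξ).1 = false ∧ (T2 ξ).2.1.Infinite ∧ CD (T2 ξ).2.1 ∧
      ∀ η (h : η < ξ), ((T2 ξ).2.1 ∩ (f η h).1).Finite
  · obtain ⟨hfl, hinf, hcd, hfin⟩ := hB
    obtain ⟨z, hz⟩ := exists_dv hinf
    obtain ⟨E, hEA, hEi, hEc⟩ := dv_sub hz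
    refine ⟨(E ∪ R, z, w), ?_, ⟨R, subset_union_right, hRi, hRc⟩, ?_, ?_, ?_, ?_, ?_⟩
    · intro k
      refine ((hEc k).union (hRc k)).subset ?_
      rintro n ⟨hn | hn, h3, h4⟩
      · exact Or.inl ⟨hn, h3⟩
      · exact Or.inr ⟨hn, h4⟩
    · intro η h
      exact (hZ' w hwZ η h).2
    · intro η h
      simp only
      rw [union_inter_distrib_right]
      exact ((hfin η h).subset (inter_subset_inter_left _ hEA)).union (hRf η h)
    · exact cd_union (cd_mono hcd hEA) (cd_of_conv hRc hwx)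
    · intro h3
      rw [hfl] at h3
      exact absurd h3 (by decide)
    · intro _ _ _
      exact Or.inl (hEi.mono fun n hn => ⟨hEA hn, Or.inl hn⟩)
  · refine ⟨(R, w, w), ?_, ⟨R, Subset.rfl, hRi, hRc⟩, ?_, ?_, ?_, ?_, ?_⟩
    · intro k
      refine (hRc k).subset ?_
      rintro n ⟨hn, h3, -⟩
      exact ⟨hn, h3⟩
    · intro η h
      exact (hZ' w hwZ η h).2
    · exact hRf
    · exact cd_of_conv hRc hwx
    · intro h1 h2 h3
      exact absurd ⟨h1, h2, h3⟩ hA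
    · intro h1 h2 h3
      right
      by_contra hcon
      push Not at hcon
      exact hB ⟨h1, h2, h3, fun η h => hcon η h⟩

theorem exists_P : ∃ F : I → Set ℕ × C × C, ∀ i, Req i (fun j _ => F j) (F i) := by
  obtain ⟨F, hF⟩ := exists_rec (T := Set ℕ × C × C) (fun i f t =>
    (∀ η (h : η < i), conv2 (f η h).1 (f η h).2.1 (f η h).2.2) → Req i f t) (by
      intro i f
      by_cases hf : ∀ η (h : η < i), conv2 (f η h).1 (f η h).2.1 (f η h).2.2
      · obtain ⟨t, ht⟩ := exists_stage i f hf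
        exact ⟨t, fun _ => ht⟩
      · exact ⟨(∅, fun _ => false, fun _ => false), fun h => absurd h hf⟩)
  refine ⟨F, ?_⟩
  have key : ∀ i, Req i (fun j _ => F j) (F i) := by
    intro i
    induction i using WellFoundedLT.induction with
    | _ i ih => exact hF i (fun η h => (ih η h).1)
  exact key

/-- the data of the second recursion -/
noncomputable def PF : I → Set ℕ × C × C := Classical.choose exists_P
theorem PF_spec (i : I) : Req i (fun j _ => PF j) (PF i) := Classical.choose_spec exists_P i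

/-- the almost disjoint family -/
noncomputable def S (ξ : I) : Set ℕ := (PF ξ).1
/-- private location -/
noncomputable def w (ξ : I) : C := (PF ξ).2.2

theorem S_ad {ξ η : I} (h : ξ ≠ η) : (S ξ ∩ S η).Finite := by
  rcases lt_trichotomy ξ η with hlt | he | hlt
  · rw [inter_comm]
    exact (PF_spec η).2.2.2.1 ξ hlt
  · exact absurd he h
  · exact (PF_spec ξ).2.2.2.1 η hlt

theorem S_cd (ξ : I) : CD (S ξ) := (PF_spec ξ).2.2.2.2.1

theorem S_priv (ξ : I) : ∃ R ⊆ S ξ, R.Infinite ∧ conv R (w ξ) := (PF_spec ξ).2.1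

theorem S_inf (ξ : I) : (S ξ).Infinite := by
  obtain ⟨R, hR, hRi, -⟩ := S_priv ξ
  exact hRi.mono hR

theorem w_inj : Function.Injective w := by
  intro i j h
  rcases lt_trichotomy i j with hlt | he | hlt
  · exact absurd h.symm ((PF_spec j).2.2.1 i hlt)
  · exact he
  · exact absurd h ((PF_spec i).2.2.1 j hlt)

theorem S_link {A A' : Set ℕ} (h : ¬ (dv A).Countable) (h' : ¬ (dv A').Countable) :
    ∃ ξ, (S ξ ∩ A).Infinite ∧ (S ξ ∩ A').Infinite := by
  obtain ⟨ξ, hξ⟩ := T2_exists (true, A, A')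
  have := (PF_spec ξ).2.2.2.2.2.1
  rw [hξ] at this
  exact ⟨ξ, this rfl h h'⟩

theorem S_max {A : Set ℕ} (h : A.Infinite) :
    (∃ α : I, ∀ m, ∃ n ∈ A, Mem lad0 α m (Sum.inl n)) ∨ ∃ ξ, (A ∩ S ξ).Infinite := by
  by_cases hcd : CD A
  · right
    obtain ⟨ξ, hξ⟩ := T2_exists (false, A, A)
    have := (PF_spec ξ).2.2.2.2.2.2
    rw [hξ] at this
    rcases this rfl h hcd with h1 | ⟨η, _, h1⟩
    · exact ⟨ξ, h1⟩
    · exact ⟨η, h1⟩
  · left
    unfold CD at hcd
    push Not at hcd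
    exact hcd

end Pool.Agent.Helper102.PSpace
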