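import Mathlib
import Pool.Prelude.Def_F_057ad941

set_option autoImplicit false

open Set Topology Cardinal TopologicalSpace

namespace Pool.Agent.Helper102.PathSpace

/-- An uncountable well order with countable initial segments. -/
abbrev W : Type := (Cardinal.aleph 1).ord.ToType

lemma countable_Iic (a : W) : (Iic a).Countable := by
  have h1 : #(Iio a) < Cardinal.aleph 1 := Cardinal.mk_Iio_toType_ord_lt a
  have h2 : (Iio a).Countable := by
    rw [← Cardinal.le_aleph0_iff_set_countable]
    exact Order.lt_succ_iff.1 (h1.trans_eq Cardinal.succ_aleph0.symm)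
  have : Iic a = Iio a ∪ {a} := by
    ext b
    simp [le_iff_lt_or_eq]
  rw [this]
  exact h2.union (countable_singleton a)

lemma not_countable : ¬ (univ : Set W).Countable := by
  intro h
  have h1 : #W ≤ ℵ₀ := by
    rw [← Cardinal.mk_univ]
    exact Cardinal.le_aleph0_iff_set_countable.2 h
  rw [Cardinal.mk_ord_toType] at h1
  exact absurd h1 (not_le.2 Cardinal.aleph0_lt_aleph_one)

lemma exists_notMem {S : Set W} (hS : S.Countable) : ∃ a, a ∉ S := by
  by_contra h
  push Not at h
  exact not_countable (by rw [← eq_univ_of_forall h]; exact hS)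

lemma exists_gt {S : Set W} (hS : S.Countable) : ∃ a, ∀ s ∈ S, s < a := by
  obtain ⟨a, ha⟩ := exists_notMem (hS.biUnion fun s _ => countable_Iic s)
  refine ⟨a, fun s hs => ?_⟩
  by_contra h
  exact ha (mem_biUnion hs (not_lt.1 h))

/-- sequences of length at most omega one, the entries being elements of `W` -/
def X : Type := {x : W → Option W // ∀ a b, a ≤ b → x b ≠ none → x a ≠ none}

/-- nodes -/
def T : Type := {p : X × W // p.1.1 p.2 ≠ none}

/-- the sequences through a node -/
def U (t : T) : Set X := {x | ∀ b ≤ t.1.2, x.1 b = t.1.1.1 b}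

open Classical in
/-- the evaluation -/
noncomputable def e (x : X) (t : T) : Bool := decide (x ∈ U t)

noncomputable instance : TopologicalSpace X := TopologicalSpace.induced e inferInstance

lemma isInducing_e : IsInducing e := ⟨rfl⟩

lemma e_true {x : X} {t : T} : e x t = true ↔ x ∈ U t := by
  classical
  simp [e]

lemma e_eq {x y : X} {t : T} : e x t = e y t ↔ (x ∈ U t ↔ y ∈ U t) := by
  rw [← e_true, ← e_true]
  cases e x t <;> cases e y t <;> simp

lemma isClopen_U (t : T) : IsClopen (U t) := by
  have : U t = (fun x => e x t) ⁻¹' {true} := by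
    ext x
    exact e_true.symm
  rw [this]
  exact (isClopen_discrete _).preimage ((continuous_apply t).comp isInducing_e.continuous)

/-- least difference -/
lemma exists_diff {x y : X} (h : x ≠ y) : ∃ b, x.1 b ≠ y.1 b ∧ ∀ a < b, x.1 a = y.1 a := by
  have hne : {b | x.1 b ≠ y.1 b}.Nonempty := by
    by_contra hcon
    rw [not_nonempty_iff_eq_empty, eq_empty_iff_forall_notMem] at hcon
    apply h
    apply Subtype.ext
    funext b
    by_contra hb
    exact hcon b hb
  obtain ⟨b, hb, hmin⟩ := WellFounded.has_min (wellFounded_lt (α := W)) _ hne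
  refine ⟨b, hb, fun a ha => ?_⟩
  by_contra hcon
  exact hmin a hcon ha

lemma e_injective : Function.Injective e := by
  intro x y hxy
  by_contra h
  obtain ⟨b, hb, -⟩ := exists_diff h
  by_cases hx : x.1 b = none
  · have hy : y.1 b ≠ none := fun hy => hb (hx.trans hy.symm)
    have h1 := e_eq.1 (congrFun hxy ⟨(y, b), hy⟩)
    exact hb (h1.2 (fun c _ => rfl) b le_rfl)
  · have h1 := e_eq.1 (congrFun hxy ⟨(x, b), hx⟩)
    exact hb (h1.1 (fun c _ => rfl) b le_rfl).symm

noncomputable instance : T2Space X := T2Space.of_injective_continuous e_injective isInducing_e.continuous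

lemma nhds_le {f : Filter X} {y : X} (h : ∀ t, ∀ᶠ x in f, e x t = e y t) : f ≤ 𝓝 y := by
  rw [isInducing_e.nhds_eq_comap, ← Filter.tendsto_iff_comap, tendsto_pi_nhds]
  intro t
  exact tendsto_nhds_of_eventually_eq (h t)

noncomputable instance : CompactSpace X := by
  constructor
  rw [isCompact_iff_ultrafilter_le_nhds]
  intro f _
  classical
  let p : T → Prop := fun t => U t ∈ f
  have hcons : ∀ t t', p t → p t' → ∀ a, a ≤ t.1.2 → a ≤ t'.1.2 → t.1.1.1 a = t'.1.1.1 a := by
    intro t t' ht ht' a ha ha'
    obtain ⟨x, hx, hx'⟩ := f.nonempty_of_mem (Filter.inter_mem ht ht')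
    rw [← hx a ha, ← hx' a ha']
  let y0 : W → Option W := fun a =>
    if h : ∃ t, p t ∧ a ≤ t.1.2 then h.choose.1.1.1 a else none
  have hy0 : ∀ t, p t → ∀ a ≤ t.1.2, y0 a = t.1.1.1 a := by
    intro t ht a ha
    have h : ∃ t, p t ∧ a ≤ t.1.2 := ⟨t, ht, ha⟩
    show (if h : ∃ t, p t ∧ a ≤ t.1.2 then h.choose.1.1.1 a else none) = _
    rw [dif_pos h]
    exact hcons _ _ h.choose_spec.1 ht a h.choose_spec.2 ha
  have hy1 : ∀ a, y0 a ≠ none → ∃ t, p t ∧ a ≤ t.1.2 := by
    intro a ha
    by_contra h
    apply ha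
    exact dif_neg h
  have hnn : ∀ t : T, ∀ a ≤ t.1.2, t.1.1.1 a ≠ none := fun t a ha => t.1.1.2 a _ ha t.2
  let y : X := ⟨y0, by
    intro a b hab hb
    obtain ⟨t, ht, hbt⟩ := hy1 b hb
    rw [hy0 t ht a (hab.trans hbt)]
    exact hnn t a (hab.trans hbt)⟩
  have hy : ∀ t, y ∈ U t ↔ p t := by
    intro t
    constructor
    · intro hyt
      have h1 : y0 t.1.2 ≠ none := by
        have : y0 t.1.2 = t.1.1.1 t.1.2 := hyt t.1.2 le_rfl
        rw [this]
        exact t.2
      obtain ⟨t', ht', hle⟩ := hy1 _ h1
      apply Filter.mem_of_superset ht'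
      intro x hx b hb
      rw [hx b (hb.trans hle), ← hy0 t' ht' b (hb.trans hle)]
      exact hyt b hb
    · intro ht b hb
      exact hy0 t ht b hb
  refine ⟨y, mem_univ _, nhds_le fun t => ?_⟩
  by_cases h : p t
  · filter_upwards [h] with x hx
    rw [e_eq]
    exact ⟨fun _ => (hy t).2 h, fun _ => hx⟩
  · have h' : (U t)ᶜ ∈ f := Ultrafilter.compl_mem_iff_notMem.2 h
    filter_upwards [h'] with x hx
    rw [e_eq]
    exact ⟨fun h1 => absurd h1 hx, fun h1 => absurd ((hy t).1 h1) h⟩

noncomputable instance : Nonempty X := ⟨⟨fun _ => none, fun _ _ _ h => absurd rfl h⟩⟩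

/-- countably many nodes do not determine a point -/
lemma exists_twin (x : X) (S : Set T) (hS : S.Countable) : ∃ y, y ≠ x ∧ ∀ t ∈ S, e y t = e x t := by
  classical
  by_cases hx : ∃ a, x.1 a = none
  · -- short sequence
    obtain ⟨d, hd, hmin⟩ := WellFounded.has_min (wellFounded_lt (α := W)) {a | x.1 a = none} hx
    have hlt : ∀ a < d, x.1 a ≠ none := fun a ha h => hmin a h ha
    let y : W → X := fun c => ⟨fun a => if a < d then x.1 a else if a = d then some c else none, by
      intro a b hab hb
      by_cases h1 : a < d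
      · simp only [h1, if_true]
        exact hlt a h1
      · by_cases h2 : a = d
        · simp [h2]
        · have h3 : d < a := lt_of_le_of_ne (not_lt.1 h1) (Ne.symm h2)
          have h4 : d < b := h3.trans_le hab
          simp [not_lt.2 h4.le, h4.ne'] at hb⟩
    have hbad : ∀ t : T, ({c | e (y c) t ≠ e x t}).Countable := by
      intro t
      apply Set.Subsingleton.countable
      have key : ∀ c, e (y c) t ≠ e x t → t.1.1.1 d = some c := by
        intro c hc
        rw [ne_eq, e_eq] at hc
        by_contra hcon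
        apply hc
        rcases lt_trichotomy t.1.2 d with h | h | h
        · constructor
          · intro hy b hb
            rw [← hy b hb]
            have : b < d := hb.trans_lt h
            simp [y, this]
          · intro hx b hb
            rw [← hx b hb]
            have : b < d := hb.trans_lt h
            simp [y, this]
        · constructor
          · intro hy
            exfalso
            apply hcon
            rw [← hy d h.ge]
            simp [y]
          · intro hx
            exfalso
            have h1 := hx d h.ge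
            rw [hd] at h1
            apply t.2
            rw [h]
            exact h1.symm
        · constructor
          · intro hy
            exfalso
            apply t.2
            rw [← hy t.1.2 le_rfl]
            simp [y, not_lt.2 h.le, h.ne']
          · intro hx
            exfalso
            apply t.1.1.2 d t.1.2 h.le t.2
            rw [← hx d h.le]
            exact hd
      intro c hc c' hc'
      have := (key c hc).symm.trans (key c' hc')
      exact Option.some.inj this
    obtain ⟨c, hc⟩ := exists_notMem (hS.biUnion fun t _ => hbad t)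
    refine ⟨y c, ?_, ?_⟩
    · intro h
      have h1 := congrFun (congrArg Subtype.val h) d
      rw [hd] at h1
      simp [y] at h1
    · intro t ht
      by_contra hne
      exact hc (mem_biUnion ht hne)
  · push Not at hx
    obtain ⟨g, hg⟩ := exists_gt (hS.image fun t : T => t.1.2)
    let y : X := ⟨fun a => if a ≤ g then x.1 a else none, by
      intro a b hab hb
      by_cases h1 : b ≤ g
      · simp only [hab.trans h1, if_true]
        exact hx a
      · simp [h1] at hb⟩
    refine ⟨y, ?_, ?_⟩
    · intro h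
      obtain ⟨g', hg'⟩ := exists_gt (countable_singleton g)
      have h1 := congrFun (congrArg Subtype.val h) g'
      have h2 : ¬ g' ≤ g := not_le.2 (hg' g rfl)
      simp only [y, h2, if_false] at h1
      exact hx g' h1.symm
    · intro t ht
      have hlt : t.1.2 < g := hg _ ⟨t, ht, rfl⟩
      rw [e_eq]
      have hag : ∀ b ≤ t.1.2, y.1 b = x.1 b := fun b hb => by
        simp [y, (hb.trans hlt.le)]
      exact ⟨fun h b hb => by rw [← hag b hb]; exact h b hb,
        fun h b hb => by rw [hag b hb]; exact h b hb⟩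

theorem not_first_countable (x : X) : ¬ (𝓝 x).IsCountablyGenerated := by
  intro hcg
  obtain ⟨V, hV⟩ := (𝓝 x).exists_antitone_basis
  have h1 : ∀ n, ∃ F : Finset T, ∀ y, (∀ t ∈ F, e y t = e x t) → y ∈ V n := by
    intro n
    have hm : V n ∈ 𝓝 x := hV.mem n
    rw [isInducing_e.nhds_eq_comap, Filter.mem_comap] at hm
    obtain ⟨s, hs, hsV⟩ := hm
    rw [mem_nhds_iff] at hs
    obtain ⟨o, hos, ho, hxo⟩ := hs
    rw [isOpen_pi_iff] at ho
    obtain ⟨F, u, hu, hFu⟩ := ho _ hxo
    refine ⟨F, fun y hy => hsV (hos (hFu ?_))⟩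
    intro t ht
    rw [hy t ht]
    exact (hu t ht).2
  choose F hF using h1
  obtain ⟨y, hyx, hy⟩ := exists_twin x (⋃ n, (F n : Set T))
    (countable_iUnion fun n => (F n).countable_toSet)
  have hyV : ∀ n, y ∈ V n := fun n => hF n y fun t ht => hy t (mem_iUnion.2 ⟨n, ht⟩)
  have hyx' : {y}ᶜ ∈ 𝓝 x := isOpen_compl_singleton.mem_nhds hyx.symm
  obtain ⟨n, -, hn⟩ := hV.toHasBasis.mem_iff.1 hyx'
  exact hn (hyV n) rfl

/-- nodes at points of `D` and levels in `L` -/
def nodes (D : Set X) (L : Set W) : Set T := {t | t.1.1 ∈ D ∧ t.1.2 ∈ L}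

lemma exists_levels (D : Set X) : ∃ L : Set W, #(nodes D L) ≤ #D + ℵ₀ ∧
    ∀ y ∈ closure D, ∀ z ∈ closure D, (∀ t ∈ nodes D L, e y t = e z t) → y = z := by
  classical
  -- reduction to one case
  have hnode : ∀ z ∈ closure D, ∀ b, z.1 b ≠ none → ∃ d ∈ D, ∀ a ≤ b, d.1 a = z.1 a := by
    intro z hz b hb
    obtain ⟨d, hd, hdD⟩ := mem_closure_iff.1 hz (U ⟨(z, b), hb⟩) (isClopen_U _).isOpen
      (fun a _ => rfl)
    exact ⟨d, hdD, hd⟩
  have hsep : ∀ L : Set W, (∀ y ∈ closure D, ∀ z ∈ closure D, ∀ b, z.1 b ≠ none →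
      (∀ a < b, y.1 a = z.1 a) → y.1 b ≠ z.1 b → b ∈ L) →
      ∀ y ∈ closure D, ∀ z ∈ closure D, (∀ t ∈ nodes D L, e y t = e z t) → y = z := by
    intro L hL y hy z hz hall
    by_contra hne
    obtain ⟨b, hb, hlt⟩ := exists_diff hne
    have main : ∀ y ∈ closure D, ∀ z ∈ closure D, (∀ t ∈ nodes D L, e y t = e z t) →
        y.1 b ≠ z.1 b → (∀ a < b, y.1 a = z.1 a) → z.1 b = none := by
      intro y hy z hz hall hb hlt
      by_contra hz0
      have hbL := hL y hy z hz b hz0 hlt hb
      obtain ⟨d, hdD, hd⟩ := hnode z hz b hz0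
      have hd0 : d.1 b ≠ none := by
        rw [hd b le_rfl]
        exact hz0
      have h1 := e_eq.1 (hall ⟨(d, b), hd0⟩ ⟨hdD, hbL⟩)
      have h2 : z ∈ U ⟨(d, b), hd0⟩ := fun a ha => (hd a ha).symm
      have h3 := h1.2 h2 b le_rfl
      apply hb
      rw [h3]
      exact hd b le_rfl
    have h1 := main y hy z hz hall hb hlt
    have h2 := main z hz y hy (fun t ht => (hall t ht).symm) (Ne.symm hb)
      (fun a ha => (hlt a ha).symm)
    exact hb (h2.trans h1.symm)
  by_cases hD : D.Countable
  · -- bound of the splitting levels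
    have hspl : ∀ p : X × X, ∃ b : W, p.1 = p.2 ∨ p.1.1 b ≠ p.2.1 b := by
      intro p
      by_cases h : p.1 = p.2
      · obtain ⟨b, -⟩ := exists_notMem (countable_empty (α := W))
        exact ⟨b, Or.inl h⟩
      · obtain ⟨b, hb, -⟩ := exists_diff h
        exact ⟨b, Or.inr hb⟩
    choose sp hsp using hspl
    obtain ⟨δ, hδ⟩ := exists_gt ((hD.prod hD).image sp)
    refine ⟨Iic δ, ?_, hsep _ ?_⟩
    · have hc : (nodes D (Iic δ)).Countable := by
        have h1 : (Subtype.val '' nodes D (Iic δ)).Countable := by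
          apply (hD.prod (countable_Iic δ)).mono
          rintro _ ⟨t, ht, rfl⟩
          exact ht
        exact countable_of_injective_of_countable_image (Subtype.val_injective.injOn) h1
      exact (Cardinal.le_aleph0_iff_set_countable.2 hc).trans le_add_self
    · intro y hy z hz b hb hlt hyz
      by_contra hbδ
      have hδb : δ < b := not_le.1 hbδ
      have hz0 : z.1 δ ≠ none := z.2 δ b hδb.le hb
      let t : T := ⟨(z, δ), hz0⟩
      have hone : ∀ d ∈ D, ∀ d' ∈ D, d ∈ U t → d' ∈ U t → d = d' := by
        intro d hd d' hd' hdt hdt'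
        rcases hsp (d, d') with h | h
        · exact h
        · exfalso
          apply h
          have h1 : sp (d, d') ≤ δ := (hδ _ ⟨(d, d'), ⟨hd, hd'⟩, rfl⟩).le
          have h2 := hdt _ h1
          have h3 := hdt' _ h1
          exact h2.trans h3.symm
      have hzU : z ∈ U t := fun a _ => rfl
      have hyU : y ∈ U t := fun a ha => hlt a (lt_of_le_of_lt ha hδb)
      obtain ⟨d, hdU, hdD⟩ := mem_closure_iff.1 hz (U t) (isClopen_U t).isOpen hzU
      have hcl : ∀ w ∈ closure D, w ∈ U t → w = d := by
        intro w hw hwU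
        by_contra hwd
        obtain ⟨d', ⟨hd'U, hd'd⟩, hd'D⟩ := mem_closure_iff.1 hw (U t ∩ {d}ᶜ)
          ((isClopen_U t).isOpen.inter isOpen_compl_singleton) ⟨hwU, hwd⟩
        exact hd'd (hone d' hd'D d hdD hd'U hdU)
      apply hyz
      rw [hcl y hy hyU, hcl z hz hzU]
  · refine ⟨univ, ?_, hsep _ fun _ _ _ _ _ _ _ _ => mem_univ _⟩
    have hD1 : #W ≤ #D := by
      rw [Cardinal.mk_ord_toType, ← Cardinal.succ_aleph0, Order.succ_le_iff]
      rw [← Cardinal.le_aleph0_iff_set_countable, not_le] at hD
      exact hD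
    have hD0 : ℵ₀ ≤ #D := (Cardinal.aleph0_le_aleph 1).trans (by rwa [Cardinal.mk_ord_toType] at hD1)
    have h1 : #(nodes D univ) ≤ #(D × W) := by
      refine Cardinal.mk_le_of_injective (f := fun t : nodes D univ => (⟨t.1.1.1, t.2.1⟩, t.1.1.2)) ?_
      intro s t h
      have h2 := congrArg (fun q : D × W => q.1.1) h
      have h3 := congrArg (fun q : D × W => q.2) h
      exact Subtype.ext (Subtype.ext (Prod.ext h2 h3))
    refine h1.trans ?_
    have h2 : #(D × W) = #D * #W := by simp [Cardinal.mk_prod]
    rw [h2]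
    exact ((mul_le_mul' le_rfl hD1).trans_eq (Cardinal.mul_eq_self hD0)).trans le_self_add

lemma networkWeight_le_of_inducing {Y : Type} [TopologicalSpace Y] {I : Type} (g : Y → I → Bool)
    (hg : IsInducing g) : networkWeight Y ≤ #I + ℵ₀ := by
  classical
  let N : Set (Set Y) := range fun F : Finset (I × Bool) => {y | ∀ p ∈ F, g y p.1 = p.2}
  have hN : IsNetwork N := by
    intro V hV y hy
    obtain ⟨o, ho, rfl⟩ := hg.isOpen_iff.1 hV
    rw [isOpen_pi_iff] at ho
    obtain ⟨F, u, hu, hFu⟩ := ho _ hy
    refine ⟨_, ⟨F.image fun i => (i, g y i), rfl⟩, ?_, ?_⟩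
    · intro p hp
      obtain ⟨i, -, rfl⟩ := Finset.mem_image.1 hp
      rfl
    · intro z hz
      apply hFu
      intro i hi
      have h1 : g z i = g y i := hz (i, g y i) (Finset.mem_image.2 ⟨i, hi, rfl⟩)
      show g z i ∈ u i
      rw [h1]
      exact (hu i hi).2
  refine hN.networkWeight_le.trans ?_
  have h1 : #N ≤ #(Finset (I × Bool)) := Cardinal.mk_range_le
  have h2 : #(Finset (I × Bool)) ≤ #I + ℵ₀ := by
    rcases finite_or_infinite (I × Bool) with h | h
    · have : Finite (Finset (I × Bool)) := by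
        have := Fintype.ofFinite (I × Bool)
        infer_instance
      exact (Cardinal.mk_le_aleph0 (α := Finset (I × Bool))).trans le_add_self
    · rw [Cardinal.mk_finset_of_infinite]
      have h3 : #(I × Bool) = #I * 2 := by simp [Cardinal.mk_prod]
      rw [h3]
      calc #I * 2 ≤ (#I + ℵ₀) * (#I + ℵ₀) :=
            mul_le_mul' le_self_add ((Cardinal.natCast_lt_aleph0 (n := 2)).le.trans le_add_self)
        _ = #I + ℵ₀ := Cardinal.mul_eq_self le_add_self
  calc #N + ℵ₀ ≤ (#I + ℵ₀) + ℵ₀ := add_le_add (h1.trans h2) le_rfl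
    _ = #I + ℵ₀ := by rw [add_assoc, Cardinal.aleph0_add_aleph0]

theorem monolithic (Y : Set X) : networkWeight Y ≤ density Y := by
  obtain ⟨D, hD, hDc⟩ := exists_dense_mk_add_aleph0_eq_density (X := Y)
  rw [← hDc]
  let D' : Set X := Subtype.val '' D
  obtain ⟨L, hL, hsep⟩ := exists_levels D'
  have hY : ∀ y : Y, y.1 ∈ closure D' := by
    intro y
    have := hD y
    rw [closure_subtype] at this
    exact this
  have hcomp : CompactSpace (closure D') := isCompact_iff_compactSpace.1 isClosed_closure.isCompact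
  let g : closure D' → nodes D' L → Bool := fun y t => e y.1 t.1
  have hgc : Continuous g := continuous_pi fun t =>
    (continuous_apply t.1).comp (isInducing_e.continuous.comp continuous_subtype_val)
  have hgi : Function.Injective g := by
    intro y z hyz
    apply Subtype.ext
    apply hsep _ y.2 _ z.2
    intro t ht
    exact congrFun hyz ⟨t, ht⟩
  have hgind : IsInducing g := (hgc.isClosedEmbedding hgi).isInducing
  have hinc : IsInducing (fun y : Y => (⟨y.1, hY y⟩ : closure D')) := by
    rw [← IsInducing.subtypeVal.of_comp_iff]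
    exact IsInducing.subtypeVal
  refine (networkWeight_le_of_inducing _ (hgind.comp hinc)).trans ?_
  have hDD : #D' ≤ #D := Cardinal.mk_image_le
  calc #(nodes D' L) + ℵ₀ ≤ (#D' + ℵ₀) + ℵ₀ := add_le_add hL le_rfl
    _ = #D' + ℵ₀ := by rw [add_assoc, Cardinal.aleph0_add_aleph0]
    _ ≤ #D + ℵ₀ := add_le_add hDD le_rfl

end Pool.Agent.Helper102.PathSpace
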