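import Mathlib

/-!
A Tychonoff space `Pt` in which every closed set is a G-delta, with a retract `F` that is
not a zero set, and the twisted space `QPt` (the wedge of `F` and `Pt / F`), whose space
of continuous functions is linearly homeomorphic to that of `Pt`, in which the base point is not
a G-delta.
-/

set_option autoImplicit false

namespace Pool.Agent.Helper102.PerfectSpace

open Topology Filter Set

/-- The initial segment of length `n` of the branch `x`. -/
def cut (x : ℕ → Bool) (n : ℕ) : List Bool := List.ofFn (fun i : Fin n => x i)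

@[simp] lemma cut_length (x : ℕ → Bool) (n : ℕ) : (cut x n).length = n := by simp [cut]

lemma cut_eq_iff {x y : ℕ → Bool} {n m : ℕ} :
    cut x n = cut y m ↔ n = m ∧ ∀ i < n, x i = y i := by
  constructor
  · intro h
    have hl : n = m := by
      have := congrArg List.length h
      simpa using this
    subst hl
    refine ⟨rfl, ?_⟩
    have h2 : (fun i : Fin n => x i) = (fun i : Fin n => y i) := List.ofFn_injective h
    intro i hi
    exact congrFun h2 ⟨i, hi⟩
  · rintro ⟨rfl, h⟩
    unfold cut
    congr 1
    funext i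
    exact h i i.2

/-- The points of the space. -/
inductive Pt : Type
  | node (t : List Bool) : Pt
  | leaf (t : List Bool) (i : Bool) : Pt
  | b (x : ℕ → Bool) : Pt
  | a (x : ℕ → Bool) : Pt

open Pt

instance : TopologicalSpace Pt where
  IsOpen U := (∀ x, b x ∈ U → ∀ᶠ n in atTop, node (cut x n) ∈ U ∧ leaf (cut x n) (x n) ∈ U) ∧
     (∀ x, a x ∈ U → ∀ᶠ n in atTop, leaf (cut x n) (!x n) ∈ U)
  isOpen_univ := by simp
  isOpen_inter := by
    rintro s t ⟨hs1, hs2⟩ ⟨ht1, ht2⟩
    refine ⟨fun x hx => ?_, fun x hx => ?_⟩
    · filter_upwards [hs1 x hx.1, ht1 x hx.2] with n h1 h2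
      exact ⟨⟨h1.1, h2.1⟩, ⟨h1.2, h2.2⟩⟩
    · filter_upwards [hs2 x hx.1, ht2 x hx.2] with n h1 h2
      exact ⟨h1, h2⟩
  isOpen_sUnion := by
    intro S hS
    refine ⟨fun x hx => ?_, fun x hx => ?_⟩
    · obtain ⟨s, hs, hxs⟩ := hx
      filter_upwards [(hS s hs).1 x hxs] with n h1
      exact ⟨⟨s, hs, h1.1⟩, ⟨s, hs, h1.2⟩⟩
    · obtain ⟨s, hs, hxs⟩ := hx
      filter_upwards [(hS s hs).2 x hxs] with n h1
      exact ⟨s, hs, h1⟩

lemma isOpen_iff (U : Set Pt) : IsOpen U ↔
    (∀ x, b x ∈ U → ∀ᶠ n in atTop, node (cut x n) ∈ U ∧ leaf (cut x n) (x n) ∈ U) ∧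
     (∀ x, a x ∈ U → ∀ᶠ n in atTop, leaf (cut x n) (!x n) ∈ U) := Iff.rfl

lemma continuous_iff {Z : Type*} [TopologicalSpace Z] (f : Pt → Z) :
    Continuous f ↔ (∀ x, Tendsto (fun n => f (node (cut x n))) atTop (𝓝 (f (b x))) ∧
        Tendsto (fun n => f (leaf (cut x n) (x n))) atTop (𝓝 (f (b x)))) ∧
      (∀ x, Tendsto (fun n => f (leaf (cut x n) (!x n))) atTop (𝓝 (f (a x)))) := by
  constructor
  · intro hf
    refine ⟨fun x => ⟨?_, ?_⟩, fun x => ?_⟩
    · rw [tendsto_nhds]
      intro s hs hxs
      have := ((isOpen_iff _).1 (hs.preimage hf)).1 x hxs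
      exact this.mono fun n h => h.1
    · rw [tendsto_nhds]
      intro s hs hxs
      have := ((isOpen_iff _).1 (hs.preimage hf)).1 x hxs
      exact this.mono fun n h => h.2
    · rw [tendsto_nhds]
      intro s hs hxs
      have := ((isOpen_iff _).1 (hs.preimage hf)).2 x hxs
      exact this.mono fun n h => h
  · rintro ⟨h1, h2⟩
    rw [continuous_def]
    intro s hs
    rw [isOpen_iff]
    refine ⟨fun x hx => ?_, fun x hx => ?_⟩
    · have ha := (tendsto_nhds.1 (h1 x).1) s hs hx
      have hb := (tendsto_nhds.1 (h1 x).2) s hs hx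
      filter_upwards [ha, hb] with n h3 h4
      exact ⟨h3, h4⟩
    · have ha := (tendsto_nhds.1 (h2 x)) s hs hx
      filter_upwards [ha] with n h3
      exact h3

/-- Every closed subset is a G-delta. -/
lemma isGδ_of_isClosed (s : Set Pt) (_hs : IsClosed s) : IsGδ s := by
  -- the countable set of isolated points
  set N : Set Pt := Set.range node ∪ Set.range (fun p : List Bool × Bool => leaf p.1 p.2) with hN
  have hNc : N.Countable := (Set.countable_range _).union (Set.countable_range _)
  have hopen : IsOpen (s ∪ N) := by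
    rw [isOpen_iff]
    refine ⟨fun x _ => Eventually.of_forall fun n => ⟨?_, ?_⟩,
      fun x _ => Eventually.of_forall fun n => ?_⟩
    · exact Or.inr (Or.inl ⟨_, rfl⟩)
    · exact Or.inr (Or.inr ⟨(_, _), rfl⟩)
    · exact Or.inr (Or.inr ⟨(_, _), rfl⟩)
  have hsing : ∀ p ∈ N \ s, IsOpen ({p}ᶜ : Set Pt) := by
    intro p hp
    rw [isOpen_iff]
    rcases hp.1 with ⟨t, rfl⟩ | ⟨⟨t, i⟩, rfl⟩
    · refine ⟨fun x _ => ?_, fun x _ => Eventually.of_forall fun n => by simp⟩
      filter_upwards [eventually_gt_atTop t.length] with n hn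
      refine ⟨?_, by simp⟩
      simp only [mem_compl_iff, mem_singleton_iff, node.injEq]
      intro h
      have := congrArg List.length h
      simp at this
      omega
    · refine ⟨fun x _ => ?_, fun x _ => ?_⟩
      · filter_upwards [eventually_gt_atTop t.length] with n hn
        refine ⟨by simp, ?_⟩
        simp only [mem_compl_iff, mem_singleton_iff, leaf.injEq, not_and]
        intro h
        have := congrArg List.length h
        simp at this
        omega
      · filter_upwards [eventually_gt_atTop t.length] with n hn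
        simp only [mem_compl_iff, mem_singleton_iff, leaf.injEq, not_and]
        intro h
        have := congrArg List.length h
        simp at this
        omega
  have heq : s = (s ∪ N) ∩ ⋂ p ∈ N \ s, ({p}ᶜ : Set Pt) := by
    ext z
    simp only [mem_inter_iff, mem_union, mem_iInter, mem_compl_iff, mem_singleton_iff]
    constructor
    · intro hz
      exact ⟨Or.inl hz, fun p hp h => hp.2 (h ▸ hz)⟩
    · rintro ⟨h1, h2⟩
      by_contra hz
      rcases h1 with h1 | h1
      · exact hz h1
      · exact h2 z ⟨h1, hz⟩ rfl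
  rw [heq]
  exact hopen.isGδ.inter (IsGδ.biInter (hNc.mono sdiff_subset) fun p hp => (hsing p hp).isGδ)

/-- basic clopen neighbourhoods of `b x` -/
def Vb (x : ℕ → Bool) (m : ℕ) : Set Pt := fun p => match p with
  | node t => ∃ n ≥ m, t = cut x n
  | leaf t i => ∃ n ≥ m, t = cut x n ∧ i = x n
  | b y => y = x
  | a _ => False

/-- basic clopen neighbourhoods of `a x` -/
def Va (x : ℕ → Bool) (m : ℕ) : Set Pt := fun p => match p with
  | node _ => False
  | leaf t i => ∃ n ≥ m, t = cut x n ∧ i = !x n
  | b _ => False
  | a y => y = x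

@[simp] lemma Vb_node (x : ℕ → Bool) (m : ℕ) (t : List Bool) :
    node t ∈ Vb x m ↔ ∃ n ≥ m, t = cut x n := Iff.rfl
@[simp] lemma Vb_leaf (x : ℕ → Bool) (m : ℕ) (t : List Bool) (i : Bool) :
    leaf t i ∈ Vb x m ↔ ∃ n ≥ m, t = cut x n ∧ i = x n := Iff.rfl
@[simp] lemma Vb_b (x : ℕ → Bool) (m : ℕ) (y : ℕ → Bool) :
    b y ∈ Vb x m ↔ y = x := Iff.rfl
@[simp] lemma Vb_a (x : ℕ → Bool) (m : ℕ) (y : ℕ → Bool) :
    a y ∈ Vb x m ↔ False := Iff.rfl
@[simp] lemma Va_node (x : ℕ → Bool) (m : ℕ) (t : List Bool) :
    node t ∈ Va x m ↔ False := Iff.rfl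
@[simp] lemma Va_leaf (x : ℕ → Bool) (m : ℕ) (t : List Bool) (i : Bool) :
    leaf t i ∈ Va x m ↔ ∃ n ≥ m, t = cut x n ∧ i = !x n := Iff.rfl
@[simp] lemma Va_b (x : ℕ → Bool) (m : ℕ) (y : ℕ → Bool) :
    b y ∈ Va x m ↔ False := Iff.rfl
@[simp] lemma Va_a (x : ℕ → Bool) (m : ℕ) (y : ℕ → Bool) :
    a y ∈ Va x m ↔ y = x := Iff.rfl

lemma eventually_cut_ne {x y : ℕ → Bool} (h : y ≠ x) :
    ∀ᶠ n in atTop, ∀ k, cut y n ≠ cut x k := by
  obtain ⟨j, hj⟩ := Function.ne_iff.1 h
  filter_upwards [eventually_gt_atTop j] with n hn k hk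
  exact hj ((cut_eq_iff.1 hk).2 j hn)

lemma isClopen_Vb (x : ℕ → Bool) (m : ℕ) : IsClopen (Vb x m) := by
  constructor
  · rw [← isOpen_compl_iff, isOpen_iff]
    refine ⟨fun y hy => ?_, fun y _ => ?_⟩
    · have hyx : y ≠ x := by simpa using hy
      filter_upwards [eventually_cut_ne hyx] with n hn
      constructor
      · simp only [mem_compl_iff, Vb_node, not_exists, not_and]
        intro k _ h
        exact hn k h
      · simp only [mem_compl_iff, Vb_leaf, not_exists, not_and]
        intro k _ h
        exact (hn k h).elim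
    · by_cases hyx : y = x
      · subst hyx
        refine Eventually.of_forall fun n => ?_
        simp only [mem_compl_iff, Vb_leaf, not_exists, not_and]
        intro k _ h
        have := (cut_eq_iff.1 h).1
        subst this
        simp
      · filter_upwards [eventually_cut_ne hyx] with n hn
        simp only [mem_compl_iff, Vb_leaf, not_exists, not_and]
        intro k _ h
        exact (hn k h).elim
  · rw [isOpen_iff]
    refine ⟨fun y hy => ?_, fun y hy => ?_⟩
    · have hyx : y = x := by simpa using hy
      subst hyx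
      filter_upwards [eventually_ge_atTop m] with n hn
      exact ⟨⟨n, hn, rfl⟩, ⟨n, hn, rfl, rfl⟩⟩
    · simp at hy

lemma isClopen_Va (x : ℕ → Bool) (m : ℕ) : IsClopen (Va x m) := by
  constructor
  · rw [← isOpen_compl_iff, isOpen_iff]
    refine ⟨fun y _ => ?_, fun y hy => ?_⟩
    · by_cases hyx : y = x
      · subst hyx
        refine Eventually.of_forall fun n => ⟨by simp, ?_⟩
        simp only [mem_compl_iff, Va_leaf, not_exists, not_and]
        intro k _ h
        have := (cut_eq_iff.1 h).1
        subst this
        simp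
      · filter_upwards [eventually_cut_ne hyx] with n hn
        refine ⟨by simp, ?_⟩
        simp only [mem_compl_iff, Va_leaf, not_exists, not_and]
        intro k _ h
        exact (hn k h).elim
    · have hyx : y ≠ x := by simpa using hy
      filter_upwards [eventually_cut_ne hyx] with n hn
      simp only [mem_compl_iff, Va_leaf, not_exists, not_and]
      intro k _ h
      exact (hn k h).elim
  · rw [isOpen_iff]
    refine ⟨fun y hy => ?_, fun y hy => ?_⟩
    · simp at hy
    · have hyx : y = x := by simpa using hy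
      subst hyx
      filter_upwards [eventually_ge_atTop m] with n hn
      exact ⟨n, hn, rfl, rfl⟩

lemma isClopen_node (t : List Bool) : IsClopen ({node t} : Set Pt) := by
  constructor
  · rw [← isOpen_compl_iff, isOpen_iff]
    refine ⟨fun x _ => ?_, fun x _ => Eventually.of_forall fun n => by simp⟩
    filter_upwards [eventually_gt_atTop t.length] with n hn
    refine ⟨?_, by simp⟩
    simp only [mem_compl_iff, mem_singleton_iff, node.injEq]
    intro h
    have := congrArg List.length h
    simp at this
    omega
  · rw [isOpen_iff]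
    refine ⟨fun x hx => ?_, fun x hx => ?_⟩ <;> simp at hx

lemma isClopen_leaf (t : List Bool) (i : Bool) : IsClopen ({leaf t i} : Set Pt) := by
  constructor
  · rw [← isOpen_compl_iff, isOpen_iff]
    refine ⟨fun x _ => ?_, fun x _ => ?_⟩
    · filter_upwards [eventually_gt_atTop t.length] with n hn
      refine ⟨by simp, ?_⟩
      simp only [mem_compl_iff, mem_singleton_iff, leaf.injEq, not_and]
      intro h
      have := congrArg List.length h
      simp at this
      omega
    · filter_upwards [eventually_gt_atTop t.length] with n hn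
      simp only [mem_compl_iff, mem_singleton_iff, leaf.injEq, not_and]
      intro h
      have := congrArg List.length h
      simp at this
      omega
  · rw [isOpen_iff]
    refine ⟨fun x hx => ?_, fun x hx => ?_⟩ <;> simp at hx

/-- `Pt` is zero-dimensional. -/
lemma exists_clopen (p : Pt) (U : Set Pt) (hU : IsOpen U) (hp : p ∈ U) :
    ∃ V, IsClopen V ∧ p ∈ V ∧ V ⊆ U := by
  cases p with
  | node t => exact ⟨{node t}, isClopen_node t, rfl, by simpa using hp⟩
  | leaf t i => exact ⟨{leaf t i}, isClopen_leaf t i, rfl, by simpa using hp⟩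
  | b x =>
    obtain ⟨m, hm⟩ := eventually_atTop.1 (((isOpen_iff U).1 hU).1 x hp)
    refine ⟨Vb x m, isClopen_Vb x m, by simp, ?_⟩
    intro q hq
    cases q with
    | node t =>
      obtain ⟨n, hn, rfl⟩ := hq
      exact (hm n hn).1
    | leaf t i =>
      obtain ⟨n, hn, rfl, rfl⟩ := hq
      exact (hm n hn).2
    | b y =>
      have : y = x := hq
      subst this
      exact hp
    | a y => exact (show False from hq).elim
  | a x =>
    obtain ⟨m, hm⟩ := eventually_atTop.1 (((isOpen_iff U).1 hU).2 x hp)
    refine ⟨Va x m, isClopen_Va x m, by simp, ?_⟩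
    intro q hq
    cases q with
    | node t => exact (show False from hq).elim
    | leaf t i =>
      obtain ⟨n, hn, rfl, rfl⟩ := hq
      exact (hm n hn)
    | b y => exact (show False from hq).elim
    | a y =>
      have : y = x := hq
      subst this
      exact hp

/-- The characteristic function of a clopen set. -/
noncomputable def ind (V : Set Pt) (p : Pt) : ℝ := by
  classical exact if p ∈ V then 1 else 0

lemma ind_pos {V : Set Pt} {p : Pt} (h : p ∈ V) : ind V p = 1 := by simp [ind, h]
lemma ind_neg {V : Set Pt} {p : Pt} (h : p ∉ V) : ind V p = 0 := by simp [ind, h]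

lemma continuous_ind {V : Set Pt} (hV : IsClopen V) : Continuous (ind V) := by
  classical
  unfold ind
  apply Continuous.if
  · intro p hp
    have : frontier {p | p ∈ V} = ∅ := hV.frontier_eq
    rw [this] at hp
    exact hp.elim
  · exact continuous_const
  · exact continuous_const

instance : CompletelyRegularSpace Pt := by
  classical
  rw [completelyRegularSpace_iff_isOpen]
  intro p U hU hp
  obtain ⟨V, hV, hpV, hVU⟩ := exists_clopen p U hU hp
  refine ⟨fun q => if q ∈ V then 0 else 1, ?_, by simp [hpV], ?_⟩
  · apply Continuous.if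
    · intro p hp
      have : frontier {p | p ∈ V} = ∅ := hV.frontier_eq
      rw [this] at hp
      exact hp.elim
    · exact continuous_const
    · exact continuous_const
  · intro q hq
    have : q ∉ V := fun h => hq (hVU h)
    simp [this]

instance : T0Space Pt := by
  refine ⟨fun p q h => ?_⟩
  by_contra hne
  -- closedness of singletons via clopen sets
  have key : ∀ V : Set Pt, IsClopen V → (p ∈ V ↔ q ∈ V) := fun V hV => h.mem_open_iff hV.isOpen
  cases p with
  | node t =>
    have := (key _ (isClopen_node t)).1 rfl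
    exact hne this.symm
  | leaf t i =>
    have := (key _ (isClopen_leaf t i)).1 rfl
    exact hne this.symm
  | b x =>
    cases q with
    | node t =>
      have := (key _ (isClopen_node t)).2 rfl
      exact hne this
    | leaf t i =>
      have := (key _ (isClopen_leaf t i)).2 rfl
      exact hne this
    | b y =>
      have : y = x := (key _ (isClopen_Vb x 0)).1 (by simp)
      exact hne (by rw [this])
    | a y => exact (show False from (key _ (isClopen_Vb x 0)).1 (by simp)).elim
  | a x =>
    cases q with
    | node t =>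
      have := (key _ (isClopen_node t)).2 rfl
      exact hne this
    | leaf t i =>
      have := (key _ (isClopen_leaf t i)).2 rfl
      exact hne this
    | b y => exact (show False from (key _ (isClopen_Va x 0)).1 (by simp)).elim
    | a y =>
      have : y = x := (key _ (isClopen_Va x 0)).1 (by simp)
      exact hne (by rw [this])

instance : T35Space Pt where

/-- The retraction onto the set `F` of all points `node t`, `b x`. -/
def ret : Pt → Pt
  | node t => node t
  | leaf t _ => node t
  | b x => b x
  | a x => b x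

lemma tendsto_node (x : ℕ → Bool) : Tendsto (fun n => node (cut x n)) atTop (𝓝 (b x)) :=
  (((continuous_iff (id : Pt → Pt)).1 continuous_id).1 x).1

lemma tendsto_leaf_b (x : ℕ → Bool) : Tendsto (fun n => leaf (cut x n) (x n)) atTop (𝓝 (b x)) :=
  (((continuous_iff (id : Pt → Pt)).1 continuous_id).1 x).2

lemma tendsto_leaf_a (x : ℕ → Bool) : Tendsto (fun n => leaf (cut x n) (!x n)) atTop (𝓝 (a x)) :=
  ((continuous_iff (id : Pt → Pt)).1 continuous_id).2 x

lemma continuous_ret : Continuous ret := by
  rw [continuous_iff]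
  exact ⟨fun x => ⟨tendsto_node x, tendsto_node x⟩, fun x => tendsto_node x⟩

/-- The twisting of a function. -/
def tw (f : Pt → ℝ) : Pt → ℝ
  | node t => f (node t)
  | leaf t i => f (leaf t i) - f (node t) + f (node [])
  | b x => f (b x)
  | a x => f (a x) - f (b x) + f (node [])

/-- The inverse of the twisting. -/
def untw (g : Pt → ℝ) : Pt → ℝ
  | node t => g (node t)
  | leaf t i => g (leaf t i) - g (node []) + g (node t)
  | b x => g (b x)
  | a x => g (a x) - g (node []) + g (b x)

lemma untw_tw (f : Pt → ℝ) : untw (tw f) = f := by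
  funext p
  cases p <;> simp [untw, tw]

lemma tw_untw (g : Pt → ℝ) : tw (untw g) = g := by
  funext p
  cases p <;> simp [untw, tw]

/-- The map collapsing `F` to the base point. -/
def col : Pt → Pt
  | node _ => node []
  | leaf t i => leaf t i
  | b _ => node []
  | a x => a x

lemma tw_col (f : Pt → ℝ) (p : Pt) : tw f (col p) = f p - f (ret p) + f (node []) := by
  cases p <;> simp [tw, col, ret]

lemma tw_ret (f : Pt → ℝ) (p : Pt) : tw f (ret p) = f (ret p) := by
  cases p <;> simp [tw, ret]

lemma untw_eq (g : Pt → ℝ) (p : Pt) : untw g p = g (col p) - g (node []) + g (ret p) := by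
  cases p <;> simp [untw, col, ret]

/-- The second space: the same points with the coarsest topology making all twisted continuous
functions continuous. -/
structure QPt : Type where
  /-- the underlying point -/
  pt : Pt

instance : TopologicalSpace QPt :=
  TopologicalSpace.induced (fun (p : QPt) (f : C(Pt, ℝ)) => tw f p.pt) Pi.topologicalSpace

lemma isInducing_tw : IsInducing (fun (p : QPt) (f : C(Pt, ℝ)) => tw f p.pt) := ⟨rfl⟩

instance : CompletelyRegularSpace QPt := isInducing_tw.completelyRegularSpace

lemma continuous_tw (f : C(Pt, ℝ)) : Continuous (fun p : QPt => tw f p.pt) :=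
  (continuous_apply f).comp isInducing_tw.continuous

lemma continuous_to_QPt {Z : Type*} [TopologicalSpace Z] (g : Z → QPt)
    (h : ∀ f : C(Pt, ℝ), Continuous (fun z => tw f (g z).pt)) : Continuous g := by
  rw [isInducing_tw.continuous_iff]
  exact continuous_pi h

/-- retraction as a map to `QPt` -/
def retQ (p : Pt) : QPt := ⟨ret p⟩

/-- collapsing as a map to `QPt` -/
def colQ (p : Pt) : QPt := ⟨col p⟩

lemma continuous_retQ : Continuous retQ := by
  apply continuous_to_QPt
  intro f
  simp only [retQ, tw_ret]
  exact f.continuous.comp continuous_ret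

lemma continuous_colQ : Continuous colQ := by
  apply continuous_to_QPt
  intro f
  simp only [colQ, tw_col]
  exact (f.continuous.sub (f.continuous.comp continuous_ret)).add continuous_const

lemma continuous_untw (g : QPt → ℝ) (hg : Continuous g) :
    Continuous (untw (fun p => g ⟨p⟩)) := by
  have : untw (fun p => g ⟨p⟩) = fun p => g (colQ p) - g ⟨node []⟩ + g (retQ p) := by
    funext p
    rw [untw_eq]
    rfl
  rw [this]
  exact ((hg.comp continuous_colQ).sub continuous_const).add (hg.comp continuous_retQ)

instance : T0Space QPt := by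
  have key : ∀ p q : QPt, Inseparable p q → ∀ V : Set Pt, IsClopen V →
      tw (ind V) p.pt = tw (ind V) q.pt := by
    intro p q h V hV
    have h2 := h.map (continuous_tw ⟨ind V, continuous_ind hV⟩)
    exact h2.eq
  have hleaf : ∀ (p q : QPt), Inseparable p q → ∀ t i, p.pt = leaf t i → p = q := by
    rintro ⟨p⟩ ⟨q⟩ h t i rfl
    have := key _ _ h _ (isClopen_leaf t i)
    by_contra hne
    have hne' : q ≠ leaf t i := fun hq => hne (by rw [hq])
    cases q with
    | node s => simp [tw, ind] at this
    | leaf s j =>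
      have h1 : ¬ (s = t ∧ j = i) := fun h => hne' (by rw [h.1, h.2])
      simp [tw, ind, h1] at this
    | b x => simp [tw, ind] at this
    | a x => simp [tw, ind] at this
  have hnode : ∀ (p q : QPt), Inseparable p q → ∀ t, p.pt = node t → p = q := by
    rintro ⟨p⟩ ⟨q⟩ h t rfl
    cases q with
    | node s =>
      by_contra hne
      have := key _ _ h _ (isClopen_node t)
      have hst : ¬ s = t := fun hst => hne (by rw [hst])
      simp [tw, ind, hst] at this
    | leaf s j => exact (hleaf _ _ h.symm s j rfl).symm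
    | b x =>
      have := key _ _ h _ (isClopen_node t)
      simp [tw, ind] at this
    | a x =>
      have := key _ _ h _ (isClopen_Va x 0)
      simp [tw, ind] at this
  refine ⟨fun p q h => ?_⟩
  obtain ⟨p⟩ := p
  obtain ⟨q⟩ := q
  cases p with
  | node t => exact hnode _ _ h t rfl
  | leaf t i => exact hleaf _ _ h t i rfl
  | b x =>
    cases q with
    | node t => exact (hnode _ _ h.symm t rfl).symm
    | leaf t i => exact (hleaf _ _ h.symm t i rfl).symm
    | b y =>
      have := key _ _ h _ (isClopen_Vb x 0)
      by_contra hne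
      have hyx : ¬ y = x := fun hyx => hne (by rw [hyx])
      simp [tw, ind, hyx] at this
    | a y =>
      have := key _ _ h _ (isClopen_Va y 0)
      simp [tw, ind] at this
  | a x =>
    cases q with
    | node t => exact (hnode _ _ h.symm t rfl).symm
    | leaf t i => exact (hleaf _ _ h.symm t i rfl).symm
    | b y =>
      have := key _ _ h _ (isClopen_Va x 0)
      simp [tw, ind] at this
    | a y =>
      have := key _ _ h _ (isClopen_Va x 0)
      by_contra hne
      have hyx : ¬ y = x := fun hyx => hne (by rw [hyx])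
      simp [tw, ind, hyx] at this

instance : T35Space QPt where

/-- The base point of `QPt` is not a G-delta. -/
lemma not_isGδ_base : ¬ IsGδ ({⟨node []⟩} : Set QPt) := by
  intro hG
  rw [isGδ_iff_eq_iInter_nat] at hG
  obtain ⟨U, hUo, hU⟩ := hG
  have hbase : ∀ n, (⟨node []⟩ : QPt) ∈ U n := by
    intro n
    have : (⟨node []⟩ : QPt) ∈ ⋂ n, U n := by rw [← hU]; rfl
    exact mem_iInter.1 this n
  have hex : ∀ n, ∃ h : QPt → unitInterval, Continuous h ∧ h ⟨node []⟩ = 0 ∧ EqOn h 1 (U n)ᶜ :=
    fun n => CompletelyRegularSpace.completely_regular_isOpen _ _ (hUo n) (hbase n)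
  choose h hc h0 h1 using hex
  -- the closed sets for the Baire category argument
  let P : ℕ × ℕ → Set (ℕ → Bool) := fun nm =>
    {x | ∀ j ≥ nm.2, (1 / 2 : ℝ) ≤ (h nm.1 ⟨leaf (cut x j) (!x j)⟩ : ℝ)}
  have hPclosed : ∀ nm, IsClosed (P nm) := by
    intro nm
    have : P nm = ⋂ j, ⋂ (_ : j ≥ nm.2),
        {x : ℕ → Bool | (1 / 2 : ℝ) ≤ (h nm.1 ⟨leaf (cut x j) (!x j)⟩ : ℝ)} := by
      ext x; simp [P]
    rw [this]
    refine isClosed_iInter fun j => isClosed_iInter fun _ => ?_
    have hcont : Continuous (fun x : ℕ → Bool => ((fun i : Fin j => x i), x j)) := by fun_prop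
    have : {x : ℕ → Bool | (1 / 2 : ℝ) ≤ (h nm.1 ⟨leaf (cut x j) (!x j)⟩ : ℝ)} =
        (fun x : ℕ → Bool => ((fun i : Fin j => x i), x j)) ⁻¹'
          {p : (Fin j → Bool) × Bool |
            (1 / 2 : ℝ) ≤ (h nm.1 ⟨leaf (List.ofFn p.1) (!p.2)⟩ : ℝ)} := rfl
    rw [this]
    exact (isClosed_discrete _).preimage hcont
  have hcover : ⋃ nm, P nm = univ := by
    rw [eq_univ_iff_forall]
    intro x
    have hax : (⟨a x⟩ : QPt) ∉ ⋂ n, U n := by
      rw [← hU]
      intro h
      have : a x = node [] := congrArg QPt.pt h
      cases this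
    rw [mem_iInter, not_forall] at hax
    obtain ⟨n, hn⟩ := hax
    have hn1 : h n ⟨a x⟩ = 1 := h1 n hn
    have hcomp : Continuous (fun p : Pt => (h n (colQ p) : ℝ)) :=
      continuous_subtype_val.comp ((hc n).comp continuous_colQ)
    have ht := ((continuous_iff _).1 hcomp).2 x
    have hlim : ((h n (colQ (a x)) : unitInterval) : ℝ) = 1 := by
      have : colQ (a x) = ⟨a x⟩ := rfl
      rw [this, hn1]; rfl
    rw [hlim] at ht
    have := ht.eventually (lt_mem_nhds (show (1 / 2 : ℝ) < 1 by norm_num))
    obtain ⟨m, hm⟩ := eventually_atTop.1 this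
    rw [mem_iUnion]
    exact ⟨(n, m), fun j hj => (hm j hj).le⟩
  obtain ⟨⟨n, m⟩, y, hy⟩ := nonempty_interior_of_iUnion_of_closed hPclosed hcover
  obtain ⟨I, u, hIu, hsub⟩ := isOpen_pi_iff.1 isOpen_interior y hy
  -- points agreeing with `y` on `I` are in `P`
  have hcomp : Continuous (fun p : Pt => (h n (colQ p) : ℝ)) :=
    continuous_subtype_val.comp ((hc n).comp continuous_colQ)
  have ht := (((continuous_iff _).1 hcomp).1 y).2
  have hlim : ((h n (colQ (b y)) : unitInterval) : ℝ) = 0 := by
    have : colQ (b y) = ⟨node []⟩ := rfl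
    rw [this, h0]; rfl
  rw [hlim] at ht
  have hev := ht.eventually (gt_mem_nhds (show (0 : ℝ) < 1 / 2 by norm_num))
  have hev2 : ∀ᶠ j in atTop, j ∉ I := by
    filter_upwards [eventually_gt_atTop (I.sup id)] with j hj hjI
    have := Finset.le_sup (f := id) hjI
    simp only [id] at this
    omega
  obtain ⟨j, hj1, hj2, hj3⟩ := (hev.and (hev2.and (eventually_ge_atTop m))).exists
  -- flip the `j`-th bit of `y`
  let y' : ℕ → Bool := Function.update y j (!y j)
  have hy' : y' ∈ P (n, m) := by
    apply interior_subset
    apply hsub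
    intro i hi
    have : y' i = y i := by
      have hne : i ≠ j := by
        rintro rfl
        exact hj2 hi
      simp [y', hne]
    rw [this]
    exact (hIu i hi).2
  have h3 := hy' j hj3
  have hcut : cut y' j = cut y j := by
    rw [cut_eq_iff]
    refine ⟨rfl, fun i hi => ?_⟩
    have hne : i ≠ j := by omega
    simp [y', hne]
  have hbit : (!y' j) = y j := by simp [y']
  rw [hcut, hbit] at h3
  have : colQ (leaf (cut y j) (y j)) = ⟨leaf (cut y j) (y j)⟩ := rfl
  rw [this] at hj1
  linarith

end Pool.Agent.Helper102.PerfectSpace
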