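import Pool.Agent.Helper102.CoverMain

set_option autoImplicit false

namespace Pool.Agent.Helper102.SC

open Set Topology
open Pool.Agent.Helper102.Ladder Pool.Agent.Helper102.IdxC Pool.Agent.Helper102.CantorBig
open Pool.Agent.Helper102.LSpace Pool.Agent.Helper102.PSpace Pool.Agent.Helper102.XSpace

theorem dv_union (A A' : Set ℕ) : dv (A ∪ A') ⊆ dv A ∪ dv A' := by
  intro z hz
  by_contra hcon
  simp only [mem_union, not_or, dv, mem_ofPred_eq] at hcon
  obtain ⟨h1, h2⟩ := hcon
  push Not at h1 h2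
  obtain ⟨k, N, h1⟩ := h1
  obtain ⟨k', N', h2⟩ := h2
  obtain ⟨n, hn, hN, hag⟩ := hz (max k k') (max N N')
  rcases hn with hn | hn
  · exact h1 n hn ((le_max_left _ _).trans hN) (agr_mono (le_max_left _ _) hag)
  · exact h2 n hn ((le_max_right _ _).trans hN) (agr_mono (le_max_right _ _) hag)

theorem pip_mem_closure {ξ : I} {A : Set ℕ} (h : (S ξ ∩ A).Infinite) :
    pip ξ ∈ closure (nu '' A) := by
  refine mem_closure_pt.2 fun m => ?_
  obtain ⟨n, ⟨hn, hnA⟩, hm⟩ := h.exists_gt (Nat.nth (· ∈ S ξ) m)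
  exact ⟨nu n, nu_memP_iff hn hm.le, ⟨n, hnA, rfl⟩⟩

theorem dense_nu0 (α : I) : ∀ m, ∃ n, Mem lad0 α m (Sum.inl n) := by
  induction α using WellFoundedLT.induction with
  | _ α ih =>
    intro m
    rcases h : lad0 α m with n | β
    · exact ⟨n, Mem.nat α m m n le_rfl h⟩
    · obtain ⟨n, hn⟩ := ih β ((lad0_spec α).2.1 m β h) m
      exact ⟨n, Mem.step α m m β _ le_rfl h hn⟩

theorem dense_nu (p : X) : p ∈ closure (range nu) := by
  rcases xcases p with ⟨n, rfl⟩ | ⟨α, rfl⟩ | ⟨ξ, rfl⟩
  · exact subset_closure ⟨n, rfl⟩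
  · refine mem_closure_pt.2 fun m => ?_
    obtain ⟨n, hn⟩ := dense_nu0 α m
    exact ⟨nu n, nu_memB.2 hn, ⟨n, rfl⟩⟩
  · have := pip_mem_closure (ξ := ξ) (A := univ) (by simpa using S_inf ξ)
    rwa [image_univ] at this

section

variable {f : X → ℝ} (hf : Continuous f)

include hf in
theorem link {r s : ℝ} (hrs : r < s) (h1 : ¬ (dv {n | f (nu n) < r}).Countable)
    (h2 : ¬ (dv {n | s < f (nu n)}).Countable) : False := by
  obtain ⟨ξ, ha, hb⟩ := S_link h1 h2
  have h3 : f (pip ξ) ≤ r := by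
    have h5 : closure (nu '' {n | f (nu n) < r}) ⊆ {p | f p ≤ r} := by
      refine closure_minimal ?_ (isClosed_le hf continuous_const)
      rintro _ ⟨n, hn, rfl⟩
      exact (show f (nu n) < r from hn).le
    exact h5 (pip_mem_closure ha)
  have h4 : s ≤ f (pip ξ) := by
    have h5 : closure (nu '' {n | s < f (nu n)}) ⊆ {p | s ≤ f p} := by
      refine closure_minimal ?_ (isClosed_le continuous_const hf)
      rintro _ ⟨n, hn, rfl⟩
      exact (show s < f (nu n) from hn).le
    exact h5 (pip_mem_closure hb)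
  linarith

theorem dv_empty : (dv ∅).Countable := by
  have : dv ∅ = ∅ := by
    ext z
    simp only [mem_empty_iff_false, iff_false]
    intro h
    obtain ⟨n, hn, -⟩ := h 0 0
    exact hn
  rw [this]
  exact countable_empty

theorem dv_univ : dv univ = univ := by
  ext z
  simp only [mem_univ, iff_true]
  intro k N
  obtain ⟨n, hn, h⟩ := pos_dense z k N
  exact ⟨n, mem_univ _, hn, h⟩

include hf in
theorem exists_const (h0 : ∀ p, 0 ≤ f p) (h1 : ∀ p, f p ≤ 1) :
    ∃ c : ℝ, ∀ ε > 0, (dv {n | ε ≤ |f (nu n) - c|}).Countable := by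
  let R : Set ℝ := {r | ¬ (dv {n | f (nu n) < r}).Countable}
  have hb : BddBelow R := by
    refine ⟨0, fun r hr => ?_⟩
    by_contra hcon
    refine hr ?_
    have : {n | f (nu n) < r} = ∅ := by
      ext n
      simp only [mem_ofPred_eq, mem_empty_iff_false, iff_false, not_lt]
      exact (not_le.1 hcon).le.trans (h0 _)
    rw [this]
    exact dv_empty
  have hne : R.Nonempty := by
    refine ⟨2, fun hc => ?_⟩
    have : {n | f (nu n) < 2} = univ := by
      ext n
      simp only [mem_ofPred_eq, mem_univ, iff_true]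
      have := h1 (nu n)
      linarith
    rw [this, dv_univ] at hc
    exact not_countable_univ hc
  refine ⟨sInf R, fun ε hε => ?_⟩
  have hA : (dv {n | f (nu n) < sInf R - ε / 2}).Countable := by
    by_contra hcon
    have := csInf_le hb (show sInf R - ε / 2 ∈ R from hcon)
    linarith
  obtain ⟨r, hr, hr'⟩ := exists_lt_of_csInf_lt hne (show sInf R < sInf R + ε / 2 by linarith)
  have hB : (dv {n | sInf R + ε / 2 < f (nu n)}).Countable := by
    by_contra hcon
    exact link hf hr' hr hcon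
  refine ((hA.union hB).mono (dv_union _ _)).mono (dv_mono ?_)
  intro n hn
  simp only [mem_ofPred_eq] at hn
  rcases le_abs.1 hn with h | h
  · right
    simp only [mem_ofPred_eq]
    linarith
  · left
    simp only [mem_ofPred_eq]
    linarith

include hf in
theorem const_at_inf (h0 : ∀ p, 0 ≤ f p) (h1 : ∀ p, f p ≤ 1) :
    ∃ c : ℝ, ∀ ε > 0, ∃ K : Set X, IsCompact K ∧ ∀ p ∉ K, |f p - c| ≤ ε := by
  classical
  obtain ⟨c, hc⟩ := exists_const hf h0 h1
  refine ⟨c, fun ε hε => ?_⟩
  let Sε : Set ℕ := {n | ε ≤ |f (nu n) - c|}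
  let Z : Set X := closure (nu '' Sε)
  have hfc : Continuous fun p => |f p - c| := (hf.sub continuous_const).abs
  have hZf : ∀ p ∈ Z, ε ≤ |f p - c| := by
    have h5 : closure (nu '' Sε) ⊆ {p | ε ≤ |f p - c|} := by
      refine closure_minimal ?_ (isClosed_le continuous_const hfc)
      rintro _ ⟨n, hn, rfl⟩
      exact hn
    exact h5
  -- countably many ladder points in the closure
  have hQ : {j : I ⊕ I | pt lad j ∈ Z}.Countable := by
    have hα : {α : I | ell α ∈ Z}.Countable := by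
      refine ((hc ε hε).preimage_of_injOn x_inj.injOn).mono ?_
      intro α hα k N
      obtain ⟨q, hq, ⟨n, hn, rfl⟩⟩ := mem_closure_pt.1 hα (max k N)
      have hq' := nu_memB.1 hq
      refine ⟨n, hn, ?_, ?_⟩
      · exact (le_max_right _ _).trans (nat_part good0.nat_le hq')
      · exact agr_mono (le_max_left _ _) (B_loc hq')
    have hξ : {ξ : I | pip ξ ∈ Z}.Countable := by
      refine ((hc (ε/2) (by linarith)).preimage_of_injOn w_inj.injOn).mono ?_
      intro ξ hξ
      obtain ⟨R, hR, hRi, hRc⟩ := S_priv ξ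
      have hlt : ε / 2 < |f (pip ξ) - c| := by
        have := hZf _ hξ
        linarith
      have hop : IsOpen {p : X | ε / 2 < |f p - c|} := isOpen_lt continuous_const hfc
      obtain ⟨m, hm⟩ := Ladder.isOpen_iff.1 hop (Sum.inr ξ) hlt
      -- almost all of `R` is in the level set
      let R' : Set ℕ := R \ {n | n < Nat.nth (· ∈ S ξ) m}
      have hR' : R'.Infinite := hRi.sdiff (finite_lt_nat _)
      have hsub : R' ⊆ {n | ε / 2 ≤ |f (nu n) - c|} := by
        rintro n ⟨hn, hn'⟩
        have h3 : nu n ∈ B lad (Sum.inr ξ) m := nu_memP_iff (hR hn) (not_lt.1 hn')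
        exact (show ε / 2 < |f (nu n) - c| from hm h3).le
      exact dv_mono hsub (conv_mem_dv hR' (conv_mono hRc sdiff_subset))
    have hcov : {j : I ⊕ I | pt lad j ∈ Z} ⊆
        Sum.inl '' {α : I | ell α ∈ Z} ∪ Sum.inr '' {ξ : I | pip ξ ∈ Z} := by
      rintro (α | ξ) h
      · exact Or.inl ⟨α, h, rfl⟩
      · exact Or.inr ⟨ξ, h, rfl⟩
    exact ((hα.image _).union (hξ.image _)).mono hcov
  -- finitely many neighbourhoods almost cover
  have hfin : ∃ J : Finset (I ⊕ I), (Sε \ {n | ∃ j ∈ J, nu n ∈ B lad j 0}).Finite := by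
    by_contra hcon
    push Not at hcon
    have hinf : ∀ J : Finset (I ⊕ I), (Sε \ {n | ∃ j ∈ J, nu n ∈ B lad j 0}).Infinite := hcon
    -- an enumeration of the countable set
    have henum : ∃ e : ℕ → Finset (I ⊕ I), ∀ j, pt lad j ∈ Z → ∃ i, ∀ i' ≥ i, j ∈ e i' := by
      by_cases hne : {j : I ⊕ I | pt lad j ∈ Z}.Nonempty
      · obtain ⟨u, hu⟩ := hQ.exists_eq_range hne
        refine ⟨fun i => (Finset.range (i+1)).image u, fun j hj => ?_⟩
        have : j ∈ range u := by rw [← hu]; exact hj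
        obtain ⟨i, rfl⟩ := this
        exact ⟨i, fun i' hi' => Finset.mem_image.2 ⟨i, Finset.mem_range.2 (by omega), rfl⟩⟩
      · refine ⟨fun _ => ∅, fun j hj => absurd ⟨j, hj⟩ hne⟩
    obtain ⟨e, he⟩ := henum
    have hch : ∀ i, ∃ n, i ≤ n ∧ n ∈ Sε ∧ ∀ j ∈ e i, nu n ∉ B lad j 0 := by
      intro i
      obtain ⟨n, ⟨hn, hn'⟩, hi⟩ := (hinf (e i)).exists_gt i
      refine ⟨n, hi.le, hn, fun j hj hmem => hn' ⟨j, hj, hmem⟩⟩
    choose g hg1 hg2 hg3 using hch
    have hginf : (range g).Infinite := by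
      intro hfin
      obtain ⟨M, hM⟩ := hfin.bddAbove
      have := hM ⟨M+1, rfl⟩
      have h2 := hg1 (M+1)
      omega
    -- finitely many elements of the range in the neighbourhood of a point of the closure
    have hfew : ∀ j, pt lad j ∈ Z → ∃ M, ∀ n ∈ range g, nu n ∈ B lad j 0 → n ≤ M := by
      intro j hj
      obtain ⟨i, hi⟩ := he j hj
      have hb : (g '' {k | k < i}).Finite := (finite_lt_nat i).image g
      obtain ⟨M, hM⟩ := hb.bddAbove
      refine ⟨M, ?_⟩
      rintro _ ⟨k, rfl⟩ hk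
      by_cases hki : k < i
      · exact hM ⟨k, hki, rfl⟩
      · exact absurd hk (hg3 k j (hi k (not_lt.1 hki)))
    rcases S_max hginf with ⟨α, hα⟩ | ⟨ξ, hξ⟩
    · have hmem : ell α ∈ Z := by
        refine mem_closure_pt.2 fun m => ?_
        obtain ⟨n, ⟨k, rfl⟩, hn⟩ := hα m
        exact ⟨nu (g k), nu_memB.2 hn, ⟨g k, hg2 k, rfl⟩⟩
      obtain ⟨M, hM⟩ := hfew _ hmem
      obtain ⟨n, hn, hmem'⟩ := hα (M+1)
      have h3 := nat_part good0.nat_le hmem'
      have h4 := hM n hn (B_anti (Nat.zero_le _) (nu_memB.2 hmem'))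
      omega
    · have hmem : pip ξ ∈ Z := by
        have : pip ξ ∈ closure (nu '' (range g)) := pip_mem_closure (by rwa [inter_comm])
        refine closure_mono (image_mono ?_) this
        rintro _ ⟨k, rfl⟩
        exact hg2 k
      obtain ⟨M, hM⟩ := hfew _ hmem
      obtain ⟨n, ⟨hn, hnS⟩, hM'⟩ := hξ.exists_gt (max M (Nat.nth (· ∈ S ξ) 0))
      have h3 : nu n ∈ B lad (Sum.inr ξ) 0 :=
        nu_memP_iff hnS ((le_max_right _ _).trans hM'.le)
      have h4 := hM n hn h3
      have h5 := lt_of_le_of_lt (le_max_left _ _) hM'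
      omega
  obtain ⟨J, hJ⟩ := hfin
  refine ⟨(⋃ j ∈ J, B lad j 0) ∪ nu '' (Sε \ {n | ∃ j ∈ J, nu n ∈ B lad j 0}), ?_, ?_⟩
  · exact (J.isCompact_biUnion fun j _ => isCompact_B goodX j 0).union (hJ.image _).isCompact
  · intro p hp
    by_contra hcon
    rw [not_le] at hcon
    have hcl : IsClosed ((⋃ j ∈ J, B lad j 0) ∪ nu '' (Sε \ {n | ∃ j ∈ J, nu n ∈ B lad j 0})) :=
      ((J.isCompact_biUnion fun j _ => isCompact_B goodX j 0).union (hJ.image _).isCompact).isClosed
    have hZsub : Z ⊆ (⋃ j ∈ J, B lad j 0) ∪ nu '' (Sε \ {n | ∃ j ∈ J, nu n ∈ B lad j 0}) := by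
      refine closure_minimal ?_ hcl
      rintro _ ⟨n, hn, rfl⟩
      by_cases h : ∃ j ∈ J, nu n ∈ B lad j 0
      · obtain ⟨j, hj, hmem⟩ := h
        exact Or.inl (mem_biUnion hj hmem)
      · exact Or.inr ⟨n, ⟨hn, h⟩, rfl⟩
    refine hp (hZsub ?_)
    have hop : IsOpen {p : X | ε < |f p - c|} := isOpen_lt continuous_const hfc
    rw [mem_closure_iff]
    intro o ho hpo
    have h3 := dense_nu p
    rw [mem_closure_iff] at h3
    obtain ⟨_, ⟨h4, h5⟩, ⟨n, rfl⟩⟩ := h3 (o ∩ {p : X | ε < |f p - c|}) (ho.inter hop) ⟨hpo, hcon⟩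
    exact ⟨nu n, h4, ⟨n, (show ε < |f (nu n) - c| from h5).le, rfl⟩⟩

end

/-- the comparison map from the Stone–Cech compactification -/
noncomputable def g : StoneCech X → OnePoint X := stoneCechExtend (OnePoint.continuous_coe (X := X))

theorem g_cont : Continuous g := continuous_stoneCechExtend _

theorem g_unit (p : X) : g (stoneCechUnit p) = (p : OnePoint X) := stoneCechExtend_stoneCechUnit _ p

theorem g_inf {q : StoneCech X} (hq : q ∉ range (stoneCechUnit : X → StoneCech X)) :
    g q = OnePoint.infty := by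
  by_contra hcon
  obtain ⟨p, hp⟩ := OnePoint.ne_infty_iff_exists.1 hcon
  obtain ⟨K, hK, hpK⟩ := exists_compact_mem_nhds p
  have h1 : g ⁻¹' ((↑) '' interior K) ∈ 𝓝 q := by
    refine (IsOpen.preimage g_cont (OnePoint.isOpen_image_coe.2 isOpen_interior)).mem_nhds ?_
    exact ⟨p, mem_interior_iff_mem_nhds.2 hpK, hp⟩
  have h2 : q ∈ closure (stoneCechUnit '' K) := by
    rw [mem_closure_iff_nhds]
    intro t ht
    obtain ⟨_, ⟨h3, h4⟩, ⟨p', rfl⟩⟩ := mem_closure_iff_nhds.1 (denseRange_stoneCechUnit q) _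
      (Filter.inter_mem ht h1)
    refine ⟨_, h3, ⟨p', ?_, rfl⟩⟩
    obtain ⟨p'', hp'', he⟩ := h4
    rw [g_unit] at he
    have := OnePoint.coe_injective he
    subst this
    exact interior_subset hp''
  rw [(hK.image continuous_stoneCechUnit).isClosed.closure_eq] at h2
  obtain ⟨p', -, hp'⟩ := h2
  exact hq ⟨p', hp'⟩

theorem g_inj : Function.Injective g := by
  intro q q' h
  by_cases hq : q ∈ range (stoneCechUnit : X → StoneCech X)
  · obtain ⟨p, rfl⟩ := hq
    by_cases hq' : q' ∈ range (stoneCechUnit : X → StoneCech X)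
    · obtain ⟨p', rfl⟩ := hq'
      rw [g_unit, g_unit] at h
      rw [OnePoint.coe_injective h]
    · rw [g_unit, g_inf hq'] at h
      exact absurd h (OnePoint.coe_ne_infty p)
  · by_cases hq' : q' ∈ range (stoneCechUnit : X → StoneCech X)
    · obtain ⟨p', rfl⟩ := hq'
      rw [g_unit, g_inf hq] at h
      exact absurd h.symm (OnePoint.coe_ne_infty p')
    · by_contra hne
      obtain ⟨F, hF0, hF1, hF⟩ := exists_continuous_zero_one_of_isClosed
        (isClosed_singleton (x := q)) (isClosed_singleton (x := q')) (by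
          rw [disjoint_singleton]; exact hne)
      have hcomp : Continuous fun p : X => F (stoneCechUnit p) :=
        F.continuous.comp continuous_stoneCechUnit
      obtain ⟨c, hc⟩ := const_at_inf hcomp (fun p => (hF _).1) (fun p => (hF _).2)
      have key : ∀ r : StoneCech X, r ∉ range (stoneCechUnit : X → StoneCech X) → F r = c := by
        intro r hr
        by_contra hne
        have hpos : 0 < |F r - c| := abs_pos.2 (sub_ne_zero.2 hne)
        obtain ⟨K, hK, hK'⟩ := hc (|F r - c| / 2) (by linarith)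
        have hop : IsOpen {s : StoneCech X | |F r - c| / 2 < |F s - c|} :=
          isOpen_lt continuous_const ((F.continuous.sub continuous_const).abs)
        have hKc : IsClosed (stoneCechUnit '' K : Set (StoneCech X)) :=
          (hK.image continuous_stoneCechUnit).isClosed
        have hrK : r ∈ {s : StoneCech X | |F r - c| / 2 < |F s - c|} ∩ (stoneCechUnit '' K)ᶜ := by
          refine ⟨by simp only [mem_ofPred_eq]; linarith, ?_⟩
          rintro ⟨p, -, rfl⟩
          exact hr ⟨p, rfl⟩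
        obtain ⟨_, ⟨h3, h4⟩, ⟨p', rfl⟩⟩ := mem_closure_iff_nhds.1 (denseRange_stoneCechUnit r) _
          ((hop.inter hKc.isOpen_compl).mem_nhds hrK)
        have h5 := hK' p' (fun hp => h4 ⟨p', hp, rfl⟩)
        simp only [mem_ofPred_eq] at h3
        linarith
      have h6 := key q hq
      have h7 := key q' hq'
      have h8 : F q = 0 := hF0 rfl
      have h9 : F q' = 1 := hF1 rfl
      rw [h8] at h6
      rw [h9] at h7
      rw [← h6] at h7
      exact one_ne_zero h7

theorem g_emb : IsClosedEmbedding g := g_cont.isClosedEmbedding g_inj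

end Pool.Agent.Helper102.SC
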