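import Pool.Agent.Helper102.SC

set_option autoImplicit false

namespace Pool.Agent.Helper102.SubFinal

open Set Topology Cardinal
open Pool.Agent.Helper102.Ladder Pool.Agent.Helper102.IdxC Pool.Agent.Helper102.CantorBig
open Pool.Agent.Helper102.LSpace Pool.Agent.Helper102.PSpace Pool.Agent.Helper102.XSpace
open Pool.Agent.Helper102.Cover Pool.Agent.Helper102.CoverMain Pool.Agent.Helper102.SC

instance : T35Space X := by
  have : T4Space (OnePoint X) := { }
  exact (OnePoint.isOpenEmbedding_coe (X := X)).isEmbedding.t35Space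

theorem subnormal (A A' : Set (X × StoneCech X)) (hA : IsClosed A) (hA' : IsClosed A')
    (hd : Disjoint A A') :
    ∃ U V : Set (X × StoneCech X), IsGδ U ∧ IsGδ V ∧ A ⊆ U ∧ A' ⊆ V ∧ Disjoint U V := by
  let φ : X × StoneCech X → X × OnePoint X := Prod.map id g
  have hφ : IsClosedEmbedding φ := IsClosedEmbedding.id.prodMap g_emb
  have h1 : IsClosed (φ '' A) := hφ.isClosedMap _ hA
  have h2 : IsClosed (φ '' A') := hφ.isClosedMap _ hA'
  have h3 : Disjoint (φ '' A) (φ '' A') := (disjoint_image_iff hφ.injective).2 hd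
  obtain ⟨U, V, hU, hV, hAU, hAV, hUV⟩ := (cov_univ h1 h2 h3).gdelta
  refine ⟨φ ⁻¹' U, φ ⁻¹' V, hU.preimage hφ.continuous, hV.preimage hφ.continuous, ?_, ?_, ?_⟩
  · exact fun p hp => hAU ⟨p, hp, rfl⟩
  · exact fun p hp => hAV ⟨p, hp, rfl⟩
  · exact hUV.preimage φ

theorem not_countable_I : ¬ (Set.univ : Set I).Countable := by
  intro h
  have h1 : #(Set.univ : Set I) ≤ ℵ₀ := h.le_aleph0
  rw [mk_univ, mk_I] at h1
  exact absurd h1 (not_le.2 aleph0_lt_continuum)

theorem not_subpara : ∃ (ι : Type) (U : ι → Set X), (∀ i, IsOpen (U i)) ∧ (⋃ i, U i) = Set.univ ∧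
    ¬ ∃ (κ : Type) (F : ℕ → κ → Set X),
          (∀ n k, IsClosed (F n k)) ∧
          (∀ n, ∀ x : X, ∃ W ∈ nhds x, Set.Subsingleton {k : κ | (W ∩ F n k).Nonempty}) ∧
          (⋃ n, ⋃ k, F n k) = Set.univ ∧
          (∀ n k, ∃ i, F n k ⊆ U i) := by
  refine ⟨ℕ ⊕ (I ⊕ I), fun q => Sum.elim (fun n => {nu n}) (fun j => B lad j 0) q, ?_, ?_, ?_⟩
  · rintro (n | j)
    · exact isOpen_singleton_nt n
    · exact isOpen_B j 0
  · rw [eq_univ_iff_forall]
    intro p
    rcases cases' p with ⟨n, rfl⟩ | ⟨j, rfl⟩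
    · exact mem_iUnion.2 ⟨Sum.inl n, rfl⟩
    · exact mem_iUnion.2 ⟨Sum.inr j, self_mem _ _⟩
  · rintro ⟨κ, F, -, hdisc, hcov, href⟩
    have hcount : ∀ n k, {α : I | ell α ∈ F n k}.Countable := by
      intro n k
      obtain ⟨i, hi⟩ := href n k
      have h1 : (F n k).Countable := by
        refine Set.Countable.mono hi ?_
        rcases i with m | j
        · exact countable_singleton _
        · exact countable_B goodX j 0
      exact h1.preimage_of_injOn (fun a _ b _ h => ell_inj h)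
    have hidx : ∀ n, {k : κ | ∃ α, ell α ∈ F n k}.Countable := by
      intro n
      let K : Set κ := {k : κ | ∃ α, ell α ∈ F n k}
      have hch : ∀ k : K, ∃ α, ell α ∈ F n k.1 := fun k => k.2
      choose a ha using hch
      have hinj : Function.Injective a := by
        intro k k' h
        obtain ⟨W, hW, hs⟩ := hdisc n (ell (a k))
        refine Subtype.ext (hs ⟨ell (a k), mem_of_mem_nhds hW, ha k⟩
          ⟨ell (a k), mem_of_mem_nhds hW, ?_⟩)
        rw [h]
        exact ha k'
      have hr : (range a).Countable := by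
        refine extent (range a) fun p => ?_
        obtain ⟨W, hW, hs⟩ := hdisc n p
        refine ⟨W, hW, ?_⟩
        refine Set.Subsingleton.finite ?_
        rintro _ ⟨⟨k, rfl⟩, hk⟩ _ ⟨⟨k', rfl⟩, hk'⟩
        have : k.1 = k'.1 := hs ⟨_, hk, ha k⟩ ⟨_, hk', ha k'⟩
        rw [Subtype.ext this]
      have h2 : Countable K := by
        have := hr.to_subtype
        exact (Function.Injective.countable (f := fun k : K => (⟨a k, k, rfl⟩ : range a))
          (fun k k' h => hinj (congrArg Subtype.val h)))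
      exact Set.countable_coe_iff.1 h2
    refine not_countable_I ?_
    have h3 : (Set.univ : Set I) ⊆ ⋃ n : ℕ, ⋃ k ∈ {k : κ | ∃ α, ell α ∈ F n k}, {α : I | ell α ∈ F n k} := by
      intro α _
      have : ell α ∈ ⋃ n, ⋃ k, F n k := by rw [hcov]; trivial
      obtain ⟨n, hn⟩ := mem_iUnion.1 this
      obtain ⟨k, hk⟩ := mem_iUnion.1 hn
      exact mem_iUnion.2 ⟨n, mem_biUnion (show k ∈ {k : κ | ∃ α, ell α ∈ F n k} from ⟨α, hk⟩) hk⟩
    exact (countable_iUnion fun n => (hidx n).biUnion fun k _ => hcount n k).mono h3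

end Pool.Agent.Helper102.SubFinal
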