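import Mathlib

/-!
Let `X` be a Tychonoff space, `r : X → X` a continuous idempotent map and `c` a fixed point of `r`.
`Wedge X r c` is the set `X` with the coarsest topology making all functions `tw r c f`
(`f` continuous on `X`) continuous; it is the wedge of the retract `F = {x | r x = x}` and of `X / F`.
The map `f ↦ tw r c f` is a linear homeomorphism of the spaces of continuous functions.
-/

set_option autoImplicit false

universe u

namespace Pool.Agent.Helper102.WedgeSp

open Topology Filter Set

variable {X : Type u}

open Classical in
/-- The twisting of a function. -/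
noncomputable def tw (r : X → X) (c : X) (f : X → ℝ) (x : X) : ℝ :=
  if r x = x then f x else f x - f (r x) + f c

open Classical in
/-- The inverse of the twisting. -/
noncomputable def untw (r : X → X) (c : X) (g : X → ℝ) (x : X) : ℝ :=
  if r x = x then g x else g x - g c + g (r x)

open Classical in
/-- Collapsing the retract to the base point. -/
noncomputable def col (r : X → X) (c : X) (x : X) : X := if r x = x then c else x

lemma untw_tw {r : X → X} {c : X} (hr : ∀ x, r (r x) = r x) (hc : r c = c) (f : X → ℝ) :
    untw r c (tw r c f) = f := by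
  funext x
  by_cases h : r x = x
  · simp [untw, tw, h]
  · simp [untw, tw, h, hr, hc]

lemma tw_untw {r : X → X} {c : X} (hr : ∀ x, r (r x) = r x) (hc : r c = c) (g : X → ℝ) :
    tw r c (untw r c g) = g := by
  funext x
  by_cases h : r x = x
  · simp [untw, tw, h]
  · simp [untw, tw, h, hr, hc]

lemma tw_col {r : X → X} {c : X} (hc : r c = c) (f : X → ℝ) (x : X) :
    tw r c f (col r c x) = f x - f (r x) + f c := by
  by_cases h : r x = x
  · simp [col, tw, h, hc]
  · simp [col, tw, h]

lemma tw_r {r : X → X} {c : X} (hr : ∀ x, r (r x) = r x) (f : X → ℝ) (x : X) :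
    tw r c f (r x) = f (r x) := by
  simp [tw, hr]

lemma untw_eq {r : X → X} {c : X} (g : X → ℝ) (x : X) :
    untw r c g x = g (col r c x) - g c + g (r x) := by
  by_cases h : r x = x
  · simp [col, untw, h]
  · simp [col, untw, h]

/-- The wedge, as a set it is `X`. -/
structure Wedge (X : Type u) [TopologicalSpace X] (r : X → X) (c : X) : Type u where
  /-- the underlying point -/
  pt : X

variable [TopologicalSpace X] {r : X → X} {c : X}

noncomputable instance : TopologicalSpace (Wedge X r c) :=
  TopologicalSpace.induced (fun (p : Wedge X r c) (f : C(X, ℝ)) => tw r c f p.pt)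
    Pi.topologicalSpace

lemma isInducing_tw : IsInducing (fun (p : Wedge X r c) (f : C(X, ℝ)) => tw r c f p.pt) := ⟨rfl⟩

instance : CompletelyRegularSpace (Wedge X r c) := isInducing_tw.completelyRegularSpace

lemma continuous_tw (f : X → ℝ) (hf : Continuous f) :
    Continuous (fun p : Wedge X r c => tw r c f p.pt) :=
  (continuous_apply (⟨f, hf⟩ : C(X, ℝ))).comp isInducing_tw.continuous

lemma continuous_to {Z : Type*} [TopologicalSpace Z] (g : Z → Wedge X r c)
    (h : ∀ f : C(X, ℝ), Continuous (fun z => tw r c f (g z).pt)) : Continuous g := by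
  rw [isInducing_tw.continuous_iff]
  exact continuous_pi h

lemma continuous_r' (hrc : Continuous r) (hr : ∀ x, r (r x) = r x) :
    Continuous (fun x : X => (⟨r x⟩ : Wedge X r c)) := by
  apply continuous_to
  intro f
  simp only [tw_r hr]
  exact f.continuous.comp hrc

lemma continuous_col (hrc : Continuous r) (hc : r c = c) :
    Continuous (fun x : X => (⟨col r c x⟩ : Wedge X r c)) := by
  apply continuous_to
  intro f
  simp only [tw_col hc]
  exact (f.continuous.sub (f.continuous.comp hrc)).add continuous_const

lemma continuous_untw (hrc : Continuous r) (hr : ∀ x, r (r x) = r x) (hc : r c = c)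
    (g : Wedge X r c → ℝ) (hg : Continuous g) :
    Continuous (untw r c (fun x => g ⟨x⟩)) := by
  have : untw r c (fun x => g ⟨x⟩) = fun x => g ⟨col r c x⟩ - g ⟨c⟩ + g ⟨r x⟩ := by
    funext p
    rw [untw_eq]
  rw [this]
  exact ((hg.comp (continuous_col hrc hc)).sub continuous_const).add
    (hg.comp (continuous_r' hrc hr))

/-- The wedge is a Tychonoff space. -/
lemma t35Space [T35Space X] (hrc : Continuous r) (hr : ∀ x, r (r x) = r x) (hc : r c = c) :
    T35Space (Wedge X r c) := by
  have hF : IsClosed {x | r x = x} := isClosed_eq hrc continuous_id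
  -- points outside of the retract are separated from all others
  have key : ∀ p q : Wedge X r c, r p.pt ≠ p.pt → p.pt ≠ q.pt → ¬ Inseparable p q := by
    intro p q hp hpq hins
    obtain ⟨f, hf, hf0, hf1⟩ := CompletelyRegularSpace.completely_regular p.pt
      ({x | r x = x} ∪ {q.pt}) (hF.union isClosed_singleton) (by
        rintro (h | h)
        · exact hp h
        · exact hpq h)
    let g : X → ℝ := fun x => 1 - (f x : ℝ)
    have hg : Continuous g := continuous_const.sub (continuous_subtype_val.comp hf)
    have h1 := (hins.map (continuous_tw (r := r) (c := c) g hg)).eq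
    have hgp : g p.pt = 1 := by simp [g, hf0]
    have hgF : ∀ x, r x = x → g x = 0 := by
      intro x hx
      have : f x = 1 := hf1 (Or.inl hx)
      simp [g, this]
    have hgq : g q.pt = 0 := by
      have : f q.pt = 1 := hf1 (Or.inr rfl)
      simp [g, this]
    have h2 : tw r c g p.pt = 1 := by
      simp [tw, hp, hgp, hgF c hc, hgF (r p.pt) (hr _)]
    have h3 : tw r c g q.pt = 0 := by
      by_cases h : r q.pt = q.pt
      · simp [tw, h, hgq]
      · simp [tw, h, hgq, hgF c hc, hgF (r q.pt) (hr _)]
    rw [h2, h3] at h1
    exact one_ne_zero h1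
  have h0 : T0Space (Wedge X r c) := by
    refine ⟨fun p q hins => ?_⟩
    by_contra hne
    have hpq : p.pt ≠ q.pt := fun h => hne (by cases p; cases q; simp at h; rw [h])
    by_cases hp : r p.pt = p.pt
    · by_cases hq : r q.pt = q.pt
      · obtain ⟨f, hf, hf0, hf1⟩ := CompletelyRegularSpace.completely_regular p.pt
          {q.pt} isClosed_singleton (by simpa using hpq)
        have h1 := (hins.map (continuous_tw (r := r) (c := c) (fun x => (f x : ℝ))
          (continuous_subtype_val.comp hf))).eq
        have : f q.pt = 1 := hf1 rfl
        simp [tw, hp, hq, hf0, this] at h1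
      · exact key q p hq hpq.symm hins.symm
    · exact key p q hp hpq hins
  exact {}

/-- The twisting as a homeomorphism for the pointwise topologies. -/
noncomputable def homeo (hrc : Continuous r) (hr : ∀ x, r (r x) = r x) (hc : r c = c) :
    {f : X → ℝ // Continuous f} ≃ₜ {g : Wedge X r c → ℝ // Continuous g} where
  toFun := fun f => ⟨fun p => tw r c f.1 p.pt, continuous_tw f.1 f.2⟩
  invFun := fun g => ⟨untw r c (fun x => g.1 ⟨x⟩), continuous_untw hrc hr hc g.1 g.2⟩
  left_inv := by
    intro f
    apply Subtype.ext
    exact untw_tw hr hc f.1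
  right_inv := by
    intro g
    apply Subtype.ext
    funext p
    exact congrFun (tw_untw hr hc (fun x => g.1 ⟨x⟩)) p.pt
  continuous_toFun := by
    have hev : ∀ p : X, Continuous (fun f : {f : X → ℝ // Continuous f} => f.1 p) :=
      fun p => (continuous_apply p).comp continuous_subtype_val
    refine Continuous.subtype_mk (continuous_pi fun p => ?_) _
    by_cases h : r p.pt = p.pt
    · simpa [tw, h] using hev p.pt
    · simp only [tw, h, if_false]
      exact ((hev p.pt).sub (hev (r p.pt))).add (hev c)
  continuous_invFun := by
    have hev : ∀ p : Wedge X r c,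
        Continuous (fun g : {g : Wedge X r c → ℝ // Continuous g} => g.1 p) :=
      fun p => (continuous_apply p).comp continuous_subtype_val
    refine Continuous.subtype_mk (continuous_pi fun p => ?_) _
    by_cases h : r p = p
    · simpa [untw, h] using hev ⟨p⟩
    · simp only [untw, h, if_false]
      exact ((hev ⟨p⟩).sub (hev ⟨c⟩)).add (hev ⟨r p⟩)

end Pool.Agent.Helper102.WedgeSp
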