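import Pool.Agent.Helper102.PSpace

set_option autoImplicit false

namespace Pool.Agent.Helper102.XSpace

open Set Cardinal Topology Filter
open Pool.Agent.Helper102.Ladder Pool.Agent.Helper102.IdxC Pool.Agent.Helper102.CantorBig
open Pool.Agent.Helper102.LSpace Pool.Agent.Helper102.PSpace

/-- the final ladder system -/
noncomputable def lad : I ⊕ I → ℕ → ℕ ⊕ (I ⊕ I)
  | Sum.inl α, k => Sum.map id Sum.inl (lad0 α k)
  | Sum.inr ξ, k => Sum.inl (Nat.nth (· ∈ S ξ) k)

/-- the final space -/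
abbrev X : Type := Sp lad

/-- points of the first kind -/
noncomputable def ell (α : I) : X := pt lad (Sum.inl α)
/-- points of the second kind -/
noncomputable def pip (ξ : I) : X := pt lad (Sum.inr ξ)
/-- isolated points -/
noncomputable def nu (n : ℕ) : X := nt lad n

theorem ell_inj {α β : I} (h : ell α = ell β) : α = β := Sum.inl_injective (pt_inj h)
theorem pip_inj {α β : I} (h : pip α = pip β) : α = β := Sum.inr_injective (pt_inj h)
theorem ell_ne_pip (α ξ : I) : ell α ≠ pip ξ := fun h => by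
  have := pt_inj h
  simp at this
theorem ell_ne_nu (α : I) (n : ℕ) : ell α ≠ nu n := pt_ne_nt n _
theorem pip_ne_nu (α : I) (n : ℕ) : pip α ≠ nu n := pt_ne_nt n _
theorem nu_inj {n m : ℕ} (h : nu n = nu m) : n = m := nt_inj h

theorem xcases (p : X) : (∃ n, p = nu n) ∨ (∃ α, p = ell α) ∨ ∃ ξ, p = pip ξ := by
  rcases cases' p with ⟨n, rfl⟩ | ⟨j, rfl⟩
  · exact Or.inl ⟨n, rfl⟩
  · rcases j with α | ξ
    · exact Or.inr (Or.inl ⟨α, rfl⟩)
    · exact Or.inr (Or.inr ⟨ξ, rfl⟩)

theorem memL_of {α : I} {m : ℕ} {q : ℕ ⊕ I} (h : Mem lad0 α m q) :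
    Mem lad (Sum.inl α) m (Sum.map id Sum.inl q) := by
  induction h with
  | self j m => exact Mem.self _ _
  | nat j m k n hk hl =>
      refine Mem.nat _ m k n hk ?_
      change Sum.map id Sum.inl (lad0 j k) = _
      rw [hl]; rfl
  | step j m k i q hk hl hm ih =>
      refine Mem.step _ m k (Sum.inl i) _ hk ?_ ih
      change Sum.map id Sum.inl (lad0 j k) = _
      rw [hl]; rfl

theorem memL_to {j : I ⊕ I} {m : ℕ} {q : ℕ ⊕ (I ⊕ I)} (h : Mem lad j m q) :
    ∀ α, j = Sum.inl α → ∃ q0, Mem lad0 α m q0 ∧ q = Sum.map id Sum.inl q0 := by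
  induction h with
  | self j m =>
      rintro α rfl
      exact ⟨Sum.inr α, Mem.self _ _, rfl⟩
  | nat j m k n hk hl =>
      rintro α rfl
      change Sum.map id Sum.inl (lad0 α k) = _ at hl
      rcases h0 : lad0 α k with n' | i
      · rw [h0] at hl
        have : n' = n := Sum.inl_injective hl
        subst this
        exact ⟨Sum.inl n', Mem.nat _ m k n' hk h0, rfl⟩
      · rw [h0] at hl
        simp at hl
  | step j m k i q hk hl hm ih =>
      rintro α rfl
      change Sum.map id Sum.inl (lad0 α k) = _ at hl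
      rcases h0 : lad0 α k with n' | i'
      · rw [h0] at hl
        simp at hl
      · rw [h0] at hl
        have hi : Sum.inl i' = i := Sum.inr_injective hl
        obtain ⟨q0, hq0, hq⟩ := ih i' hi.symm
        exact ⟨q0, Mem.step _ m k i' q0 hk h0 hq0, hq⟩

theorem ell_memB {α β : I} {m : ℕ} : ell β ∈ B lad (Sum.inl α) m ↔ Mem lad0 α m (Sum.inr β) := by
  constructor
  · intro h
    obtain ⟨q0, hq0, hq⟩ := memL_to h α rfl
    rcases q0 with n | γ
    · have hq' : (Sum.inr (Sum.inl β) : ℕ ⊕ (I ⊕ I)) = Sum.inl n := hq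
      simp at hq'
    · have hq' : (Sum.inr (Sum.inl β) : ℕ ⊕ (I ⊕ I)) = Sum.inr (Sum.inl γ) := hq
      simp only [Sum.inr.injEq, Sum.inl.injEq] at hq'
      rw [hq']
      exact hq0
  · intro h
    exact memL_of h

theorem nu_memB {α : I} {m n : ℕ} : nu n ∈ B lad (Sum.inl α) m ↔ Mem lad0 α m (Sum.inl n) := by
  constructor
  · intro h
    obtain ⟨q0, hq0, hq⟩ := memL_to h α rfl
    rcases q0 with n' | γ
    · have hq' : (Sum.inl n : ℕ ⊕ (I ⊕ I)) = Sum.inl n' := hq
      simp only [Sum.inl.injEq] at hq'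
      rw [hq']
      exact hq0
    · have hq' : (Sum.inl n : ℕ ⊕ (I ⊕ I)) = Sum.inr (Sum.inl γ) := hq
      simp at hq'
  · intro h
    exact memL_of h

theorem pip_memB {α ξ : I} {m : ℕ} : pip ξ ∉ B lad (Sum.inl α) m := by
  intro h
  obtain ⟨q0, hq0, hq⟩ := memL_to h α rfl
  rcases q0 with n' | γ
  · have hq' : (Sum.inr (Sum.inr ξ) : ℕ ⊕ (I ⊕ I)) = Sum.inl n' := hq
    simp at hq'
  · have hq' : (Sum.inr (Sum.inr ξ) : ℕ ⊕ (I ⊕ I)) = Sum.inr (Sum.inl γ) := hq
    simp at hq'

theorem memP {ξ : I} {m : ℕ} {q : X} (h : q ∈ B lad (Sum.inr ξ) m) :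
    q = pip ξ ∨ ∃ n ∈ S ξ, q = nu n := by
  rcases B_decomp _ _ _ h with rfl | ⟨k, hk, ⟨n, hl, rfl⟩ | ⟨i, hl, hq⟩⟩
  · exact Or.inl rfl
  · right
    have hl' : Nat.nth (· ∈ S ξ) k = n := Sum.inl_injective hl
    refine ⟨n, ?_, rfl⟩
    rw [← hl']
    exact Nat.nth_mem_of_infinite (S_inf ξ) k
  · have hl' : (Sum.inl (Nat.nth (· ∈ S ξ) k) : ℕ ⊕ (I ⊕ I)) = Sum.inr i := hl
    simp at hl'

theorem ell_memP {ξ β : I} {m : ℕ} : ell β ∉ B lad (Sum.inr ξ) m := by
  intro h
  rcases memP h with h | ⟨n, -, h⟩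
  · exact ell_ne_pip _ _ h
  · exact ell_ne_nu _ _ h

theorem pip_memP {ξ η : I} {m : ℕ} (h : pip η ∈ B lad (Sum.inr ξ) m) : η = ξ := by
  rcases memP h with h | ⟨n, -, h⟩
  · exact pip_inj h
  · exact absurd h (pip_ne_nu _ _)

theorem nu_memP_iff {ξ : I} {m n : ℕ} (hn : n ∈ S ξ) (hm : Nat.nth (· ∈ S ξ) m ≤ n) :
    nu n ∈ B lad (Sum.inr ξ) m := by
  classical
  have h1 : Nat.nth (· ∈ S ξ) (Nat.count (· ∈ S ξ) n) = n := Nat.nth_count hn
  have h2 : m ≤ Nat.count (· ∈ S ξ) n := by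
    by_contra hcon
    have h3 : Nat.nth (· ∈ S ξ) (Nat.count (· ∈ S ξ) n) < Nat.nth (· ∈ S ξ) m :=
      Nat.nth_strictMono (S_inf ξ) (not_le.1 hcon)
    rw [h1] at h3
    omega
  refine Mem.nat _ m (Nat.count (· ∈ S ξ) n) n h2 ?_
  change Sum.inl _ = _
  rw [h1]

theorem goodX : IsGood lad where
  ex_wf := by
    refine ⟨Sum.Lex (· < ·) (· < ·), Sum.lex_wf wellFounded_lt wellFounded_lt, ?_⟩
    intro j k i h
    rcases j with α | ξ
    · change Sum.map id Sum.inl (lad0 α k) = _ at h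
      rcases h0 : lad0 α k with n' | i'
      · rw [h0] at h
        simp at h
      · rw [h0] at h
        have hi : Sum.inl i' = i := Sum.inr_injective h
        rw [← hi]
        exact Sum.Lex.inl ((lad0_spec α).2.1 k i' h0)
    · have hl' : (Sum.inl (Nat.nth (· ∈ S ξ) k) : ℕ ⊕ (I ⊕ I)) = Sum.inr i := h
      simp at hl'
  nat_le := by
    intro j k n h
    rcases j with α | ξ
    · change Sum.map id Sum.inl (lad0 α k) = _ at h
      rcases h0 : lad0 α k with n' | i'
      · rw [h0] at h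
        have : n' = n := Sum.inl_injective h
        rw [← this]
        exact (lad0_spec α).1 k n' h0
      · rw [h0] at h
        simp at h
    · have hl' : Nat.nth (· ∈ S ξ) k = n := Sum.inl_injective h
      rw [← hl']
      exact (Nat.nth_strictMono (S_inf ξ)).id_le k
  sep := by
    have hLP : ∀ α ξ : I, ∃ m, Disjoint (B lad (Sum.inl α) m) (B lad (Sum.inr ξ) m) := by
      intro α ξ
      obtain ⟨m, hm⟩ := S_cd ξ α
      refine ⟨m, ?_⟩
      rw [Set.disjoint_left]
      intro q h1 h2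
      rcases memP h2 with rfl | ⟨n, hn, rfl⟩
      · exact pip_memB h1
      · exact hm n hn (nu_memB.1 h1)
    intro i j hij
    rcases i with α | ξ
    · rcases j with β | η
      · obtain ⟨m, hm⟩ := good0.sep α β (fun h => hij (by rw [h]))
        refine ⟨m, ?_⟩
        rw [Set.disjoint_left] at hm ⊢
        intro q h1 h2
        obtain ⟨q1, hq1, he1⟩ := memL_to h1 α rfl
        obtain ⟨q2, hq2, he2⟩ := memL_to h2 β rfl
        have hinj : Function.Injective (Sum.map id Sum.inl : ℕ ⊕ I → ℕ ⊕ (I ⊕ I)) :=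
          Function.Injective.sumMap Function.injective_id Sum.inl_injective
        have : q1 = q2 := hinj (he1.symm.trans he2)
        subst this
        exact hm hq1 hq2
      · exact hLP α η
    · rcases j with β | η
      · obtain ⟨m, hm⟩ := hLP β ξ
        exact ⟨m, hm.symm⟩
      · have hne : ξ ≠ η := fun h => hij (by rw [h])
        obtain ⟨M, hM⟩ := (S_ad hne).bddAbove
        refine ⟨M+1, ?_⟩
        rw [Set.disjoint_left]
        intro q h1 h2
        have hnl : ∀ j k n, lad j k = Sum.inl n → k ≤ n := by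
          intro j k n h
          rcases j with α | ξ
          · change Sum.map id Sum.inl (lad0 α k) = _ at h
            rcases h0 : lad0 α k with n' | i'
            · rw [h0] at h
              have : n' = n := Sum.inl_injective h
              rw [← this]
              exact (lad0_spec α).1 k n' h0
            · rw [h0] at h
              simp at h
          · have hl' : Nat.nth (· ∈ S ξ) k = n := Sum.inl_injective h
            rw [← hl']
            exact (Nat.nth_strictMono (S_inf ξ)).id_le k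
        rcases memP h1 with rfl | ⟨n, hn, rfl⟩
        · rcases memP h2 with h | ⟨n, -, h⟩
          · exact hne (pip_inj h)
          · exact pip_ne_nu _ _ h
        · rcases memP h2 with h | ⟨n', hn', h⟩
          · exact pip_ne_nu _ _ h.symm
          · obtain rfl := nu_inj h
            have h3 := nat_part hnl h1
            have h4 := hM ⟨hn, hn'⟩
            omega

instance : T2Space X := t2 goodX
instance : LocallyCompactSpace X := locallyCompact goodX

/-- the part `L` is closed -/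
theorem isClosed_L : IsClosed (range ell) := by
  rw [← isOpen_compl_iff, Ladder.isOpen_iff]
  intro j hj
  rcases j with α | ξ
  · exact absurd ⟨α, rfl⟩ hj
  · refine ⟨0, ?_⟩
    rintro q hq ⟨α, rfl⟩
    exact ell_memP hq

theorem isClosed_P : IsClosed (range pip) := by
  rw [← isOpen_compl_iff, Ladder.isOpen_iff]
  intro j hj
  rcases j with α | ξ
  · refine ⟨0, ?_⟩
    rintro q hq ⟨ξ, rfl⟩
    exact pip_memB hq
  · exact absurd ⟨ξ, rfl⟩ hj

theorem isClosed_subP (D : Set I) : IsClosed (pip '' D) := by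
  rw [← isOpen_compl_iff, Ladder.isOpen_iff]
  intro j hj
  rcases j with α | ξ
  · refine ⟨0, ?_⟩
    rintro q hq ⟨ξ, -, rfl⟩
    exact pip_memB hq
  · refine ⟨0, ?_⟩
    rintro q hq ⟨η, hη, rfl⟩
    obtain rfl := pip_memP hq
    exact hj ⟨η, hη, rfl⟩

theorem isClosed_nu (n : ℕ) : IsClosed ({nu n} : Set X) := isClosed_singleton

/-- clopen parts of `L` determined by location -/
theorem isClosed_cyl (z : C) (k : ℕ) : IsClosed {p : X | ∃ α, p = ell α ∧ agr k z (x α)} := by
  rw [← isOpen_compl_iff, Ladder.isOpen_iff]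
  intro j hj
  rcases j with α | ξ
  · refine ⟨k, ?_⟩
    rintro q hq ⟨β, rfl, hβ⟩
    have h1 := B_loc (ell_memB.1 hq)
    exact hj ⟨α, rfl, agr_trans hβ (agr_symm h1)⟩
  · refine ⟨0, ?_⟩
    rintro q hq ⟨β, rfl, hβ⟩
    exact ell_memP hq

theorem task1 (u v : ℕ → I) (h : ¬ (closure (range fun n => x (u n)) ∩
    closure (range fun n => x (v n))).Countable) :
    ∃ α, (∀ m, ∃ n, ell (u n) ∈ B lad (Sum.inl α) m) ∧ ∀ m, ∃ n, ell (v n) ∈ B lad (Sum.inl α) m := by
  obtain ⟨α0, hα0⟩ := bdd_countable (range u ∪ range v) ((countable_range u).union (countable_range v))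
  obtain ⟨α, hT, hα⟩ := T_exists (1, fun n => (x (u n), x (v n))) α0
  have hb := big1 (fun n => (x (u n), x (v n))) h
  have hs := (lad0_spec α).2.2.2.2 _ hT hb (fun n => ⟨⟨u n, (hα0 _ (Or.inl ⟨n, rfl⟩)).trans hα, rfl⟩,
    ⟨v n, (hα0 _ (Or.inr ⟨n, rfl⟩)).trans hα, rfl⟩⟩)
  refine ⟨α, fun m => ?_, fun m => ?_⟩
  · obtain ⟨n, β, h1, h2⟩ := (hs m).1
    have : β = u n := x_inj h2
    subst this
    refine ⟨n, ell_memB.2 (Mem.step α m (2*m) (u n) _ (by omega) h1 (Mem.self _ _))⟩
  · obtain ⟨n, β, h1, h2⟩ := (hs m).2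
    have : β = v n := x_inj h2
    subst this
    refine ⟨n, ell_memB.2 (Mem.step α m (2*m+1) (v n) _ (by omega) h1 (Mem.self _ _))⟩

theorem task0 (u v : ℕ → I) (h : ¬ ∃ K : Set C, K.Countable ∧
    ∀ p ∈ closure (range fun n => (x (u n), x (v n))), p.1 = p.2 ∨ p.1 ∈ K ∨ p.2 ∈ K) :
    ∃ α, ∃ n : ℕ → ℕ, ∀ k, ell (u (n k)) ∈ B lad (Sum.inl α) k ∧ agr k (y α) (x (v (n k))) := by
  obtain ⟨α0, hα0⟩ := bdd_countable (range u) (countable_range u)
  obtain ⟨α, hT, hα⟩ := T_exists (0, fun n => (x (u n), x (v n))) α0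
  have hb := big0 (fun n => (x (u n), x (v n))) h
  have hs := (lad0_spec α).2.2.2.1 _ hT hb (fun n => ⟨u n, (hα0 _ ⟨n, rfl⟩).trans hα, rfl⟩)
  choose n β h1 h2 h3 using hs
  refine ⟨α, n, fun k => ⟨?_, h3 k⟩⟩
  have : β k = u (n k) := x_inj (h2 k)
  exact ell_memB.2 (Mem.step α k k (u (n k)) _ le_rfl (by rw [h1 k, this]) (Mem.self _ _))

theorem exists_dense_seq {A : Set I} (hA : A.Nonempty) : ∃ u : ℕ → I, (∀ n, u n ∈ A) ∧
    x '' A ⊆ closure (range fun n => x (u n)) := by
  obtain ⟨D, hDA, hDc, hDd⟩ := TopologicalSpace.IsSeparable.exists_countable_dense_subset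
    (TopologicalSpace.IsSeparable.of_separableSpace (x '' A))
  have hDne : D.Nonempty := by
    obtain ⟨a, ha⟩ := hA
    have := hDd ⟨a, ha, rfl⟩
    exact closure_nonempty_iff.1 ⟨_, this⟩
  obtain ⟨u', hu'⟩ := hDc.exists_eq_range hDne
  have hch : ∀ n, ∃ a ∈ A, x a = u' n := by
    intro n
    exact hDA (by rw [hu']; exact ⟨n, rfl⟩)
  choose u hu1 hu2 using hch
  refine ⟨u, hu1, ?_⟩
  have : (range fun n => x (u n)) = D := by
    rw [hu']
    ext z; simp [hu2]
  rw [this]
  exact hDd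

theorem sep_cl (A A' : Set I) (hA : IsClosed (ell '' A)) (hA' : IsClosed (ell '' A'))
    (hd : Disjoint A A') : (closure (x '' A) ∩ closure (x '' A')).Countable := by
  by_contra hcon
  have hne : A.Nonempty := by
    rw [nonempty_iff_ne_empty]
    rintro rfl
    simp at hcon
  have hne' : A'.Nonempty := by
    rw [nonempty_iff_ne_empty]
    rintro rfl
    simp at hcon
  obtain ⟨u, hu, hu'⟩ := exists_dense_seq hne
  obtain ⟨v, hv, hv'⟩ := exists_dense_seq hne'
  have h1 : closure (x '' A) ⊆ closure (range fun n => x (u n)) := closure_minimal hu' isClosed_closure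
  have h2 : closure (x '' A') ⊆ closure (range fun n => x (v n)) := closure_minimal hv' isClosed_closure
  obtain ⟨α, hα1, hα2⟩ := task1 u v (fun h => hcon (h.mono (inter_subset_inter h1 h2)))
  have h3 : ell α ∈ closure (ell '' A) := by
    refine mem_closure_pt.2 fun m => ?_
    obtain ⟨n, hn⟩ := hα1 m
    exact ⟨_, hn, ⟨u n, hu n, rfl⟩⟩
  have h4 : ell α ∈ closure (ell '' A') := by
    refine mem_closure_pt.2 fun m => ?_
    obtain ⟨n, hn⟩ := hα2 m
    exact ⟨_, hn, ⟨v n, hv n, rfl⟩⟩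
  rw [hA.closure_eq] at h3
  rw [hA'.closure_eq] at h4
  obtain ⟨β, hβ, he⟩ := h3
  obtain ⟨γ, hγ, he'⟩ := h4
  obtain rfl := ell_inj he
  obtain rfl := ell_inj he'
  exact Set.disjoint_left.1 hd hβ hγ

/-- locally finite subsets of `L` are countable -/
theorem extent (D : Set I) (hD : ∀ p : X, ∃ W ∈ 𝓝 p, {α ∈ D | ell α ∈ W}.Finite) : D.Countable := by
  have hcl : ∀ D' ⊆ D, IsClosed (ell '' D') := by
    intro D' hD'
    rw [← closure_subset_iff_isClosed]
    intro p hp
    by_contra hcon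
    obtain ⟨W, hW, hf⟩ := hD p
    have hf' : (ell '' {α ∈ D | ell α ∈ W}).Finite := hf.image _
    have hfin : (ell '' D' ∩ W).Finite := by
      refine hf'.subset ?_
      rintro _ ⟨⟨α, hα, rfl⟩, hαW⟩
      exact ⟨α, ⟨hD' hα, hαW⟩, rfl⟩
    have hop : W \ (ell '' D' ∩ W) ∈ 𝓝 p := by
      have h1 : (ell '' D' ∩ W)ᶜ ∈ 𝓝 p :=
        hfin.isClosed.isOpen_compl.mem_nhds (fun h => hcon h.1)
      exact Filter.inter_mem hW h1
    obtain ⟨q, hq, hq'⟩ := mem_closure_iff_nhds.1 hp _ hop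
    exact hq.2 ⟨hq', hq.1⟩
  by_contra hcon
  have hne : D.Nonempty := by
    rw [nonempty_iff_ne_empty]
    rintro rfl
    simp at hcon
  obtain ⟨u, hu, hu'⟩ := exists_dense_seq hne
  have h1 := sep_cl (range u) (D \ range u) (hcl _ (by rintro _ ⟨n, rfl⟩; exact hu n))
    (hcl _ sdiff_subset) disjoint_sdiff_right
  have h2 : x '' (D \ range u) ⊆ closure (x '' range u) ∩ closure (x '' (D \ range u)) := by
    refine subset_inter ?_ subset_closure
    refine (image_mono sdiff_subset).trans (hu'.trans ?_)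
    refine closure_mono ?_
    rintro _ ⟨n, rfl⟩
    exact ⟨u n, ⟨n, rfl⟩, rfl⟩
  have h3 := h1.mono h2
  have h4 : (D \ range u).Countable := (countable_of_injective_of_countable_image
    (x_inj.injOn) h3)
  refine hcon ?_
  have : D ⊆ range u ∪ (D \ range u) := fun a ha => by
    by_cases h : a ∈ range u
    · exact Or.inl h
    · exact Or.inr ⟨ha, h⟩
  exact ((countable_range u).union h4).mono this

end Pool.Agent.Helper102.XSpace
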